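import Mathlib

/-!
# A conjunctive normal form for membership in a small set of words
-/

set_option autoImplicit false

namespace Pool.Agent.SR

open Finset

private theorem cnf_first {s : ℕ} {W : Finset (Fin s)} {y u : Fin s → Bool}
    (hu : ∀ j, j ∉ W → u j = false) (hy : ∀ j, j ∉ W → y j = false) (hne : y ≠ u) :
    ∃ l ∈ W, (∀ j ∈ W, j < l → y j = u j) ∧ y l ≠ u l := by
  classical
  obtain ⟨j, hj⟩ := Function.ne_iff.1 hne
  set P := W.filter fun j => y j ≠ u j with hP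
  have hjP : j ∈ P := by
    rw [hP, mem_filter]
    refine ⟨?_, hj⟩
    by_contra h
    exact hj (by rw [hu j h, hy j h])
  obtain ⟨l, hl, hmin⟩ := exists_min_image P id ⟨j, hjP⟩
  rw [hP, mem_filter] at hl
  refine ⟨l, hl.1, fun i hi hil => ?_, hl.2⟩
  by_contra h
  exact absurd (hmin i (by rw [hP, mem_filter]; exact ⟨hi, h⟩)) (not_le.2 hil)

theorem cnf_true {s : ℕ} {W : Finset (Fin s)} {F : Finset (Fin s → Bool)} {y : Fin s → Bool}
    (hF : ∀ u ∈ F, ∀ j, j ∉ W → u j = false) (hy : ∀ j, j ∉ W → y j = false) :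
    y ∈ F ↔ F.Nonempty ∧ ∀ u ∈ F, ∀ l ∈ W,
      (¬ ∃ u' ∈ F, (∀ j ∈ W, j < l → u' j = u j) ∧ u' l ≠ u l) →
      ∃ j ∈ W, j ≤ l ∧ y j = if j = l then u l else !(u j) := by
  classical
  constructor
  · intro h
    refine ⟨⟨y, h⟩, fun u hu l hl hv => ?_⟩
    by_contra hc
    push Not at hc
    refine hv ⟨y, h, fun j hj hjl => ?_, ?_⟩
    · have h1 := hc j hj hjl.le
      rw [if_neg hjl.ne] at h1
      revert h1
      generalize y j = a
      generalize u j = b
      cases a <;> cases b <;> simp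
    · have h1 := hc l hl le_rfl
      rwa [if_pos rfl] at h1
  · rintro ⟨⟨u₀, hu₀⟩, hcl⟩
    by_contra hyF
    set P : Finset ((Fin s → Bool) × Fin s) := (F ×ˢ W).filter fun q =>
      (∀ j ∈ W, j < q.2 → y j = q.1 j) ∧ y q.2 ≠ q.1 q.2 with hP
    have hmem : ∀ u l, (u, l) ∈ P ↔ (u ∈ F ∧ l ∈ W) ∧ (∀ j ∈ W, j < l → y j = u j) ∧ y l ≠ u l := by
      intro u l
      rw [hP, mem_filter, mem_product]
    have hPne : P.Nonempty := by
      obtain ⟨l, hl, h1, h2⟩ := cnf_first (hF u₀ hu₀) hy (fun h => hyF (h ▸ hu₀))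
      exact ⟨(u₀, l), (hmem _ _).2 ⟨⟨hu₀, hl⟩, h1, h2⟩⟩
    obtain ⟨⟨u, l⟩, hul, hmax⟩ := exists_max_image P Prod.snd hPne
    obtain ⟨⟨hu, hl⟩, h1, h2⟩ := (hmem _ _).1 hul
    obtain ⟨j, hj, hjl, hyj⟩ := hcl u hu l hl (by
      rintro ⟨u', hu', h3, h4⟩
      obtain ⟨l', hl', h5, h6⟩ := cnf_first (hF u' hu') hy (fun h => hyF (h ▸ hu'))
      have h7 : l' ≤ l := hmax (u', l') ((hmem _ _).2 ⟨⟨hu', hl'⟩, h5, h6⟩)
      have h8 : y l = u' l := by
        revert h2 h4
        generalize y l = a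
        generalize u' l = b
        generalize u l = d
        cases a <;> cases b <;> cases d <;> simp
      rcases lt_or_eq_of_le h7 with h9 | h9
      · exact h6 (by rw [h1 l' hl' h9, h3 l' hl' h9])
      · rw [h9] at h6
        exact h6 h8)
    by_cases hjl' : j = l
    · rw [if_pos hjl', hjl'] at hyj
      exact h2 hyj
    · rw [if_neg hjl', h1 j hj (lt_of_le_of_ne hjl hjl')] at hyj
      revert hyj
      generalize u j = a
      cases a <;> simp

theorem cnf_false {s : ℕ} {W : Finset (Fin s)} {F : Finset (Fin s → Bool)} {y : Fin s → Bool}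
    (hF : ∀ u ∈ F, ∀ j, j ∉ W → u j = false) (hy : ∀ j, j ∉ W → y j = false) :
    y ∉ F ↔ ∀ u ∈ F, ∃ j ∈ W, y j = !(u j) := by
  constructor
  · intro h u hu
    obtain ⟨l, hl, -, h1⟩ := cnf_first (hF u hu) hy (fun he => h (he ▸ hu))
    refine ⟨l, hl, ?_⟩
    revert h1
    generalize y l = a
    generalize u l = b
    cases a <;> cases b <;> simp
  · intro h hyF
    obtain ⟨j, -, hj⟩ := h y hyF
    revert hj
    generalize y j = a
    cases a <;> simp

end Pool.Agent.SR
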