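import Mathlib

/-!
# Circuits with oracle gates and how often they read their variables: definitions
-/

set_option autoImplicit false

namespace Pool.Agent.SR

/-- A gate of a circuit with an oracle: the value of the variable `v`, a NOT gate, an AND or OR gate
with wires from the gates `i` and `j`, or an oracle gate, which asks whether the word of the values
of the gates `w 0, ..., w (m - 1)` is in the oracle. -/
inductive OGate (V : Type) (s : ℕ)
  | var (v : V)
  | not (i : Fin s)
  | and (i j : Fin s)
  | or (i j : Fin s)
  | ask (m : ℕ) (w : Fin m → Fin s)

/-- A circuit with an oracle, with `s` gates: the wires of a gate come from earlier gates; `out` is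
the output. -/
structure OCircuit (V : Type) (s : ℕ) where
  gate : Fin s → OGate V s
  not_lt : ∀ g i, gate g = .not i → i < g
  and_lt : ∀ g i j, gate g = .and i j → i < g ∧ j < g
  or_lt : ∀ g i j, gate g = .or i j → i < g ∧ j < g
  ask_lt : ∀ g m w, gate g = .ask m w → ∀ j, w j < g
  out : Fin s

/-- `val` gives the values of the gates on the input `x` with the oracle `A` -/
def OCircuit.IsEval {V : Type} {s : ℕ} (D : OCircuit V s) (A : Set (List Bool)) (x : V → Bool)
    (val : Fin s → Bool) : Prop :=
  ∀ g, val g = true ↔ match D.gate g with
    | .var v => x v = true
    | .not i => val i = false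
    | .and i j => val i = true ∧ val j = true
    | .or i j => val i = true ∨ val j = true
    | .ask _ w => List.ofFn (fun j => val (w j)) ∈ A

/-- `b` is the value of the circuit on the input `x` with the oracle `A` -/
def OCircuit.HasValue {V : Type} {s : ℕ} (D : OCircuit V s) (A : Set (List Bool)) (x : V → Bool)
    (b : Bool) : Prop :=
  ∃ val, D.IsEval A x val ∧ val D.out = b

/-- `D.Cert g b L`: there is a formal certificate tree for the value `b` of the gate `g` which ends,
from left to right, at the variables in the list `L`.  It goes from a NOT gate to its wire (with the
opposite value), from an AND gate with the value `0` or an OR gate with the value `1` to one of the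
two wires (with the same value), from an AND gate with the value `1` or an OR gate with the value
`0` to both, and from an oracle gate to all its wires (each with some value); it ends at variables.
The values assigned to the variables and to the gates need not be consistent with any input or
oracle. -/
inductive OCircuit.Cert {V : Type} {s : ℕ} (D : OCircuit V s) : Fin s → Bool → List V → Prop
  | var (g : Fin s) (v : V) (b : Bool) : D.gate g = .var v → D.Cert g b [v]
  | not (g i : Fin s) (b : Bool) (L : List V) : D.gate g = .not i → D.Cert i (!b) L → D.Cert g b L
  | andLeft (g i j : Fin s) (L : List V) : D.gate g = .and i j → D.Cert i false L →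
      D.Cert g false L
  | andRight (g i j : Fin s) (L : List V) : D.gate g = .and i j → D.Cert j false L →
      D.Cert g false L
  | andBoth (g i j : Fin s) (L L' : List V) : D.gate g = .and i j → D.Cert i true L →
      D.Cert j true L' → D.Cert g true (L ++ L')
  | orLeft (g i j : Fin s) (L : List V) : D.gate g = .or i j → D.Cert i true L → D.Cert g true L
  | orRight (g i j : Fin s) (L : List V) : D.gate g = .or i j → D.Cert j true L → D.Cert g true L
  | orBoth (g i j : Fin s) (L L' : List V) : D.gate g = .or i j → D.Cert i false L →
      D.Cert j false L' → D.Cert g false (L ++ L')
  | ask (g : Fin s) (m : ℕ) (w : Fin m → Fin s) (b : Bool) (c : Fin m → Bool)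
      (L : Fin m → List V) : D.gate g = .ask m w → (∀ j, D.Cert (w j) (c j) (L j)) →
      D.Cert g b (List.ofFn L).flatten

/-- the words which the gates of the circuit ask for have lengths for which `A` has at most `K`
words -/
def OCircuit.AsksFew {V : Type} {s : ℕ} (D : OCircuit V s) (A : Set (List Bool)) (K : ℝ) : Prop :=
  ∀ g m w, D.gate g = .ask m w → (({u : List Bool | u ∈ A ∧ u.length = m}).ncard : ℝ) ≤ K

end Pool.Agent.SR
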