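import Mathlib
import Pool.Agent.Lib.MP_69a69c_lc_SR.Defs

/-!
# Circuits with oracle gates: the largest number of readings, and the values of the gates
-/

set_option autoImplicit false

namespace Pool.Agent.SR

open Finset

variable {V : Type} {s : ℕ}

/-- the value of the circuit is `1` -/
def OCircuit.Accepts (D : OCircuit V s) (A : Set (List Bool)) (x : V → Bool) : Prop :=
  ∃ val, D.IsEval A x val ∧ val D.out = true

theorem hasValue_true (D : OCircuit V s) (A : Set (List Bool)) (x : V → Bool) :
    D.HasValue A x true ↔ D.Accepts A x := Iff.rfl

private def mxN [DecidableEq V] (D : OCircuit V s) (v : V) : ℕ → Fin s → Bool → ℕ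
  | 0, _, _ => 0
  | k + 1, g, b => match D.gate g with
    | .var w => if w = v then 1 else 0
    | .not i => mxN D v k i (!b)
    | .and i j => if b then mxN D v k i true + mxN D v k j true
        else max (mxN D v k i false) (mxN D v k j false)
    | .or i j => if b then max (mxN D v k i true) (mxN D v k j true)
        else mxN D v k i false + mxN D v k j false
    | .ask _ w => ∑ i, max (mxN D v k (w i) true) (mxN D v k (w i) false)

private theorem mxN_stable [DecidableEq V] (D : OCircuit V s) (v : V) (k : ℕ) :
    ∀ g : Fin s, (g : ℕ) < k → ∀ b, mxN D v (k + 1) g b = mxN D v k g b := by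
  induction k with
  | zero => intro g h; exact absurd h (Nat.not_lt_zero _)
  | succ k ih =>
    intro g hg b
    rw [mxN, mxN]
    cases h : D.gate g with
    | var w => rfl
    | not i =>
      have h1 : (i : ℕ) < g := D.not_lt g i h
      simp only [ih i (by omega)]
    | and i j =>
      obtain ⟨h1, h2⟩ := D.and_lt g i j h
      have h1 : (i : ℕ) < g := h1
      have h2 : (j : ℕ) < g := h2
      simp only [ih i (by omega), ih j (by omega)]
    | or i j =>
      obtain ⟨h1, h2⟩ := D.or_lt g i j h
      have h1 : (i : ℕ) < g := h1
      have h2 : (j : ℕ) < g := h2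
      simp only [ih i (by omega), ih j (by omega)]
    | ask m w =>
      dsimp only
      refine sum_congr rfl fun i _ => ?_
      have h1 : (w i : ℕ) < g := D.ask_lt g m w h i
      rw [ih (w i) (by omega), ih (w i) (by omega)]

/-- the largest number of leaves with the variable `v` in a certificate tree -/
theorem exists_mx [DecidableEq V] (D : OCircuit V s) (v : V) : ∃ mx : Fin s → Bool → ℕ,
    (∀ g b, ∃ L, D.Cert g b L ∧ L.count v = mx g b) ∧ ∀ g, match D.gate g with
      | .var w => ∀ b, mx g b = if w = v then 1 else 0
      | .not i => ∀ b, mx g b = mx i (!b)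
      | .and i j => mx g true = mx i true + mx j true ∧ mx g false = max (mx i false) (mx j false)
      | .or i j => mx g false = mx i false + mx j false ∧ mx g true = max (mx i true) (mx j true)
      | .ask _ w => ∀ b, mx g b = ∑ i, max (mx (w i) true) (mx (w i) false) := by
  have heq : ∀ g b, mxN D v s g b = match D.gate g with
      | .var w => if w = v then 1 else 0
      | .not i => mxN D v s i (!b)
      | .and i j => if b then mxN D v s i true + mxN D v s j true
          else max (mxN D v s i false) (mxN D v s j false)
      | .or i j => if b then max (mxN D v s i true) (mxN D v s j true)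
          else mxN D v s i false + mxN D v s j false
      | .ask _ w => ∑ i, max (mxN D v s (w i) true) (mxN D v s (w i) false) := by
    intro g b
    rw [← mxN_stable D v s g g.2 b, mxN]
  refine ⟨mxN D v s, fun g => ?_, fun g => ?_⟩
  · induction g using WellFoundedLT.induction with
    | _ g ih =>
      intro b
      have h1 := heq g b
      cases h : D.gate g with
      | var w =>
        rw [h] at h1
        refine ⟨[w], .var g w b h, ?_⟩
        rw [h1, List.count_singleton]
        simp
      | not i =>
        rw [h] at h1
        obtain ⟨L, hL, hc⟩ := ih i (D.not_lt g i h) (!b)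
        exact ⟨L, .not g i b L h hL, by rw [h1, hc]⟩
      | and i j =>
        rw [h] at h1
        obtain ⟨hi, hj⟩ := D.and_lt g i j h
        cases b
        · simp only [Bool.false_eq_true, if_false] at h1
          rcases max_choice (mxN D v s i false) (mxN D v s j false) with h2 | h2
          · obtain ⟨L, hL, hc⟩ := ih i hi false
            exact ⟨L, .andLeft g i j L h hL, by rw [h1, h2, hc]⟩
          · obtain ⟨L, hL, hc⟩ := ih j hj false
            exact ⟨L, .andRight g i j L h hL, by rw [h1, h2, hc]⟩
        · simp only [if_true] at h1
          obtain ⟨L, hL, hc⟩ := ih i hi true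
          obtain ⟨L', hL', hc'⟩ := ih j hj true
          exact ⟨L ++ L', .andBoth g i j L L' h hL hL', by rw [h1, List.count_append, hc, hc']⟩
      | or i j =>
        rw [h] at h1
        obtain ⟨hi, hj⟩ := D.or_lt g i j h
        cases b
        · simp only [Bool.false_eq_true, if_false] at h1
          obtain ⟨L, hL, hc⟩ := ih i hi false
          obtain ⟨L', hL', hc'⟩ := ih j hj false
          exact ⟨L ++ L', .orBoth g i j L L' h hL hL', by rw [h1, List.count_append, hc, hc']⟩
        · simp only [if_true] at h1
          rcases max_choice (mxN D v s i true) (mxN D v s j true) with h2 | h2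
          · obtain ⟨L, hL, hc⟩ := ih i hi true
            exact ⟨L, .orLeft g i j L h hL, by rw [h1, h2, hc]⟩
          · obtain ⟨L, hL, hc⟩ := ih j hj true
            exact ⟨L, .orRight g i j L h hL, by rw [h1, h2, hc]⟩
      | ask m w =>
        rw [h] at h1
        have hex : ∀ i : Fin m, ∃ (c : Bool) (L : List V), D.Cert (w i) c L ∧
            L.count v = max (mxN D v s (w i) true) (mxN D v s (w i) false) := by
          intro i
          rcases max_choice (mxN D v s (w i) true) (mxN D v s (w i) false) with h2 | h2
          · obtain ⟨L, hL, hc⟩ := ih (w i) (D.ask_lt g m w h i) true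
            exact ⟨true, L, hL, by rw [h2, hc]⟩
          · obtain ⟨L, hL, hc⟩ := ih (w i) (D.ask_lt g m w h i) false
            exact ⟨false, L, hL, by rw [h2, hc]⟩
        choose c L hL hc using hex
        refine ⟨(List.ofFn L).flatten, .ask g m w b c L h hL, ?_⟩
        rw [h1, List.count_flatten, List.map_ofFn, List.sum_ofFn]
        exact sum_congr rfl fun i _ => hc i
  · cases h : D.gate g with
    | var w =>
      intro b
      rw [heq g b, h]
    | not i =>
      intro b
      rw [heq g b, h]
    | and i j =>
      dsimp only
      rw [heq g true, heq g false, h]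
      simp
    | or i j =>
      dsimp only
      rw [heq g true, heq g false, h]
      simp
    | ask m w =>
      intro b
      rw [heq g b, h]

open Classical in
private noncomputable def evN (D : OCircuit V s) (A : Set (List Bool)) (x : V → Bool) :
    ℕ → Fin s → Bool
  | 0, _ => false
  | k + 1, g => match D.gate g with
    | .var w => x w
    | .not i => !(evN D A x k i)
    | .and i j => evN D A x k i && evN D A x k j
    | .or i j => evN D A x k i || evN D A x k j
    | .ask _ w => decide (List.ofFn (fun j => evN D A x k (w j)) ∈ A)

private theorem evN_stable (D : OCircuit V s) (A : Set (List Bool)) (x : V → Bool) (k : ℕ) :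
    ∀ g : Fin s, (g : ℕ) < k → evN D A x (k + 1) g = evN D A x k g := by
  induction k with
  | zero => intro g h; exact absurd h (Nat.not_lt_zero _)
  | succ k ih =>
    intro g hg
    rw [evN, evN]
    cases h : D.gate g with
    | var w => rfl
    | not i =>
      have h1 : (i : ℕ) < g := D.not_lt g i h
      simp only [ih i (by omega)]
    | and i j =>
      obtain ⟨h1, h2⟩ := D.and_lt g i j h
      have h1 : (i : ℕ) < g := h1
      have h2 : (j : ℕ) < g := h2
      simp only [ih i (by omega), ih j (by omega)]
    | or i j =>
      obtain ⟨h1, h2⟩ := D.or_lt g i j h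
      have h1 : (i : ℕ) < g := h1
      have h2 : (j : ℕ) < g := h2
      simp only [ih i (by omega), ih j (by omega)]
    | ask m w =>
      have h1 : ∀ i, (w i : ℕ) < g := fun i => D.ask_lt g m w h i
      have h2 : (fun j => evN D A x (k + 1) (w j)) = fun j => evN D A x k (w j) := by
        funext j
        have := h1 j
        exact ih (w j) (by omega)
      dsimp only
      rw [h2]

/-- every circuit has an evaluation -/
theorem OCircuit.exists_eval (D : OCircuit V s) (A : Set (List Bool)) (x : V → Bool) :
    ∃ val, D.IsEval A x val := by
  refine ⟨evN D A x s, fun g => ?_⟩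
  rw [← evN_stable D A x s g g.2, evN]
  cases D.gate g <;> simp

private theorem eval_unique {D : OCircuit V s} {A : Set (List Bool)} {x : V → Bool}
    {val val' : Fin s → Bool} (h : D.IsEval A x val) (h' : D.IsEval A x val') : val = val' := by
  funext g
  induction g using WellFoundedLT.induction with
  | _ g ih =>
    rw [Bool.eq_iff_iff, h g, h' g]
    cases hg : D.gate g with
    | var v => rfl
    | not i => simp only [ih i (D.not_lt g i hg)]
    | and i j =>
      have h1 := D.and_lt g i j hg
      simp only [ih i h1.1, ih j h1.2]
    | or i j =>
      have h1 := D.or_lt g i j hg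
      simp only [ih i h1.1, ih j h1.2]
    | ask m w =>
      have h1 : (fun j => val (w j)) = fun j => val' (w j) := by
        funext j
        exact ih (w j) (D.ask_lt g m w hg j)
      dsimp only
      rw [h1]

theorem accepts_iff {D : OCircuit V s} {A : Set (List Bool)} {x : V → Bool}
    {val : Fin s → Bool} (h : D.IsEval A x val) : D.Accepts A x ↔ val D.out = true := by
  constructor
  · rintro ⟨val', h1, h2⟩
    rw [eval_unique h h1]
    exact h2
  · intro h2
    exact ⟨val, h, h2⟩

theorem hasValue_false (D : OCircuit V s) (A : Set (List Bool)) (x : V → Bool) :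
    D.HasValue A x false ↔ ¬ D.Accepts A x := by
  constructor
  · rintro ⟨val, h1, h2⟩ ⟨val', h3, h4⟩
    rw [eval_unique h1 h3, h4] at h2
    exact absurd h2 (by simp)
  · intro h
    obtain ⟨val, hval⟩ := D.exists_eval A x
    refine ⟨val, hval, ?_⟩
    by_contra hc
    exact h ⟨val, hval, by simpa using hc⟩

end Pool.Agent.SR
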