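import Mathlib
import Pool.Agent.Lib.MP_0a1b52_lc_RT.Defs

/-!
# Circuits whose gates are indexed by a finite type with a rank
-/

set_option autoImplicit false

namespace Pool.Agent.SR

open Finset Pool.Agent.FP Pool.Agent.RT

theorem rank_equiv {Γ : Type} [Fintype Γ] (ρ : Γ → ℕ) :
    ∃ e : Γ ≃ Fin (Fintype.card Γ), ∀ a b, ρ a < ρ b → e a < e b := by
  classical
  let φ : Γ → ℕ ×ₗ Fin (Fintype.card Γ) := fun a => toLex (ρ a, Fintype.equivFin Γ a)
  have hφ : Function.Injective φ := by
    intro a b h
    have h1 : (ρ a, Fintype.equivFin Γ a) = (ρ b, Fintype.equivFin Γ b) := toLex.injective h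
    exact (Fintype.equivFin Γ).injective (congrArg Prod.snd h1)
  let _ : LinearOrder Γ := LinearOrder.lift' φ hφ
  let f := Fintype.orderIsoFinOfCardEq Γ rfl
  refine ⟨f.symm.toEquiv, fun a b h => ?_⟩
  have h1 : a < b := by
    show φ a < φ b
    exact Prod.Lex.toLex_lt_toLex.2 (Or.inl h)
  exact f.symm.lt_iff_lt.2 h1

/-- Circuits of fan-in 2 whose gates are indexed by a finite type with a rank. -/
theorem rank_circuit {Γ V : Type} [Fintype Γ] [DecidableEq V]
    (gt : Γ → (V × Bool) ⊕ (Bool × Γ × Γ)) (ρ : Γ → ℕ)
    (hρ : ∀ a k i j, gt a = .inr (k, i, j) → ρ i < ρ a ∧ ρ j < ρ a) (o : Γ) :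
    ∃ D : Circuit V (Fintype.card Γ),
      (∀ (x : V → Bool) (val : Γ → Bool), (∀ a, val a = match gt a with
        | .inl l => x l.1 == l.2
        | .inr q => if q.1 then val q.2.1 && val q.2.2 else val q.2.1 || val q.2.2) →
        (D.Accepts x ↔ val o = true)) ∧
      ∀ (v : V) (B : Γ → ℕ),
        (∀ a, match gt a with
          | .inl l => (if l.1 = v then 1 else 0) ≤ B a
          | .inr q => if q.1 then B q.2.1 ≤ B a ∧ B q.2.2 ≤ B a else B q.2.1 + B q.2.2 ≤ B a) →
        ∀ L, Tree D D.out L → L.count v ≤ B o := by
  obtain ⟨e, he⟩ := rank_equiv ρ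
  let gate : Fin (Fintype.card Γ) → Gate V (Fintype.card Γ) := fun k =>
    match gt (e.symm k) with
    | .inl l => .lit l.1 l.2
    | .inr q => if q.1 then .and (e q.2.1) (e q.2.2) else .or (e q.2.1) (e q.2.2)
  have hgate : ∀ k, gate k = match gt (e.symm k) with
    | .inl l => .lit l.1 l.2
    | .inr q => if q.1 then .and (e q.2.1) (e q.2.2) else .or (e q.2.1) (e q.2.2) := fun k => rfl
  have hand : ∀ g i j, gate g = .and i j → gt (e.symm g) = .inr (true, e.symm i, e.symm j) := by
    intro g i j h
    rw [hgate] at h
    cases hg : gt (e.symm g) with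
    | inl l => rw [hg] at h; exact absurd h (by simp)
    | inr q =>
      obtain ⟨k, a, b⟩ := q
      rw [hg] at h
      cases k
      · exact absurd h (by simp)
      · simp only [if_true, Gate.and.injEq] at h
        rw [← h.1, ← h.2, e.symm_apply_apply, e.symm_apply_apply]
  have hor : ∀ g i j, gate g = .or i j → gt (e.symm g) = .inr (false, e.symm i, e.symm j) := by
    intro g i j h
    rw [hgate] at h
    cases hg : gt (e.symm g) with
    | inl l => rw [hg] at h; exact absurd h (by simp)
    | inr q =>
      obtain ⟨k, a, b⟩ := q
      rw [hg] at h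
      cases k
      · simp only [Bool.false_eq_true, if_false, Gate.or.injEq] at h
        rw [← h.1, ← h.2, e.symm_apply_apply, e.symm_apply_apply]
      · exact absurd h (by simp)
  have hlit : ∀ g v b, gate g = .lit v b → gt (e.symm g) = .inl (v, b) := by
    intro g v b h
    rw [hgate] at h
    cases hg : gt (e.symm g) with
    | inl l =>
      rw [hg] at h
      simp only [Gate.lit.injEq] at h
      rw [← h.1, ← h.2]
    | inr q =>
      obtain ⟨k, a, b⟩ := q
      rw [hg] at h
      cases k <;> exact absurd h (by simp)
  have hlt : ∀ g i j k, gt (e.symm g) = .inr (k, e.symm i, e.symm j) → i < g ∧ j < g := by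
    intro g i j k h
    obtain ⟨h1, h2⟩ := hρ _ _ _ _ h
    have h3 := he _ _ h1
    have h4 := he _ _ h2
    simp only [Equiv.apply_symm_apply] at h3 h4
    exact ⟨h3, h4⟩
  refine ⟨⟨gate, fun g i j h => hlt g i j _ (hand g i j h),
    fun g i j h => hlt g i j _ (hor g i j h), e o⟩, fun x val hval => ?_,
    fun v B hB L hL => ?_⟩
  · have huniq : ∀ val' : Fin (Fintype.card Γ) → Bool, (Circuit.mk gate
        (fun g i j h => hlt g i j _ (hand g i j h)) (fun g i j h => hlt g i j _ (hor g i j h))
        (e o)).IsEval x val' → ∀ g, val' g = val (e.symm g) := by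
      intro val' h' g
      induction g using WellFoundedLT.induction with
      | _ g ih =>
        have h1 := h' g
        dsimp only at h1
        rw [h1, hval (e.symm g)]
        cases hg : gate g with
        | lit v b =>
          rw [hlit g v b hg]
        | and i j =>
          obtain ⟨h2, h3⟩ := hlt g i j _ (hand g i j hg)
          rw [hand g i j hg]
          simp only [if_true]
          rw [ih i h2, ih j h3]
        | or i j =>
          obtain ⟨h2, h3⟩ := hlt g i j _ (hor g i j hg)
          rw [hor g i j hg]
          simp only [Bool.false_eq_true, if_false]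
          rw [ih i h2, ih j h3]
    constructor
    · rintro ⟨val', h1, h2⟩
      have h3 := huniq val' h1 (e o)
      dsimp only at h2
      rw [h2, e.symm_apply_apply] at h3
      exact h3.symm
    · intro ho
      refine ⟨fun g => val (e.symm g), fun g => ?_, by simpa using ho⟩
      dsimp only
      rw [hval (e.symm g)]
      cases hg : gate g with
      | lit v b => rw [hlit g v b hg]
      | and i j => rw [hand g i j hg]; simp
      | or i j => rw [hor g i j hg]; simp
  · have key : ∀ g L, Tree (Circuit.mk gate
        (fun g i j h => hlt g i j _ (hand g i j h)) (fun g i j h => hlt g i j _ (hor g i j h))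
        (e o)) g L → L.count v ≤ B (e.symm g) := by
      intro g L h
      induction h with
      | lit g w b hg =>
        have h1 := hB (e.symm g)
        rw [hlit g w b hg] at h1
        dsimp only at h1
        rw [List.count_singleton]
        refine le_trans (le_of_eq ?_) h1
        simp
      | left g i j L hg _ ih =>
        have h1 := hB (e.symm g)
        rw [hand g i j hg] at h1
        simp only [if_true] at h1
        exact ih.trans h1.1
      | right g i j L hg _ ih =>
        have h1 := hB (e.symm g)
        rw [hand g i j hg] at h1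
        simp only [if_true] at h1
        exact ih.trans h1.2
      | both g i j L L' hg _ _ ih ih' =>
        have h1 := hB (e.symm g)
        rw [hor g i j hg] at h1
        simp only [Bool.false_eq_true, if_false] at h1
        rw [List.count_append]
        exact (add_le_add ih ih').trans h1
    have h1 := key _ L hL
    simpa using h1

end Pool.Agent.SR
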