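import Mathlib
import Pool.Agent.Lib.MP_69a69c_lc_SR.Rank

/-!
# Circuits of unbounded fan-in as circuits of fan-in 2
-/

set_option autoImplicit false

namespace Pool.Agent.SR

open Finset Pool.Agent.FP Pool.Agent.RT

variable {Γ V : Type} [Fintype Γ] [DecidableEq Γ]

/-- the gates of the circuit of fan-in 2 -/
private noncomputable def fanGate (gt : Γ → (V × Bool) ⊕ (Bool × Finset Γ)) (v₀ : V) :
    (Fin 4 ⊕ (Γ × Fin (Fintype.card Γ + 1))) →
      (V × Bool) ⊕ (Bool × (Fin 4 ⊕ (Γ × Fin (Fintype.card Γ + 1))) ×
        (Fin 4 ⊕ (Γ × Fin (Fintype.card Γ + 1))))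
  | .inl k => if k = 0 then .inl (v₀, true) else if k = 1 then .inl (v₀, false) else
      if k = 2 then .inr (false, .inl 0, .inl 1) else .inr (true, .inl 0, .inl 1)
  | .inr (a, j) => match gt a with
    | .inl l => .inl l
    | .inr (k, J) => Fin.cases (motive := fun _ => (V × Bool) ⊕
        (Bool × (Fin 4 ⊕ (Γ × Fin (Fintype.card Γ + 1))) ×
        (Fin 4 ⊕ (Γ × Fin (Fintype.card Γ + 1)))))
      (if k then .inr (true, .inl 2, .inl 2) else .inr (true, .inl 3, .inl 3))
      (fun i => if (Fintype.equivFin Γ).symm i ∈ J
        then .inr (k, .inr (a, i.castSucc), .inr ((Fintype.equivFin Γ).symm i, Fin.last _))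
        else .inr (true, .inr (a, i.castSucc), .inr (a, i.castSucc))) j

private def fanRank (ρ : Γ → ℕ) : (Fin 4 ⊕ (Γ × Fin (Fintype.card Γ + 1))) → ℕ
  | .inl k => if (k : ℕ) < 2 then 0 else 1
  | .inr (a, j) => ρ a * (Fintype.card Γ + 2) + j + 2

private theorem fan_lt {gt : Γ → (V × Bool) ⊕ (Bool × Finset Γ)} {v₀ : V} {ρ : Γ → ℕ}
    (hρ : ∀ a k J, gt a = .inr (k, J) → ∀ d ∈ J, ρ d < ρ a)
    (a : Fin 4 ⊕ (Γ × Fin (Fintype.card Γ + 1))) (k : Bool)
    (i j : Fin 4 ⊕ (Γ × Fin (Fintype.card Γ + 1)))
    (h : fanGate gt v₀ a = .inr (k, i, j)) :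
    fanRank ρ i < fanRank ρ a ∧ fanRank ρ j < fanRank ρ a := by
  rcases a with q | ⟨a, q⟩
  · fin_cases q
    · simp [fanGate] at h
    · simp [fanGate] at h
    · simp only [fanGate] at h
      simp at h
      rw [← h.2.1, ← h.2.2]
      simp [fanRank]
    · simp only [fanGate] at h
      simp at h
      rw [← h.2.1, ← h.2.2]
      simp [fanRank]
  · simp only [fanGate] at h
    cases hg : gt a with
    | inl l => rw [hg] at h; exact absurd h (by simp)
    | inr r =>
      obtain ⟨k', J⟩ := r
      rw [hg] at h
      dsimp only at h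
      induction q using Fin.cases with
      | zero =>
        rw [Fin.cases_zero] at h
        cases k'
        · simp at h
          rw [← h.2.1, ← h.2.2]
          simp [fanRank]
        · simp at h
          rw [← h.2.1, ← h.2.2]
          simp [fanRank]
      | succ q =>
        rw [Fin.cases_succ] at h
        by_cases hq : (Fintype.equivFin Γ).symm q ∈ J
        · rw [if_pos hq] at h
          simp at h
          rw [← h.2.1, ← h.2.2]
          have h1 := hρ a k' J hg _ hq
          have h2 : ρ ((Fintype.equivFin Γ).symm q) * (Fintype.card Γ + 2) + (Fintype.card Γ + 2) ≤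
              ρ a * (Fintype.card Γ + 2) := by
            rw [← Nat.succ_mul]
            exact Nat.mul_le_mul_right _ h1
          simp only [fanRank, Fin.val_castSucc, Fin.val_succ, Fin.val_last]
          omega
        · rw [if_neg hq] at h
          simp at h
          rw [← h.2.1, ← h.2.2]
          simp only [fanRank, Fin.val_castSucc, Fin.val_succ]
          omega

private noncomputable def fanVal (gt : Γ → (V × Bool) ⊕ (Bool × Finset Γ)) (v₀ : V) (x : V → Bool)
    (val : Γ → Bool) : (Fin 4 ⊕ (Γ × Fin (Fintype.card Γ + 1))) → Bool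
  | .inl k => if k = 0 then x v₀ else if k = 1 then !(x v₀) else decide (k = 2)
  | .inr (a, j) => match gt a with
    | .inl l => x l.1 == l.2
    | .inr (k, J) => if k then decide (∀ d ∈ J, (Fintype.equivFin Γ d : ℕ) < j → val d = true)
      else decide (∃ d ∈ J, (Fintype.equivFin Γ d : ℕ) < j ∧ val d = true)

omit [DecidableEq Γ] in
private theorem fan_idx (i : Fin (Fintype.card Γ)) (d : Γ) :
    (Fintype.equivFin Γ d : ℕ) < (i : ℕ) + 1 ↔
      (Fintype.equivFin Γ d : ℕ) < (i : ℕ) ∨ d = (Fintype.equivFin Γ).symm i := by
  rw [Nat.lt_succ_iff, le_iff_lt_or_eq]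
  refine or_congr_right ?_
  rw [Equiv.eq_symm_apply, Fin.ext_iff]

private theorem fanVal_last (gt : Γ → (V × Bool) ⊕ (Bool × Finset Γ)) (v₀ : V) (x : V → Bool)
    (val : Γ → Bool) (hval : ∀ a, val a = match gt a with
        | .inl l => x l.1 == l.2
        | .inr q => if q.1 then decide (∀ d ∈ q.2, val d = true) else
            decide (∃ d ∈ q.2, val d = true)) (a : Γ) :
    fanVal gt v₀ x val (.inr (a, Fin.last _)) = val a := by
  have h1 := hval a
  have hlt : ∀ d : Γ, (Fintype.equivFin Γ d : ℕ) < Fintype.card Γ := fun d => Fin.is_lt _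
  simp only [fanVal]
  cases hg : gt a with
  | inl l => rw [hg] at h1; exact h1.symm
  | inr q =>
    obtain ⟨k, J⟩ := q
    rw [hg] at h1
    rw [h1]
    cases k <;> simp [Fin.val_last, hlt]

private theorem fanVal_eval (gt : Γ → (V × Bool) ⊕ (Bool × Finset Γ)) (v₀ : V) (x : V → Bool)
    (val : Γ → Bool) (hval : ∀ a, val a = match gt a with
        | .inl l => x l.1 == l.2
        | .inr q => if q.1 then decide (∀ d ∈ q.2, val d = true) else
            decide (∃ d ∈ q.2, val d = true)) (a : Fin 4 ⊕ (Γ × Fin (Fintype.card Γ + 1))) :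
    fanVal gt v₀ x val a = match fanGate gt v₀ a with
      | .inl l => x l.1 == l.2
      | .inr q => if q.1 then fanVal gt v₀ x val q.2.1 && fanVal gt v₀ x val q.2.2
          else fanVal gt v₀ x val q.2.1 || fanVal gt v₀ x val q.2.2 := by
  rcases a with q | ⟨a, q⟩
  · fin_cases q <;> simp [fanGate, fanVal]
  · cases hg : gt a with
    | inl l =>
      have e1 : fanGate gt v₀ (.inr (a, q)) = .inl l := by
        simp only [fanGate, hg]
      have e2 : fanVal gt v₀ x val (.inr (a, q)) = (x l.1 == l.2) := by
        simp only [fanVal, hg]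
      rw [e1, e2]
    | inr r =>
      obtain ⟨k, J⟩ := r
      have e2 : ∀ j, fanVal gt v₀ x val (.inr (a, j)) =
          if k then decide (∀ d ∈ J, (Fintype.equivFin Γ d : ℕ) < j → val d = true)
          else decide (∃ d ∈ J, (Fintype.equivFin Γ d : ℕ) < j ∧ val d = true) := by
        intro j
        simp only [fanVal, hg]
      induction q using Fin.cases with
      | zero =>
        have e1 : fanGate gt v₀ (.inr (a, 0)) =
            (if k then .inr (true, .inl 2, .inl 2) else .inr (true, .inl 3, .inl 3)) := by
          simp only [fanGate, hg]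
          rfl
        rw [e1, e2]
        cases k <;> simp [fanVal]
      | succ q =>
        have e1 : fanGate gt v₀ (.inr (a, q.succ)) =
            (if (Fintype.equivFin Γ).symm q ∈ J
            then .inr (k, .inr (a, q.castSucc), .inr ((Fintype.equivFin Γ).symm q, Fin.last _))
            else .inr (true, .inr (a, q.castSucc), .inr (a, q.castSucc))) := by
          simp only [fanGate, hg]
          rfl
        rw [e1, e2]
        by_cases hq : (Fintype.equivFin Γ).symm q ∈ J
        · rw [if_pos hq]
          dsimp only
          rw [fanVal_last gt v₀ x val hval, e2]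
          cases k
          · simp only [Bool.false_eq_true, if_false, Fin.val_castSucc, Fin.val_succ, fan_idx]
            rw [Bool.eq_iff_iff]
            simp only [decide_eq_true_eq, Bool.or_eq_true]
            constructor
            · rintro ⟨d, h1, h2 | h2, h3⟩
              · exact Or.inl ⟨d, h1, h2, h3⟩
              · exact Or.inr (h2 ▸ h3)
            · rintro (⟨d, h1, h2, h3⟩ | h)
              · exact ⟨d, h1, Or.inl h2, h3⟩
              · exact ⟨_, hq, Or.inr rfl, h⟩
          · simp only [if_true, Fin.val_castSucc, Fin.val_succ, fan_idx]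
            rw [Bool.eq_iff_iff]
            simp only [decide_eq_true_eq, Bool.and_eq_true]
            constructor
            · intro h
              exact ⟨fun d h1 h2 => h d h1 (Or.inl h2), h _ hq (Or.inr rfl)⟩
            · rintro ⟨h1, h2⟩ d hd (h3 | h3)
              · exact h1 d hd h3
              · exact h3 ▸ h2
        · rw [if_neg hq]
          dsimp only
          rw [e2]
          have hne : ∀ d ∈ J, d ≠ (Fintype.equivFin Γ).symm q := fun d hd h => hq (h ▸ hd)
          cases k
          · simp only [Bool.false_eq_true, if_false, Fin.val_castSucc, Fin.val_succ, fan_idx,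
              if_true, Bool.and_self]
            rw [Bool.eq_iff_iff]
            simp only [decide_eq_true_eq]
            constructor
            · rintro ⟨d, h1, h2 | h2, h3⟩
              · exact ⟨d, h1, h2, h3⟩
              · exact absurd h2 (hne d h1)
            · rintro ⟨d, h1, h2, h3⟩
              exact ⟨d, h1, Or.inl h2, h3⟩
          · simp only [Fin.val_castSucc, Fin.val_succ, fan_idx, if_true, Bool.and_self]
            rw [Bool.eq_iff_iff]
            simp only [decide_eq_true_eq]
            constructor
            · exact fun h d h1 h2 => h d h1 (Or.inl h2)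
            · rintro h d h1 (h2 | h2)
              · exact h d h1 h2
              · exact absurd h2 (hne d h1)

private noncomputable def fanB (gt : Γ → (V × Bool) ⊕ (Bool × Finset Γ)) (B : Γ → ℕ) :
    (Fin 4 ⊕ (Γ × Fin (Fintype.card Γ + 1))) → ℕ
  | .inl _ => 0
  | .inr (a, j) => match gt a with
    | .inl _ => B a
    | .inr (k, J) => if k then B a else
      ∑ d ∈ J.filter fun d => (Fintype.equivFin Γ d : ℕ) < j, B d

omit [DecidableEq Γ] in
private theorem fanB_last [DecidableEq V] (gt : Γ → (V × Bool) ⊕ (Bool × Finset Γ)) (v : V)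
    (B : Γ → ℕ) (hB : ∀ a, match gt a with
        | .inl l => (if l.1 = v then 1 else 0) ≤ B a
        | .inr q => if q.1 then ∀ d ∈ q.2, B d ≤ B a else ∑ d ∈ q.2, B d ≤ B a)
    (a : Γ) : fanB gt B (.inr (a, Fin.last _)) ≤ B a := by
  have h1 := hB a
  simp only [fanB]
  cases hg : gt a with
  | inl l => exact le_refl _
  | inr q =>
    obtain ⟨k, J⟩ := q
    rw [hg] at h1
    cases k
    · simp only [Bool.false_eq_true, if_false] at h1 ⊢
      exact (Finset.sum_le_sum_of_subset (Finset.filter_subset _ _)).trans h1
    · simp

private theorem fanB_ok [DecidableEq V] (gt : Γ → (V × Bool) ⊕ (Bool × Finset Γ)) (v₀ v : V)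
    (hv : v ≠ v₀) (B : Γ → ℕ) (hB : ∀ a, match gt a with
        | .inl l => (if l.1 = v then 1 else 0) ≤ B a
        | .inr q => if q.1 then ∀ d ∈ q.2, B d ≤ B a else ∑ d ∈ q.2, B d ≤ B a)
    (a : Fin 4 ⊕ (Γ × Fin (Fintype.card Γ + 1))) :
    match fanGate gt v₀ a with
      | .inl l => (if l.1 = v then 1 else 0) ≤ fanB gt B a
      | .inr q => if q.1 then fanB gt B q.2.1 ≤ fanB gt B a ∧ fanB gt B q.2.2 ≤ fanB gt B a
          else fanB gt B q.2.1 + fanB gt B q.2.2 ≤ fanB gt B a := by
  rcases a with q | ⟨a, q⟩
  · fin_cases q <;> simp [fanGate, fanB, hv.symm]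
  · cases hg : gt a with
    | inl l =>
      have e1 : fanGate gt v₀ (.inr (a, q)) = .inl l := by
        simp only [fanGate, hg]
      have e2 : fanB gt B (.inr (a, q)) = B a := by
        simp only [fanB, hg]
      rw [e1, e2]
      have h1 := hB a
      rw [hg] at h1
      exact h1
    | inr r =>
      obtain ⟨k, J⟩ := r
      have h1 := hB a
      rw [hg] at h1
      have e2 : ∀ j, fanB gt B (.inr (a, j)) =
          if k then B a else ∑ d ∈ J.filter fun d => (Fintype.equivFin Γ d : ℕ) < j, B d := by
        intro j
        simp only [fanB, hg]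
      induction q using Fin.cases with
      | zero =>
        have e1 : fanGate gt v₀ (.inr (a, 0)) =
            (if k then .inr (true, .inl 2, .inl 2) else .inr (true, .inl 3, .inl 3)) := by
          simp only [fanGate, hg]
          rfl
        rw [e1]
        cases k <;> simp [fanB]
      | succ q =>
        have e1 : fanGate gt v₀ (.inr (a, q.succ)) =
            (if (Fintype.equivFin Γ).symm q ∈ J
            then .inr (k, .inr (a, q.castSucc), .inr ((Fintype.equivFin Γ).symm q, Fin.last _))
            else .inr (true, .inr (a, q.castSucc), .inr (a, q.castSucc))) := by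
          simp only [fanGate, hg]
          rfl
        rw [e1]
        by_cases hq : (Fintype.equivFin Γ).symm q ∈ J
        · rw [if_pos hq]
          dsimp only
          have h2 := fanB_last gt v B hB ((Fintype.equivFin Γ).symm q)
          cases k
          · rw [e2, e2]
            simp only [Bool.false_eq_true, if_false] at h1 ⊢
            have h3 : (J.filter fun d => (Fintype.equivFin Γ d : ℕ) < q.succ) =
                insert ((Fintype.equivFin Γ).symm q)
                  (J.filter fun d => (Fintype.equivFin Γ d : ℕ) < q.castSucc) := by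
              ext d
              simp only [mem_filter, mem_insert, Fin.val_succ, Fin.val_castSucc, fan_idx]
              constructor
              · rintro ⟨h4, h5 | h5⟩
                · exact Or.inr ⟨h4, h5⟩
                · exact Or.inl h5
              · rintro (h4 | ⟨h4, h5⟩)
                · exact ⟨h4 ▸ hq, Or.inr h4⟩
                · exact ⟨h4, Or.inl h5⟩
            rw [h3, sum_insert]
            · omega
            · simp
          · simp only [if_true] at h1 ⊢
            rw [e2, e2]
            simp only [if_true, le_refl, true_and]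
            exact h2.trans (h1 _ hq)
        · rw [if_neg hq]
          simp only [if_true, and_self]
          rw [e2, e2]
          cases k
          · simp only [Bool.false_eq_true, if_false]
            refine Finset.sum_le_sum_of_subset fun d hd => ?_
            rw [mem_filter] at hd ⊢
            refine ⟨hd.1, hd.2.trans ?_⟩
            simp
          · simp

theorem fan [DecidableEq V] (gt : Γ → (V × Bool) ⊕ (Bool × Finset Γ)) (ρ : Γ → ℕ)
    (hρ : ∀ a k J, gt a = .inr (k, J) → ∀ d ∈ J, ρ d < ρ a) (o : Γ) (v₀ : V) :
    ∃ D : Circuit V (4 + Fintype.card Γ * (Fintype.card Γ + 1)),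
      (∀ (x : V → Bool) (val : Γ → Bool), (∀ a, val a = true ↔ match gt a with
        | .inl l => x l.1 = l.2
        | .inr q => if q.1 = true then ∀ d ∈ q.2, val d = true else ∃ d ∈ q.2, val d = true) →
        (D.Accepts x ↔ val o = true)) ∧
      ∀ v ≠ v₀, ∀ B : Γ → ℕ,
        (∀ a, match gt a with
          | .inl l => (if l.1 = v then 1 else 0) ≤ B a
          | .inr q => if q.1 then ∀ d ∈ q.2, B d ≤ B a else ∑ d ∈ q.2, B d ≤ B a) →
        ∀ L, Tree D D.out L → L.count v ≤ B o := by
  have hcard : Fintype.card (Fin 4 ⊕ (Γ × Fin (Fintype.card Γ + 1))) =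
      4 + Fintype.card Γ * (Fintype.card Γ + 1) := by
    simp
  rw [← hcard]
  obtain ⟨D, h1, h2⟩ := rank_circuit (fanGate gt v₀) (fanRank ρ) (fan_lt hρ) (.inr (o, Fin.last _))
  refine ⟨D, fun x val hval => ?_, fun v hv B hB L hL => ?_⟩
  · have hval' : ∀ a, val a = match gt a with
        | .inl l => x l.1 == l.2
        | .inr q => if q.1 then decide (∀ d ∈ q.2, val d = true) else
            decide (∃ d ∈ q.2, val d = true) := by
      intro a
      have h := hval a
      rw [Bool.eq_iff_iff]
      cases hg : gt a with
      | inl l =>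
        rw [hg] at h
        simpa using h
      | inr q =>
        rw [hg] at h
        obtain ⟨k, J⟩ := q
        cases k <;> simpa using h
    rw [h1 x (fanVal gt v₀ x val) fun a => by
      have h := fanVal_eval gt v₀ x val hval' a
      cases hg : fanGate gt v₀ a with
      | inl l => rw [hg] at h; exact h
      | inr q => rw [hg] at h; exact h, fanVal_last gt v₀ x val hval']
  · refine (h2 v (fanB gt B) (fun a => ?_) L hL).trans (fanB_last gt v B hB o)
    have h := fanB_ok gt v₀ v hv B hB a
    cases hg : fanGate gt v₀ a with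
    | inl l => rw [hg] at h; exact h
    | inr q => rw [hg] at h; exact h

end Pool.Agent.SR
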