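import Mathlib
import Pool.Agent.Lib.MP_69a69c_lc_SR.Defs
import Pool.Agent.Lib.MP_69a69c_lc_SR.Fan
import Pool.Agent.Lib.MP_69a69c_lc_SR.Cnf
import Pool.Agent.Lib.MP_69a69c_lc_SR.Count

/-!
# Circuits with a sparse oracle as circuits without oracle which do not read more
-/

set_option autoImplicit false

namespace Pool.Agent.SR

open Finset Pool.Agent.FP Pool.Agent.RT

variable {V : Type} {s r : ℕ}

open Classical in
/-- the values of the wires for which the answer is yes -/
private noncomputable def Fw (A : Set (List Bool)) {m : ℕ} (w : Fin m → Fin s) :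
    Finset (Fin s → Bool) :=
  univ.filter fun u => (∀ j, j ∉ univ.image w → u j = false) ∧ List.ofFn (fun i => u (w i)) ∈ A

private theorem mem_Fw {A : Set (List Bool)} {m : ℕ} {w : Fin m → Fin s} {u : Fin s → Bool} :
    u ∈ Fw A w ↔ (∀ j, j ∉ univ.image w → u j = false) ∧ List.ofFn (fun i => u (w i)) ∈ A := by
  classical
  unfold Fw
  rw [mem_filter]
  exact ⟨fun h => h.2, fun h => ⟨mem_univ _, h⟩⟩

private theorem card_Fw {A : Set (List Bool)} {K m : ℕ}
    (hA : ({u : List Bool | u ∈ A ∧ u.length = m}).ncard ≤ K)
    (w : Fin m → Fin s) : (Fw A w).card ≤ K := by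
  classical
  refine le_trans ?_ hA
  have hfin : ({u : List Bool | u ∈ A ∧ u.length = m}).Finite :=
    (List.finite_length_eq Bool m).subset fun u hu => hu.2
  rw [← Set.ncard_coe_finset]
  refine Set.ncard_le_ncard_of_injOn (fun u => List.ofFn (fun i => u (w i))) ?_ ?_ hfin
  · intro u hu
    have h1 := mem_Fw.1 (mem_coe.1 hu)
    exact ⟨h1.2, List.length_ofFn⟩
  · intro u hu u' hu' h
    have h1 := mem_Fw.1 (mem_coe.1 hu)
    have h2 := mem_Fw.1 (mem_coe.1 hu')
    have h3 : (fun i => u (w i)) = fun i => u' (w i) := List.ofFn_injective h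
    funext j
    by_cases hj : j ∈ univ.image w
    · obtain ⟨i, -, rfl⟩ := mem_image.1 hj
      exact congrFun h3 i
    · rw [h1.1 j hj, h2.1 j hj]

private noncomputable def en (A : Set (List Bool)) (K : ℕ) {m : ℕ} (w : Fin m → Fin s)
    (k : Fin K) : Option (Fin s → Bool) :=
  (Fw A w).toList[(k : ℕ)]?

private theorem mem_en {A : Set (List Bool)} {K m : ℕ}
    (hA : ({u : List Bool | u ∈ A ∧ u.length = m}).ncard ≤ K)
    (w : Fin m → Fin s) (u : Fin s → Bool) : u ∈ Fw A w ↔ ∃ k, en A K w k = some u := by
  rw [← mem_toList, List.mem_iff_getElem?]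
  constructor
  · rintro ⟨i, hi⟩
    have h1 : i < (Fw A w).toList.length := by
      by_contra h
      rw [List.getElem?_eq_none (not_lt.1 h)] at hi
      exact absurd hi (by simp)
    rw [length_toList] at h1
    exact ⟨⟨i, h1.trans_le (card_Fw hA w)⟩, hi⟩
  · rintro ⟨k, hk⟩
    exact ⟨k, hk⟩

/-- the word with the number `k` -/
private noncomputable def wd (A : Set (List Bool)) (K : ℕ) {m : ℕ} (w : Fin m → Fin s)
    (k : Fin K) : Fin s → Bool :=
  (en A K w k).getD fun _ => false

private noncomputable def clS (K : ℕ) {m : ℕ} (w : Fin m → Fin s) (b : Bool) :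
    Option (Fin K × Fin s) → Finset (Fin s)
  | none => ∅
  | some q => if b then (univ.image w).filter (· ≤ q.2) else univ.image w

private noncomputable def clB (A : Set (List Bool)) (K : ℕ) {m : ℕ} (w : Fin m → Fin s)
    (b : Bool) : Option (Fin K × Fin s) → Fin s → Bool
  | none, _ => false
  | some q, j => if b then (if j = q.2 then wd A K w q.1 q.2 else !(wd A K w q.1 j)) else
      !(wd A K w q.1 j)

private def clV (A : Set (List Bool)) (K : ℕ) {m : ℕ} (w : Fin m → Fin s) (b : Bool) :
    Option (Fin K × Fin s) → Prop
  | none => b = true ∧ Fw A w = ∅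
  | some q => (∃ u, en A K w q.1 = some u) ∧ (b = true → q.2 ∈ univ.image w ∧
      ¬ ∃ u' ∈ Fw A w, (∀ j ∈ univ.image w, j < q.2 → u' j = wd A K w q.1 j) ∧
        u' q.2 ≠ wd A K w q.1 q.2)

private abbrev Gm (s K : ℕ) : Type := Fin s × Bool × Option (Option (Fin K × Fin s))

open Classical in
private noncomputable def cvGate (D : OCircuit (V ⊕ Fin r) s) (y : Fin r → Bool)
    (A : Set (List Bool)) (K : ℕ) (v₀ : V) : Gm s K → (V × Bool) ⊕ (Bool × Finset (Gm s K))
  | (g, b, none) => match D.gate g with
    | .var (.inl v) => .inl (v, b)
    | .var (.inr j) => .inr (y j == b, ∅)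
    | .not i => .inr (true, {(i, !b, none)})
    | .and i j => .inr (b, {(i, b, none), (j, b, none)})
    | .or i j => .inr (!b, {(i, b, none), (j, b, none)})
    | .ask _ w => .inr (true, (univ.filter fun o => clV A K w b o).image fun o => (g, b, some o))
  | (g, b, some o) => match D.gate g with
    | .ask _ w => .inr (false, (clS K w b o).image fun j => (j, clB A K w b o j, none))
    | _ => .inl (v₀, true)

private def cvRank {K : ℕ} : Gm s K → ℕ
  | (g, _, none) => 2 * g + 1
  | (g, _, some _) => 2 * g

private theorem clS_sub {K m : ℕ} (w : Fin m → Fin s) (b : Bool) (o : Option (Fin K × Fin s)) :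
    clS K w b o ⊆ univ.image w := by
  cases o with
  | none => exact empty_subset _
  | some q =>
    unfold clS
    cases b
    · simp
    · simp only [if_true]
      exact filter_subset _ _

private theorem cv_lt (D : OCircuit (V ⊕ Fin r) s) (y : Fin r → Bool) (A : Set (List Bool))
    (K : ℕ) (v₀ : V) (a : Gm s K)
    (k : Bool) (J : Finset (Gm s K)) (h : cvGate D y A K v₀ a = .inr (k, J)) :
    ∀ d ∈ J, cvRank d < cvRank a := by
  classical
  obtain ⟨g, b, o⟩ := a
  cases o with
  | none =>
    cases hg : D.gate g with
    | var v =>
      rcases v with v | j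
      · simp only [cvGate, hg] at h
        exact absurd h (by simp)
      · simp only [cvGate, hg, Sum.inr.injEq, Prod.mk.injEq] at h
        intro d hd
        rw [← h.2] at hd
        exact absurd hd (notMem_empty _)
    | not i =>
      simp only [cvGate, hg, Sum.inr.injEq, Prod.mk.injEq] at h
      have h1 : (i : ℕ) < g := D.not_lt g i hg
      intro d hd
      rw [← h.2, mem_singleton] at hd
      rw [hd]
      simp only [cvRank]
      omega
    | and i j =>
      simp only [cvGate, hg, Sum.inr.injEq, Prod.mk.injEq] at h
      obtain ⟨h1, h2⟩ := D.and_lt g i j hg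
      have h1 : (i : ℕ) < g := h1
      have h2 : (j : ℕ) < g := h2
      intro d hd
      rw [← h.2, mem_insert, mem_singleton] at hd
      rcases hd with rfl | rfl <;> simp only [cvRank] <;> omega
    | or i j =>
      simp only [cvGate, hg, Sum.inr.injEq, Prod.mk.injEq] at h
      obtain ⟨h1, h2⟩ := D.or_lt g i j hg
      have h1 : (i : ℕ) < g := h1
      have h2 : (j : ℕ) < g := h2
      intro d hd
      rw [← h.2, mem_insert, mem_singleton] at hd
      rcases hd with rfl | rfl <;> simp only [cvRank] <;> omega
    | ask m w =>
      simp only [cvGate, hg, Sum.inr.injEq, Prod.mk.injEq] at h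
      intro d hd
      rw [← h.2] at hd
      obtain ⟨o, -, rfl⟩ := mem_image.1 hd
      simp only [cvRank]
      omega
  | some o =>
    cases hg : D.gate g with
    | var v =>
      simp only [cvGate, hg] at h
      exact absurd h (by simp)
    | not i =>
      simp only [cvGate, hg] at h
      exact absurd h (by simp)
    | and i j =>
      simp only [cvGate, hg] at h
      exact absurd h (by simp)
    | or i j =>
      simp only [cvGate, hg] at h
      exact absurd h (by simp)
    | ask m w =>
      simp only [cvGate, hg, Sum.inr.injEq, Prod.mk.injEq] at h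
      intro d hd
      rw [← h.2] at hd
      obtain ⟨j, hj, rfl⟩ := mem_image.1 hd
      obtain ⟨i, -, rfl⟩ := mem_image.1 (clS_sub w b o hj)
      have h1 : (w i : ℕ) < g := D.ask_lt g m w hg i
      simp only [cvRank]
      omega

open Classical in
private noncomputable def cvVal (D : OCircuit (V ⊕ Fin r) s) (A : Set (List Bool)) (K : ℕ)
    (v₀ : V) (x : V → Bool) (val : Fin s → Bool) : Gm s K → Bool
  | (g, b, none) => val g == b
  | (g, b, some o) => match D.gate g with
    | .ask _ w => decide (∃ j ∈ clS K w b o, val j = clB A K w b o j)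
    | _ => x v₀ == true

/-- the correctness of the normal forms -/
private theorem cl_iff {A : Set (List Bool)} {K m : ℕ}
    (hA : ({u : List Bool | u ∈ A ∧ u.length = m}).ncard ≤ K)
    (w : Fin m → Fin s) (val : Fin s → Bool) (hs : 0 < s) (b : Bool) :
    ((List.ofFn fun i => val (w i)) ∈ A ↔ b = true) ↔
      ∀ o, clV A K w b o → ∃ j ∈ clS K w b o, val j = clB A K w b o j := by
  classical
  set y : Fin s → Bool := fun j => if j ∈ univ.image w then val j else false with hy
  have hyw : ∀ j ∈ univ.image w, y j = val j := fun j hj => by rw [hy]; simp only [hj, if_true]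
  have hy0 : ∀ j, j ∉ univ.image w → y j = false := fun j hj => by
    rw [hy]; simp only [hj, if_false]
  have hyA : y ∈ Fw A w ↔ (List.ofFn fun i => val (w i)) ∈ A := by
    rw [mem_Fw]
    have h1 : (fun i => y (w i)) = fun i => val (w i) := by
      funext i
      exact hyw _ (mem_image_of_mem w (mem_univ i))
    rw [h1]
    exact ⟨fun h => h.2, fun h => ⟨hy0, h⟩⟩
  have hF : ∀ u ∈ Fw A w, ∀ j, j ∉ univ.image w → u j = false := fun u hu => (mem_Fw.1 hu).1
  rw [← hyA]
  cases b
  · have h0 : (y ∈ Fw A w ↔ false = true) ↔ y ∉ Fw A w := by simp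
    rw [h0, cnf_false hF hy0]
    constructor
    · intro h o ho
      cases o with
      | none => exact absurd ho.1 (by simp)
      | some q =>
        obtain ⟨u, hu⟩ := ho.1
        obtain ⟨j, hj, hj'⟩ := h u ((mem_en hA w u).2 ⟨q.1, hu⟩)
        refine ⟨j, by simpa [clS] using hj, ?_⟩
        rw [← hyw j hj, hj']
        simp [clB, wd, hu]
    · intro h u hu
      obtain ⟨k, hk⟩ := (mem_en hA w u).1 hu
      obtain ⟨j, hj, hj'⟩ := h (some (k, ⟨0, hs⟩)) ⟨⟨u, hk⟩, by simp⟩
      have hj2 : j ∈ univ.image w := by simpa [clS] using hj
      refine ⟨j, hj2, ?_⟩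
      rw [hyw j hj2, hj']
      simp [clB, wd, hk]
  · have h0 : (y ∈ Fw A w ↔ true = true) ↔ y ∈ Fw A w := by simp
    rw [h0, cnf_true hF hy0]
    constructor
    · rintro ⟨hne, h⟩ o ho
      cases o with
      | none => exact absurd ho.2 hne.ne_empty
      | some q =>
        obtain ⟨u, hu⟩ := ho.1
        have hwd : wd A K w q.1 = u := by simp [wd, hu]
        obtain ⟨h1, h2⟩ := ho.2 rfl
        rw [hwd] at h2
        obtain ⟨j, hj, hjl, hj'⟩ := h u ((mem_en hA w u).2 ⟨q.1, hu⟩) q.2 h1 h2
        refine ⟨j, ?_, ?_⟩
        · simp only [clS, if_true, mem_filter]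
          exact ⟨hj, hjl⟩
        · rw [← hyw j hj, hj']
          simp only [clB, if_true, hwd]
    · intro h
      refine ⟨?_, fun u hu l hl hv => ?_⟩
      · by_contra hne
        rw [not_nonempty_iff_eq_empty] at hne
        obtain ⟨j, hj, -⟩ := h none ⟨rfl, hne⟩
        exact absurd hj (notMem_empty _)
      · obtain ⟨k, hk⟩ := (mem_en hA w u).1 hu
        have hwd : wd A K w k = u := by simp [wd, hk]
        obtain ⟨j, hj, hj'⟩ := h (some (k, l)) ⟨⟨u, hk⟩, fun _ => ⟨hl, by
          dsimp only
          rw [hwd]
          exact hv⟩⟩
        simp only [clS, if_true, mem_filter] at hj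
        refine ⟨j, hj.1, hj.2, ?_⟩
        rw [hyw j hj.1, hj']
        simp only [clB, if_true, hwd]

private theorem cv_eval (D : OCircuit (V ⊕ Fin r) s) (y : Fin r → Bool)
    {A : Set (List Bool)} {K : ℕ}
    (hA : ∀ g m w, D.gate g = .ask m w →
      ({u : List Bool | u ∈ A ∧ u.length = m}).ncard ≤ K) (v₀ : V)
    (x : V → Bool) (val : Fin s → Bool) (hval : D.IsEval A (Sum.elim x y) val) (a : Gm s K) :
    cvVal D A K v₀ x val a = true ↔ match cvGate D y A K v₀ a with
        | .inl l => x l.1 = l.2
        | .inr q => if q.1 = true then ∀ d ∈ q.2, cvVal D A K v₀ x val d = true else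
            ∃ d ∈ q.2, cvVal D A K v₀ x val d = true := by
  classical
  obtain ⟨g, b, o⟩ := a
  have hv := hval g
  cases o with
  | none =>
    have e0 : ∀ i c, cvVal D A K v₀ x val (i, c, none) = (val i == c) := fun i c => rfl
    cases hg : D.gate g with
    | var v =>
      rw [hg] at hv
      rcases v with v | j
      · have e1 : cvGate D y A K v₀ (g, b, none) = .inl (v, b) := by simp only [cvGate, hg]
        rw [e1, e0]
        dsimp only [Sum.elim_inl] at hv ⊢
        revert hv
        generalize val g = p
        generalize x v = q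
        cases p <;> cases q <;> cases b <;> simp
      · have e1 : cvGate D y A K v₀ (g, b, none) = .inr (y j == b, ∅) := by
          simp only [cvGate, hg]
        rw [e1, e0]
        dsimp only [Sum.elim_inr] at hv ⊢
        revert hv
        generalize val g = p
        generalize y j = q
        cases p <;> cases q <;> cases b <;> simp
    | not i =>
      rw [hg] at hv
      have e1 : cvGate D y A K v₀ (g, b, none) = .inr (true, {(i, !b, none)}) := by
        simp only [cvGate, hg]
      rw [e1, e0]
      dsimp only at hv ⊢
      simp only [if_true, mem_singleton, forall_eq, e0]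
      revert hv
      generalize val g = p
      generalize val i = q
      cases p <;> cases q <;> cases b <;> simp
    | and i j =>
      rw [hg] at hv
      have e1 : cvGate D y A K v₀ (g, b, none) = .inr (b, {(i, b, none), (j, b, none)}) := by
        simp only [cvGate, hg]
      rw [e1, e0]
      dsimp only at hv ⊢
      simp only [mem_insert, mem_singleton, forall_eq_or_imp, forall_eq, exists_eq_or_imp,
        exists_eq_left, e0]
      revert hv
      generalize val g = p
      generalize val i = q
      generalize val j = r
      cases p <;> cases q <;> cases b <;> cases r <;> simp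
    | or i j =>
      rw [hg] at hv
      have e1 : cvGate D y A K v₀ (g, b, none) = .inr (!b, {(i, b, none), (j, b, none)}) := by
        simp only [cvGate, hg]
      rw [e1, e0]
      dsimp only at hv ⊢
      simp only [mem_insert, mem_singleton, forall_eq_or_imp, forall_eq, exists_eq_or_imp,
        exists_eq_left, e0]
      revert hv
      generalize val g = p
      generalize val i = q
      generalize val j = r
      cases p <;> cases q <;> cases b <;> cases r <;> simp
    | ask m w =>
      rw [hg] at hv
      have e1 : cvGate D y A K v₀ (g, b, none) =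
          .inr (true, (univ.filter fun o => clV A K w b o).image fun o => (g, b, some o)) := by
        simp only [cvGate, hg]
      have e2 : ∀ o, cvVal D A K v₀ x val (g, b, some o) =
          decide (∃ j ∈ clS K w b o, val j = clB A K w b o j) := by
        intro o
        simp only [cvVal, hg]
      rw [e1, e0]
      dsimp only at hv ⊢
      rw [if_pos rfl]
      have h1 := cl_iff (hA g m w hg) w val g.pos b
      rw [← hv] at h1
      have h2 : ((val g == b) = true) ↔ (val g = true ↔ b = true) := by
        generalize val g = p
        cases p <;> cases b <;> simp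
      rw [h2, h1]
      constructor
      · intro h d hd
        obtain ⟨o, ho, rfl⟩ := mem_image.1 hd
        rw [e2, decide_eq_true_iff]
        exact h o (mem_filter.1 ho).2
      · intro h o ho
        have h3 := h (g, b, some o) (mem_image_of_mem _ (mem_filter.2 ⟨mem_univ _, ho⟩))
        rw [e2, decide_eq_true_iff] at h3
        exact h3
  | some o =>
    cases hg : D.gate g with
    | var v =>
      have e1 : cvGate D y A K v₀ (g, b, some o) = .inl (v₀, true) := by simp only [cvGate, hg]
      have e2 : cvVal D A K v₀ x val (g, b, some o) = (x v₀ == true) := by simp only [cvVal, hg]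
      rw [e1, e2]
      simp
    | not i =>
      have e1 : cvGate D y A K v₀ (g, b, some o) = .inl (v₀, true) := by simp only [cvGate, hg]
      have e2 : cvVal D A K v₀ x val (g, b, some o) = (x v₀ == true) := by simp only [cvVal, hg]
      rw [e1, e2]
      simp
    | and i j =>
      have e1 : cvGate D y A K v₀ (g, b, some o) = .inl (v₀, true) := by simp only [cvGate, hg]
      have e2 : cvVal D A K v₀ x val (g, b, some o) = (x v₀ == true) := by simp only [cvVal, hg]
      rw [e1, e2]
      simp
    | or i j =>
      have e1 : cvGate D y A K v₀ (g, b, some o) = .inl (v₀, true) := by simp only [cvGate, hg]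
      have e2 : cvVal D A K v₀ x val (g, b, some o) = (x v₀ == true) := by simp only [cvVal, hg]
      rw [e1, e2]
      simp
    | ask m w =>
      have e1 : cvGate D y A K v₀ (g, b, some o) =
          .inr (false, (clS K w b o).image fun j => (j, clB A K w b o j, none)) := by
        simp only [cvGate, hg]
      have e2 : cvVal D A K v₀ x val (g, b, some o) =
          decide (∃ j ∈ clS K w b o, val j = clB A K w b o j) := by
        simp only [cvVal, hg]
      rw [e1, e2]
      dsimp only
      rw [if_neg (by simp), decide_eq_true_iff]
      constructor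
      · rintro ⟨j, hj, h⟩
        refine ⟨_, mem_image_of_mem _ hj, ?_⟩
        show (val j == clB A K w b o j) = true
        rw [h]
        simp
      · rintro ⟨d, hd, h⟩
        obtain ⟨j, hj, rfl⟩ := mem_image.1 hd
        refine ⟨j, hj, ?_⟩
        have h' : (val j == clB A K w b o j) = true := h
        simpa using h'

private noncomputable def cvB (D : OCircuit (V ⊕ Fin r) s) {K : ℕ} (mx : Fin s → Bool → ℕ) : Gm s K → ℕ
  | (g, b, none) => mx g (!b)
  | (g, _, some _) => match D.gate g with
    | .ask _ w => ∑ i, max (mx (w i) true) (mx (w i) false)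
    | _ => 0

private theorem sum_pair_le {α : Type} [DecidableEq α] (f : α → ℕ) (a b : α) :
    ∑ d ∈ ({a, b} : Finset α), f d ≤ f a + f b := by
  by_cases h : a = b
  · subst h
    simp
  · rw [sum_pair h]

private theorem cv_B [DecidableEq V] (D : OCircuit (V ⊕ Fin r) s) (y : Fin r → Bool)
    {A : Set (List Bool)} {K : ℕ}
    (v₀ v : V) (hv : v ≠ v₀) (mx : Fin s → Bool → ℕ)
    (hmx : ∀ g, match D.gate g with
      | .var w => ∀ b, w = Sum.inl v → 1 ≤ mx g b
      | .not i => ∀ b, mx g b = mx i (!b)
      | .and i j => mx g true = mx i true + mx j true ∧ mx g false = max (mx i false) (mx j false)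
      | .or i j => mx g false = mx i false + mx j false ∧ mx g true = max (mx i true) (mx j true)
      | .ask _ w => ∀ b, mx g b = ∑ i, max (mx (w i) true) (mx (w i) false))
    (a : Gm s K) :
    match cvGate D y A K v₀ a with
      | .inl l => (if l.1 = v then 1 else 0) ≤ cvB D mx a
      | .inr q => if q.1 then ∀ d ∈ q.2, cvB D mx d ≤ cvB D mx a
          else ∑ d ∈ q.2, cvB D mx d ≤ cvB D mx a := by
  classical
  obtain ⟨g, b, o⟩ := a
  have h0 := hmx g
  have e0 : ∀ i c, cvB D (K := K) mx (i, c, none) = mx i (!c) := fun i c => rfl
  cases o with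
  | none =>
    cases hg : D.gate g with
    | var w =>
      rw [hg] at h0
      rcases w with w | j
      · have e1 : cvGate D y A K v₀ (g, b, none) = .inl (w, b) := by simp only [cvGate, hg]
        rw [e1, e0]
        dsimp only at h0 ⊢
        by_cases h : w = v
        · rw [if_pos h]
          exact h0 _ (congrArg Sum.inl h)
        · rw [if_neg h]
          exact Nat.zero_le _
      · have e1 : cvGate D y A K v₀ (g, b, none) = .inr (y j == b, ∅) := by
          simp only [cvGate, hg]
        rw [e1]
        dsimp only
        split_ifs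
        · intro d hd
          exact absurd hd (notMem_empty _)
        · rw [sum_empty]
          exact Nat.zero_le _
    | not i =>
      rw [hg] at h0
      have e1 : cvGate D y A K v₀ (g, b, none) = .inr (true, {(i, !b, none)}) := by
        simp only [cvGate, hg]
      rw [e1, e0]
      dsimp only at h0 ⊢
      rw [if_pos rfl]
      intro d hd
      rw [mem_singleton] at hd
      rw [hd, e0, h0]
    | and i j =>
      rw [hg] at h0
      have e1 : cvGate D y A K v₀ (g, b, none) = .inr (b, {(i, b, none), (j, b, none)}) := by
        simp only [cvGate, hg]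
      rw [e1, e0]
      dsimp only at h0 ⊢
      cases b
      · rw [if_neg (by simp)]
        refine (sum_pair_le _ _ _).trans ?_
        rw [e0, e0, Bool.not_false, h0.1]
      · rw [if_pos rfl, Bool.not_true]
        intro d hd
        rw [mem_insert, mem_singleton] at hd
        rcases hd with rfl | rfl
        · rw [e0, h0.2]
          exact le_max_left _ _
        · rw [e0, h0.2]
          exact le_max_right _ _
    | or i j =>
      rw [hg] at h0
      have e1 : cvGate D y A K v₀ (g, b, none) = .inr (!b, {(i, b, none), (j, b, none)}) := by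
        simp only [cvGate, hg]
      rw [e1, e0]
      dsimp only at h0 ⊢
      cases b
      · rw [if_pos (by simp), Bool.not_false]
        intro d hd
        rw [mem_insert, mem_singleton] at hd
        rcases hd with rfl | rfl
        · rw [e0, h0.2]
          exact le_max_left _ _
        · rw [e0, h0.2]
          exact le_max_right _ _
      · rw [if_neg (by simp)]
        refine (sum_pair_le _ _ _).trans ?_
        rw [e0, e0, Bool.not_true, h0.1]
    | ask m w =>
      rw [hg] at h0
      have e1 : cvGate D y A K v₀ (g, b, none) =
          .inr (true, (univ.filter fun o => clV A K w b o).image fun o => (g, b, some o)) := by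
        simp only [cvGate, hg]
      rw [e1, e0]
      dsimp only at h0 ⊢
      rw [if_pos rfl, h0]
      intro d hd
      obtain ⟨o, -, rfl⟩ := mem_image.1 hd
      simp only [cvB, hg]
      exact le_refl _
  | some o =>
    cases hg : D.gate g with
    | var w =>
      have e1 : cvGate D y A K v₀ (g, b, some o) = .inl (v₀, true) := by simp only [cvGate, hg]
      rw [e1]
      simp [hv.symm]
    | not i =>
      have e1 : cvGate D y A K v₀ (g, b, some o) = .inl (v₀, true) := by simp only [cvGate, hg]
      rw [e1]
      simp [hv.symm]
    | and i j =>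
      have e1 : cvGate D y A K v₀ (g, b, some o) = .inl (v₀, true) := by simp only [cvGate, hg]
      rw [e1]
      simp [hv.symm]
    | or i j =>
      have e1 : cvGate D y A K v₀ (g, b, some o) = .inl (v₀, true) := by simp only [cvGate, hg]
      rw [e1]
      simp [hv.symm]
    | ask m w =>
      have e1 : cvGate D y A K v₀ (g, b, some o) =
          .inr (false, (clS K w b o).image fun j => (j, clB A K w b o j, none)) := by
        simp only [cvGate, hg]
      have e2 : cvB D (K := K) mx (g, b, some o) =
          ∑ i, max (mx (w i) true) (mx (w i) false) := by simp only [cvB, hg]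
      rw [e1, e2]
      dsimp only
      rw [if_neg (by simp), sum_image (by
        intro j _ j' _ h
        exact congrArg Prod.fst h)]
      calc ∑ j ∈ clS K w b o, cvB D (K := K) mx (j, clB A K w b o j, none)
          ≤ ∑ j ∈ clS K w b o, max (mx j true) (mx j false) := by
            refine sum_le_sum fun j _ => ?_
            rw [e0]
            cases clB A K w b o j
            · exact le_max_left _ _
            · exact le_max_right _ _
        _ ≤ ∑ j ∈ univ.image w, max (mx j true) (mx j false) :=
            sum_le_sum_of_subset (clS_sub w b o)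
        _ ≤ ∑ i, max (mx (w i) true) (mx (w i) false) := by
            rw [Finset.sum_comp (fun j => max (mx j true) (mx j false)) w]
            refine sum_le_sum fun j hj => ?_
            obtain ⟨i, -, hi⟩ := mem_image.1 hj
            have h1 : 0 < (univ.filter fun i => w i = j).card :=
              card_pos.2 ⟨i, mem_filter.2 ⟨mem_univ _, hi⟩⟩
            rw [smul_eq_mul]
            exact Nat.le_mul_of_pos_left _ h1

/-- **Circuits with a sparse oracle as circuits without oracle which do not read more.** -/
theorem convB [DecidableEq V] (D : OCircuit (V ⊕ Fin r) s) {A : Set (List Bool)} {K : ℕ}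
    (hA : ∀ g m w, D.gate g = .ask m w →
      ({u : List Bool | u ∈ A ∧ u.length = m}).ncard ≤ K) (y : Fin r → Bool) (v₀ : V)
    (b : Bool) :
    ∃ (t : ℕ) (D' : Circuit V (4 + t * (t + 1))), t = s * (2 * (K * s + 2)) ∧
      (∀ x, D'.Accepts x ↔ (D.Accepts A (Sum.elim x y) ↔ b = true)) ∧
      ∀ v ≠ v₀, ∀ k : ℕ, (∀ L, D.Cert D.out (!b) L →
          @List.count (V ⊕ Fin r) instBEqOfDecidableEq (Sum.inl v) L ≤ k) →
        ∀ L, Tree D' D'.out L → L.count v ≤ k := by
  obtain ⟨D', h1, h2⟩ := fan (cvGate D y A K v₀) cvRank (cv_lt D y A K v₀) (D.out, b, none) v₀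
  refine ⟨Fintype.card (Gm s K), D', ?_, fun x => ?_, fun v hv k hr L hL => ?_⟩
  · simp [Gm]
  · have key : ∀ val, D.IsEval A (Sum.elim x y) val → (D'.Accepts x ↔ val D.out = b) := by
      intro val hval
      rw [h1 x (cvVal D A K v₀ x val) fun a => by
        have h := cv_eval D y hA v₀ x val hval a
        cases hg : cvGate D y A K v₀ a with
        | inl l => rw [hg] at h; exact h
        | inr q => rw [hg] at h; exact h]
      show (val D.out == b) = true ↔ _
      simp
    obtain ⟨val₀, hval₀⟩ := D.exists_eval A (Sum.elim x y)
    cases b with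
    | true =>
      constructor
      · intro h
        exact ⟨fun _ => rfl, fun _ => ⟨val₀, hval₀, (key val₀ hval₀).1 h⟩⟩
      · intro h
        obtain ⟨val, hval, h'⟩ := h.2 rfl
        exact (key val hval).2 h'
    | false =>
      constructor
      · intro h
        refine ⟨?_, fun h' => absurd h' (by simp)⟩
        rintro ⟨val, hval, h'⟩
        rw [(key val hval).1 h] at h'
        exact h'
      · intro h
        refine (key val₀ hval₀).2 ?_
        by_contra hc
        exact absurd (h.1 ⟨val₀, hval₀, by simpa using hc⟩) (by simp)
  · obtain ⟨mx, hm1, hm2⟩ := exists_mx D (Sum.inl v)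
    have hm3 : ∀ g, match D.gate g with
      | .var w => ∀ b, w = Sum.inl v → 1 ≤ mx g b
      | .not i => ∀ b, mx g b = mx i (!b)
      | .and i j => mx g true = mx i true + mx j true ∧ mx g false = max (mx i false) (mx j false)
      | .or i j => mx g false = mx i false + mx j false ∧ mx g true = max (mx i true) (mx j true)
      | .ask _ w => ∀ b, mx g b = ∑ i, max (mx (w i) true) (mx (w i) false) := by
      intro g
      have h := hm2 g
      cases hg : D.gate g with
      | var w =>
        rw [hg] at h
        intro b hw
        rw [h b, if_pos hw]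
      | not i => rw [hg] at h; exact h
      | and i j => rw [hg] at h; exact h
      | or i j => rw [hg] at h; exact h
      | ask m w => rw [hg] at h; exact h
    have h3 := h2 v hv (cvB D mx) (fun a => by
      have h := cv_B (A := A) D y v₀ v hv mx hm3 a
      cases hg : cvGate D y A K v₀ a with
      | inl l => rw [hg] at h; exact h
      | inr q => rw [hg] at h; exact h) L hL
    obtain ⟨L', hL', hc⟩ := hm1 D.out (!b)
    refine h3.trans ?_
    show mx D.out (!b) ≤ k
    rw [← hc]
    exact hr L' hL'

end Pool.Agent.SR
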