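import Mathlib
import Pool.Agent.Lib.MP_0a1b52_lc_FP.Defs
import Pool.Agent.Lib.MP_69a69c_lc_SR.Defs

/-!
# Circuits with a sparse oracle which read given variables few times: the bound
-/

set_option autoImplicit false

namespace Pool.Agent.SR

open Finset Pool.Agent.FP

/-- the number of wires which go into a gate -/
def OGate.fanIn {V : Type} {s : ℕ} : OGate V s → ℕ
  | .var _ => 0
  | .not _ => 1
  | .and _ _ => 2
  | .or _ _ => 2
  | .ask m _ => m

/-- the size of a circuit: the number of its gates and wires -/
def OCircuit.size {V : Type} {s : ℕ} (D : OCircuit V s) : ℕ := ∑ g, (1 + (D.gate g).fanIn)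

open Classical in
/-- **The bound.**  Let `E` be a set of the variables of the graphs on `n` vertices.  There are
graphs `Q 0, …, Q (N - 1)` on `n` vertices (`N > 0`), all with (`b = 1`) or all without (`b = 0`) a
clique of more than `√n` vertices, such that for every set `A` of words and every finite set `Ω` of
random choices: let `D` be a circuit with an oracle for `A` on the input `(x, ω)`, where `x` is a
graph and `ω` a random choice, which has as its inputs the variables of `x` and any functions
`g 0, …, g (t - 1)` of `ω` and of the variables of `x` which are not in `E`.  Assume that the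
oracle gates of `D` (of any fan-in) ask for words of lengths for which `A` has at most `K ≥ 1`
words, that the value `b` of `D` is never wrong (if `D` has the value `b` on `(x, ω)`, then `x`
has a clique of more than `√n` vertices iff `b = 1`), and that every variable in `E` is at most `r`
times at the leaves of each certificate tree for the value `b` of `D`.  Then `D` has the value `b`
on at most a fraction `K * D.size / S` of the pairs `(Q i, ω)`. -/
def Hard (b : Bool) (r : ℕ) {n : ℕ} (E : Finset (EdgeVar n)) (S : ℝ) : Prop :=
  ∃ (N : ℕ) (Q : Fin N → EdgeVar n → Bool), 0 < N ∧ (∀ i, Clq (Q i) ↔ b = true) ∧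
    ∀ (A : Set (List Bool)) (K : ℝ) (Ω : Type) [Fintype Ω] (t s : ℕ)
      (g : Fin t → (EdgeVar n → Bool) → Ω → Bool) (D : OCircuit (EdgeVar n ⊕ Fin t) s),
      (∀ j x y ω, (∀ f, f ∉ E → x f = y f) → g j x ω = g j y ω) →
      1 ≤ K → D.AsksFew A K →
      (∀ (x : EdgeVar n → Bool) (ω : Ω),
        D.HasValue A (Sum.elim x fun j => g j x ω) b → (Clq x ↔ b = true)) →
      (∀ e ∈ E, ∀ L, D.Cert D.out b L → L.count (Sum.inl e) ≤ r) →
      ((univ.filter fun p : Fin N × Ω =>
        D.HasValue A (Sum.elim (Q p.1) fun j => g j (Q p.1) p.2) b).card : ℝ) ≤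
          N * Fintype.card Ω * (K * D.size / S)

end Pool.Agent.SR
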