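import Mathlib
import Pool.Agent.Lib.MP_0a1b52_lc_RT.Defs
import Pool.Agent.Lib.MP_0a1b52_lc_FP.Pass
import Pool.Agent.Lib.MP_69a69c_lc_SR.Conv

/-!
# Circuits with a sparse oracle which read many variables few times
-/

set_option autoImplicit false

namespace Pool.Agent.SR

open Finset Pool.Agent.FP Pool.Agent.RT

/-- the size of the circuit without oracle -/
private theorem size_le {s K : ℕ} {y z : ℝ} (hs : (s : ℝ) ≤ (2 : ℝ) ^ y)
    (hK : (K : ℝ) ≤ (2 : ℝ) ^ y) (hy : 1 ≤ y) (hz : 10 * y ≤ z) :
    ((4 + s * (2 * (K * s + 2)) * (s * (2 * (K * s + 2)) + 1) : ℕ) : ℝ) ≤ (2 : ℝ) ^ z := by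
  set X : ℝ := (2 : ℝ) ^ y with hX
  have hX2 : (2 : ℝ) ≤ X := by
    calc (2 : ℝ) = (2 : ℝ) ^ (1 : ℝ) := (Real.rpow_one 2).symm
      _ ≤ X := Real.rpow_le_rpow_of_exponent_le (by norm_num) hy
  have hX0 : 0 ≤ X := by linarith
  have hs0 : (0 : ℝ) ≤ s := Nat.cast_nonneg _
  have hK0 : (0 : ℝ) ≤ K := Nat.cast_nonneg _
  set t : ℝ := s * (2 * (K * s + 2)) with ht
  have ht0 : 0 ≤ t := by positivity
  have ht1 : t ≤ 3 * X ^ 3 := by
    have h1 : (K : ℝ) * s ≤ X * X := mul_le_mul hK hs hs0 hX0
    have h2 : (2 : ℝ) * (K * s + 2) ≤ 3 * X ^ 2 := by nlinarith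
    calc t ≤ X * (3 * X ^ 2) := mul_le_mul hs h2 (by positivity) hX0
      _ = 3 * X ^ 3 := by ring
  have h3 : (4 : ℝ) + t * (t + 1) ≤ X ^ 10 := by
    have hX3 : (8 : ℝ) ≤ X ^ 3 := by
      calc (8 : ℝ) = 2 ^ 3 := by norm_num
        _ ≤ X ^ 3 := pow_le_pow_left₀ (by norm_num) hX2 3
    have hX4 : (16 : ℝ) ≤ X ^ 4 := by
      calc (16 : ℝ) = 2 ^ 4 := by norm_num
        _ ≤ X ^ 4 := pow_le_pow_left₀ (by norm_num) hX2 4
    have h4 : t * (t + 1) ≤ 3 * X ^ 3 * (3 * X ^ 3 + 1) :=
      mul_le_mul ht1 (by linarith) (by linarith) (by positivity)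
    have h5 : (4 : ℝ) + 3 * X ^ 3 * (3 * X ^ 3 + 1) ≤ 16 * (X ^ 3) ^ 2 := by nlinarith
    calc (4 : ℝ) + t * (t + 1) ≤ 16 * (X ^ 3) ^ 2 := by linarith
      _ ≤ X ^ 4 * (X ^ 3) ^ 2 := mul_le_mul_of_nonneg_right hX4 (by positivity)
      _ = X ^ 10 := by ring
  have h6 : X ^ 10 ≤ (2 : ℝ) ^ z := by
    rw [hX, ← Real.rpow_natCast, ← Real.rpow_mul (by norm_num)]
    refine Real.rpow_le_rpow_of_exponent_le (by norm_num) ?_
    push_cast
    linarith
  push_cast
  rw [← ht]
  linarith

theorem count_inl {n r : ℕ} (e : EdgeVar n) (L : List (EdgeVar n ⊕ Fin r)) :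
    @List.count (EdgeVar n ⊕ Fin r) instBEqOfDecidableEq (Sum.inl e) L =
      L.count (Sum.inl e) := by
  unfold List.count
  refine List.countP_congr fun v _ => ?_
  rcases v with v | v
  · show (decide (Sum.inl v = (Sum.inl e : EdgeVar n ⊕ Fin r)) = true) ↔ ((v == e) = true)
    simp [Subtype.ext_iff]
  · show (decide (Sum.inr v = (Sum.inl e : EdgeVar n ⊕ Fin r)) = true) ↔ (false = true)
    simp

open Classical in
/-- Circuits without oracle which are right when they reject, i.e. when they say `b`, and which read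
each variable in `E` at most `r` times. -/
def Base (b : Bool) {n : ℕ} (E : Finset (EdgeVar n)) (r : ℕ) (z : ℝ) : Prop :=
  ∃ (N : ℕ) (Q : Fin N → EdgeVar n → Bool), 0 < N ∧ (∀ i, Clq (Q i) ↔ b = true) ∧
    ∀ (s : ℕ) (D : Circuit (EdgeVar n) s), (∀ x, ¬ D.Accepts x → (Clq x ↔ b = true)) →
      (s : ℝ) ≤ (2 : ℝ) ^ z →
      (∀ e ∈ E, ∀ L, Tree D D.out L → L.count e ≤ r) →
      ((univ.filter fun i => ¬ D.Accepts (Q i)).card : ℝ) ≤ N * (2 : ℝ) ^ (-z)

open Classical in
/-- The same for circuits with a sparse oracle and random bits. -/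
def Orac (b : Bool) {n : ℕ} (E : Finset (EdgeVar n)) (r : ℕ) (y : ℝ) : Prop :=
  ∃ (N : ℕ) (Q : Fin N → EdgeVar n → Bool), 0 < N ∧ (∀ i, Clq (Q i) ↔ b = true) ∧
    ∀ (A : Set (List Bool)) (s ρ : ℕ) (D : OCircuit (EdgeVar n ⊕ Fin ρ) s),
      (s : ℝ) ≤ (2 : ℝ) ^ y → D.AsksFew A ((2 : ℝ) ^ y) →
      (∀ (x : EdgeVar n → Bool) (w : Fin ρ → Bool),
        D.HasValue A (Sum.elim x w) b → (Clq x ↔ b = true)) →
      (∀ e ∈ E, ∀ L, D.Cert D.out b L → L.count (Sum.inl e) ≤ r) →
      ((univ.filter fun p : Fin N × (Fin ρ → Bool) =>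
        D.HasValue A (Sum.elim (Q p.1) p.2) b).card : ℝ) ≤ N * 2 ^ ρ * (2 : ℝ) ^ (-y)

/-- from circuits without oracle to circuits with a sparse oracle -/
theorem transfer {b : Bool} {n : ℕ} {E : Finset (EdgeVar n)} {v₀ : EdgeVar n} {r : ℕ} {y z : ℝ}
    (hy : 1 ≤ y) (hyz : 10 * y ≤ z) (hbase : Base b (E.erase v₀) r z) : Orac b E r y := by
  classical
  obtain ⟨N, Q, hN, hQ, hmain⟩ := hbase
  refine ⟨N, Q, hN, hQ, fun A s ρ D hs hA hD hcnt => ?_⟩
  have hiff : ∀ z, D.HasValue A z b ↔ ¬ (D.Accepts A z ↔ (!b) = true) := by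
    intro z
    cases b with
    | false => rw [hasValue_false]; simp
    | true => rw [hasValue_true]; simp
  -- a fixed assignment of the random bits
  have key : ∀ w : Fin ρ → Bool,
      ((univ.filter fun i => D.HasValue A (Sum.elim (Q i) w) b).card : ℝ) ≤
        N * (2 : ℝ) ^ (-y) := by
    intro w
    obtain ⟨t, D', ht, hacc, hread⟩ := convB D (A := A) (K := ⌊(2 : ℝ) ^ y⌋₊)
      (fun g k w hg => Nat.le_floor (hA g k w hg)) w v₀ (!b)
    have hsize : ((4 + t * (t + 1) : ℕ) : ℝ) ≤ (2 : ℝ) ^ z := by
      rw [ht]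
      exact size_le hs (Nat.floor_le (by positivity)) hy hyz
    have h5 := hmain _ D' (fun x hx => hD x w ((hiff _).2 fun h => hx ((hacc x).2 h))) hsize (by
      intro e he L hL
      obtain ⟨hne, heE⟩ := mem_erase.1 he
      have h6 := hread e hne r (fun L' hL' => by
        rw [count_inl]
        rw [Bool.not_not] at hL'
        exact hcnt e heE L' hL') L hL
      refine (le_of_eq ?_).trans h6
      congr 1
      exact lawful_beq_subsingleton _ _)
    have h7 : (univ.filter fun i => D.HasValue A (Sum.elim (Q i) w) b) =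
        univ.filter fun i => ¬ D'.Accepts (Q i) := by
      ext i
      rw [mem_filter, mem_filter, hiff, hacc]
    rw [h7]
    refine h5.trans (mul_le_mul_of_nonneg_left ?_ (Nat.cast_nonneg _))
    refine Real.rpow_le_rpow_of_exponent_le (by norm_num) ?_
    linarith
  have h3 : ((univ.filter fun p : Fin N × (Fin ρ → Bool) =>
      D.HasValue A (Sum.elim (Q p.1) p.2) b).card : ℝ) =
      ∑ w : Fin ρ → Bool,
        ((univ.filter fun i => D.HasValue A (Sum.elim (Q i) w) b).card : ℝ) := by
    rw [card_filter]
    push_cast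
    rw [Fintype.sum_prod_type_right]
    refine sum_congr rfl fun w _ => ?_
    rw [card_filter]
    push_cast
    rfl
  rw [h3]
  refine (sum_le_sum fun w _ => key w).trans (le_of_eq ?_)
  rw [sum_const, card_univ, Fintype.card_fun, Fintype.card_bool, Fintype.card_fin, nsmul_eq_mul]
  push_cast
  ring

/-! ## A dense oracle -/

/-- the word of a graph -/
private noncomputable def code {n : ℕ} (x : EdgeVar n → Bool) : List Bool :=
  List.ofFn fun j => x ((Fintype.equivFin (EdgeVar n)).symm j)

private theorem code_length {n : ℕ} (x : EdgeVar n → Bool) :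
    (code x).length = Fintype.card (EdgeVar n) := List.length_ofFn

private theorem code_inj {n : ℕ} {x y : EdgeVar n → Bool} (h : code x = code y) : x = y := by
  have h1 := List.ofFn_injective h
  funext e
  have h2 := congrFun h1 (Fintype.equivFin (EdgeVar n) e)
  simpa using h2

private theorem clq_two {n : ℕ} {x : EdgeVar n → Bool} (h : Clq x) : 2 ≤ n := by
  obtain ⟨Q, -, hQ⟩ := h
  by_contra hn
  have h1 : Q.card ≤ n := by
    have := card_le_univ Q
    rwa [Fintype.card_fin] at this
  have h2 : (n : ℝ) ≤ Real.sqrt n := by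
    have h3 : n = 0 ∨ n = 1 := by omega
    rcases h3 with rfl | rfl <;> simp
  have h3 : (Q.card : ℝ) ≤ n := by exact_mod_cast h1
  linarith

private theorem card_inj {n m : ℕ} (hn : 2 ≤ n)
    (h : Fintype.card (EdgeVar n) = Fintype.card (EdgeVar m)) : n = m := by
  have h1 := Pass_card n
  have h2 := Pass_card m
  rw [h] at h1
  have h3 : n * n + m = m * m + n := by omega
  rcases lt_trichotomy n m with h4 | h4 | h4
  · exfalso
    obtain ⟨k, rfl⟩ := Nat.exists_eq_add_of_lt h4
    nlinarith
  · exact h4
  · exfalso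
    obtain ⟨k, rfl⟩ := Nat.exists_eq_add_of_lt h4
    nlinarith

/-- the circuit with one oracle gate -/
private noncomputable def one (n : ℕ) : OCircuit (EdgeVar n) (Fintype.card (EdgeVar n) + 1) where
  gate := Fin.lastCases (.ask (Fintype.card (EdgeVar n)) Fin.castSucc)
    fun j => .var ((Fintype.equivFin (EdgeVar n)).symm j)
  not_lt := by
    intro g i
    refine Fin.lastCases ?_ (fun j => ?_) g
    · rw [Fin.lastCases_last]
      intro h
      exact absurd h (by simp)
    · rw [Fin.lastCases_castSucc]
      intro h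
      exact absurd h (by simp)
  and_lt := by
    intro g i k
    refine Fin.lastCases ?_ (fun j => ?_) g
    · rw [Fin.lastCases_last]
      intro h
      exact absurd h (by simp)
    · rw [Fin.lastCases_castSucc]
      intro h
      exact absurd h (by simp)
  or_lt := by
    intro g i k
    refine Fin.lastCases ?_ (fun j => ?_) g
    · rw [Fin.lastCases_last]
      intro h
      exact absurd h (by simp)
    · rw [Fin.lastCases_castSucc]
      intro h
      exact absurd h (by simp)
  ask_lt := by
    intro g m w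
    refine Fin.lastCases ?_ (fun j => ?_) g
    · rw [Fin.lastCases_last]
      intro h j
      obtain ⟨rfl, h2⟩ := OGate.ask.inj h
      rw [← eq_of_heq h2]
      exact Fin.castSucc_lt_last j
    · rw [Fin.lastCases_castSucc]
      intro h
      exact absurd h (by simp)
  out := Fin.last _

private theorem one_last (n : ℕ) : (one n).gate (Fin.last _) =
    .ask (Fintype.card (EdgeVar n)) Fin.castSucc := by
  simp [one]

private theorem one_castSucc (n : ℕ) (j : Fin (Fintype.card (EdgeVar n))) :
    (one n).gate j.castSucc = .var ((Fintype.equivFin (EdgeVar n)).symm j) := by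
  simp [one]

theorem dense : ∃ A : Set (List Bool), ∀ n : ℕ,
    ∃ D : OCircuit (EdgeVar n) (Fintype.card (EdgeVar n) + 1),
      (∀ x, D.HasValue A x true ↔ Clq x) ∧ ∀ b L, D.Cert D.out b L → ∀ e, L.count e = 1 := by
  classical
  refine ⟨{u | ∃ (n : ℕ) (x : EdgeVar n → Bool), Clq x ∧ u = code x}, fun n =>
    ⟨one n, fun x => ?_, fun b L hL e => ?_⟩⟩
  · have hmem : code x ∈ {u | ∃ (n : ℕ) (x : EdgeVar n → Bool), Clq x ∧ u = code x} ↔ Clq x := by
      constructor
      · rintro ⟨m, y, hy, h⟩
        have h1 := clq_two hy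
        have h2 : Fintype.card (EdgeVar m) = Fintype.card (EdgeVar n) := by
          rw [← code_length x, ← code_length y, h]
        have h3 := card_inj h1 h2
        subst h3
        rw [code_inj h]
        exact hy
      · intro h
        exact ⟨n, x, h, rfl⟩
    constructor
    · rintro ⟨val, hval, hout⟩
      have h1 := (hval (Fin.last _)).1 hout
      rw [one_last] at h1
      dsimp only at h1
      have h2 : (fun j => val (Fin.castSucc j)) =
          fun j => x ((Fintype.equivFin (EdgeVar n)).symm j) := by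
        funext j
        have h3 := hval j.castSucc
        rw [one_castSucc] at h3
        dsimp only at h3
        rw [Bool.eq_iff_iff]
        exact h3
      rw [h2] at h1
      exact hmem.1 h1
    · intro h
      refine ⟨Fin.lastCases true fun j => x ((Fintype.equivFin (EdgeVar n)).symm j),
        fun g => ?_, ?_⟩
      · refine Fin.lastCases ?_ (fun j => ?_) g
        · rw [one_last]
          simp only [Fin.lastCases_last, Fin.lastCases_castSucc, true_iff]
          exact hmem.2 h
        · rw [one_castSucc]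
          simp only [Fin.lastCases_castSucc]
      · show Fin.lastCases (motive := fun _ => Bool) true _ (Fin.last _) = true
        rw [Fin.lastCases_last]
  · have hvar : ∀ (j : Fin (Fintype.card (EdgeVar n))) b L, (one n).Cert j.castSucc b L →
        L = [(Fintype.equivFin (EdgeVar n)).symm j] := by
      intro j b L h
      have hg := one_castSucc n j
      cases h with
      | var g v b h => rw [hg] at h; rw [OGate.var.inj h]
      | not g i b L h _ => rw [hg] at h; exact absurd h (by simp)
      | andLeft g i j L h _ => rw [hg] at h; exact absurd h (by simp)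
      | andRight g i j L h _ => rw [hg] at h; exact absurd h (by simp)
      | andBoth g i j L L' h _ _ => rw [hg] at h; exact absurd h (by simp)
      | orLeft g i j L h _ => rw [hg] at h; exact absurd h (by simp)
      | orRight g i j L h _ => rw [hg] at h; exact absurd h (by simp)
      | orBoth g i j L L' h _ _ => rw [hg] at h; exact absurd h (by simp)
      | ask g m w b c L h _ => rw [hg] at h; exact absurd h (by simp)
    have hg := one_last n
    have hL' : (one n).Cert (Fin.last _) b L := hL
    cases hL' with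
    | var g v b h => rw [hg] at h; exact absurd h (by simp)
    | not g i b L h _ => rw [hg] at h; exact absurd h (by simp)
    | andLeft g i j L h _ => rw [hg] at h; exact absurd h (by simp)
    | andRight g i j L h _ => rw [hg] at h; exact absurd h (by simp)
    | andBoth g i j L L' h _ _ => rw [hg] at h; exact absurd h (by simp)
    | orLeft g i j L h _ => rw [hg] at h; exact absurd h (by simp)
    | orRight g i j L h _ => rw [hg] at h; exact absurd h (by simp)
    | orBoth g i j L L' h _ _ => rw [hg] at h; exact absurd h (by simp)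
    | ask g m w b c L h hC =>
      rw [hg] at h
      obtain ⟨rfl, h2⟩ := OGate.ask.inj h
      have h3 := eq_of_heq h2
      subst h3
      have h4 : L = fun j => [(Fintype.equivFin (EdgeVar n)).symm j] := by
        funext j
        exact hvar j _ _ (hC j)
      rw [h4, List.count_flatten, List.map_ofFn, List.sum_ofFn]
      have h5 : ∀ j, (List.count e ∘ fun j => [(Fintype.equivFin (EdgeVar n)).symm j]) j =
          if j = Fintype.equivFin (EdgeVar n) e then 1 else 0 := by
        intro j
        simp only [Function.comp, List.count_singleton]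
        by_cases hj : j = Fintype.equivFin (EdgeVar n) e
        · rw [hj]
          simp
        · rw [if_neg hj]
          have h6 : (Fintype.equivFin (EdgeVar n)).symm j ≠ e := by
            intro h6
            exact hj (by rw [← h6]; simp)
          rw [if_neg]
          rw [beq_iff_eq]
          exact h6
      rw [sum_congr rfl fun j _ => h5 j, sum_ite_eq']
      simp

end Pool.Agent.SR
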