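import Mathlib
import Pool.Agent.Lib.MP_0a1b52_lc_EX.Exact
import Pool.Agent.Lib.MP_69a69c_lc_SR.Main

/-!
# Circuits with a sparse oracle which read the edges of a star forest once
-/

set_option autoImplicit false

namespace Pool.Agent.SR

open Finset Pool.Agent.FP Pool.Agent.RT

private theorem size_o {s K : ℕ} (hs : 1 ≤ s) (hK : 1 ≤ K) :
    4 + s * (2 * (K * s + 2)) * (s * (2 * (K * s + 2)) + 1) ≤ 46 * (K ^ 2 * s ^ 4) := by
  have h1 : s * (2 * (K * s + 2)) ≤ 6 * (K * s ^ 2) := by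
    have h2 : 2 * (K * s + 2) ≤ 6 * (K * s) := by
      have : 1 ≤ K * s := Nat.mul_pos hK hs
      omega
    calc s * (2 * (K * s + 2)) ≤ s * (6 * (K * s)) := Nat.mul_le_mul_left _ h2
      _ = 6 * (K * s ^ 2) := by ring
  have h3 : 1 ≤ K * s ^ 2 := Nat.mul_pos hK (pow_pos hs 2)
  set w := K * s ^ 2 with hw
  have h4 : K ^ 2 * s ^ 4 = w ^ 2 := by rw [hw]; ring
  rw [h4]
  calc 4 + s * (2 * (K * s + 2)) * (s * (2 * (K * s + 2)) + 1) ≤ 4 + 6 * w * (6 * w + 1) := by
        gcongr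
    _ ≤ 46 * w ^ 2 := by nlinarith

private theorem free_var {m n : ℕ} (hm : 2 ≤ m) (hn : m ^ 7 ≤ n) (e : Fin m → EdgeVar n) :
    ∃ v₀ : EdgeVar n, ∀ i, e i ≠ v₀ := by
  classical
  have hn2 : m + 2 ≤ n := by
    have h1 : 2 ^ 6 ≤ m ^ 6 := Nat.pow_le_pow_left hm 6
    have h2 : m ^ 7 = m ^ 6 * m := by ring
    nlinarith
  by_contra hc
  push Not at hc
  let φ : Fin (n - 1) → EdgeVar n := fun j =>
    ⟨(⟨0, by omega⟩, ⟨j.1 + 1, by omega⟩), by
      show (0 : ℕ) < j.1 + 1
      omega⟩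
  have hφ : Function.Injective φ := by
    intro i j h
    have h1 := congrArg (fun x => x.1.2.val) h
    simp only [φ] at h1
    exact Fin.ext (by omega)
  have h1 : n - 1 ≤ Fintype.card (EdgeVar n) := by
    simpa using Fintype.card_le_of_injective φ hφ
  have h2 : Fintype.card (EdgeVar n) ≤ m := by
    simpa using Fintype.card_le_of_surjective e fun v => hc v
  omega

open Classical in
/-- **Circuits with a sparse oracle, random bits, reading the edges of a star forest once.** -/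
theorem exactO : ∃ m₀ : ℕ, ∀ m ≥ m₀, ∀ n ≥ m ^ 7, ∀ (u z : Fin m → Fin n),
    Function.Injective u → (∀ i j, z i ≠ u j) → ∀ e : Fin m → EdgeVar n,
    (∀ i, (e i).1 = (z i, u i) ∨ (e i).1 = (u i, z i)) → ∀ b : Bool,
      ∃ (N : ℕ) (Q : Fin N → EdgeVar n → Bool), 0 < N ∧ (∀ i, Clq (Q i) ↔ b = true) ∧
        ∀ (A : Set (List Bool)) (s ρ K : ℕ) (D : OCircuit (EdgeVar n ⊕ Fin ρ) s), 1 ≤ K →
          D.AsksFew A K →
          (∀ (x : EdgeVar n → Bool) (w : Fin ρ → Bool),
            D.HasValue A (Sum.elim x w) b → (Clq x ↔ b = true)) →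
          (∀ i L, D.Cert D.out b L → L.count (Sum.inl (e i)) ≤ 1) →
          ((univ.filter fun p : Fin N × (Fin ρ → Bool) =>
            D.HasValue A (Sum.elim (Q p.1) p.2) b).card : ℝ) ≤
            N * 2 ^ ρ * (K ^ 2 * s ^ 4 * m ^ 13 / 2 ^ m) := by
  obtain ⟨m₀, h⟩ := Pool.Agent.EX.exact1
  refine ⟨max m₀ 46, fun m hm n hn u z hu hz e he b => ?_⟩
  have hm1 : m₀ ≤ m := (le_max_left _ _).trans hm
  have hm2 : 46 ≤ m := (le_max_right _ _).trans hm
  obtain ⟨v₀, hv₀⟩ := free_var (by omega) hn e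
  obtain ⟨N, Q, hN, hQ, hmain⟩ := h m hm1 n hn u z hu hz e he b
  refine ⟨N, Q, hN, hQ, fun A s ρ K D hK hA hD hcnt => ?_⟩
  have hs1 : 1 ≤ s := by
    have := D.out.2
    omega
  have hiff : ∀ z, D.HasValue A z b ↔ ¬ (D.Accepts A z ↔ (!b) = true) := by
    intro z
    cases b with
    | false => rw [hasValue_false]; simp
    | true => rw [hasValue_true]; simp
  have hC : (0 : ℝ) ≤ N * (K ^ 2 * s ^ 4 * m ^ 13 / 2 ^ m) := by positivity
  have key : ∀ w : Fin ρ → Bool,
      ((univ.filter fun i => D.HasValue A (Sum.elim (Q i) w) b).card : ℝ) ≤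
        N * (K ^ 2 * s ^ 4 * m ^ 13 / 2 ^ m) := by
    intro w
    obtain ⟨t, D', ht, hacc, hread⟩ := convB D (A := A) (K := K)
      (fun g k w hg => by exact_mod_cast hA g k w hg) w v₀ (!b)
    have h5 := hmain _ D' (fun x hx => hD x w ((hiff _).2 fun h => hx ((hacc x).2 h))) (by
      intro i L hL
      have h6 := hread (e i) (hv₀ i) 1 (fun L' hL' => by
        rw [count_inl]
        rw [Bool.not_not] at hL'
        exact hcnt i L' hL') L hL
      refine (le_of_eq ?_).trans h6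
      congr 1
      exact lawful_beq_subsingleton _ _)
    have h7 : (univ.filter fun i => D.HasValue A (Sum.elim (Q i) w) b) =
        univ.filter fun i => ¬ D'.Accepts (Q i) := by
      ext i
      rw [mem_filter, mem_filter, hiff, hacc]
    rw [h7]
    refine h5.trans (mul_le_mul_of_nonneg_left ?_ (Nat.cast_nonneg _))
    refine div_le_div_of_nonneg_right ?_ (by positivity)
    have h8 : (4 + t * (t + 1)) * m ^ 12 ≤ K ^ 2 * s ^ 4 * m ^ 13 := by
      calc (4 + t * (t + 1)) * m ^ 12 ≤ 46 * (K ^ 2 * s ^ 4) * m ^ 12 := by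
            rw [ht]
            exact Nat.mul_le_mul_right _ (size_o hs1 hK)
        _ ≤ m * (K ^ 2 * s ^ 4) * m ^ 12 := by gcongr
        _ = K ^ 2 * s ^ 4 * m ^ 13 := by ring
    exact_mod_cast h8
  have h3 : ((univ.filter fun p : Fin N × (Fin ρ → Bool) =>
      D.HasValue A (Sum.elim (Q p.1) p.2) b).card : ℝ) =
      ∑ w : Fin ρ → Bool,
        ((univ.filter fun i => D.HasValue A (Sum.elim (Q i) w) b).card : ℝ) := by
    rw [card_filter]
    push_cast
    rw [Fintype.sum_prod_type_right]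
    refine sum_congr rfl fun w _ => ?_
    rw [card_filter]
    push_cast
    rfl
  rw [h3]
  refine (sum_le_sum fun w _ => key w).trans (le_of_eq ?_)
  rw [sum_const, card_univ, Fintype.card_fun, Fintype.card_bool, Fintype.card_fin, nsmul_eq_mul]
  push_cast
  ring

end Pool.Agent.SR
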