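import Mathlib
import Pool.Agent.Lib.MP_0a1b52_lc_LS.MainS
import Pool.Agent.Lib.MP_0a1b52_lc_LS.MainT
import Pool.Agent.Lib.MP_69a69c_lc_SR.Main

/-!
# Circuits with a sparse oracle: the lower bounds
-/

set_option autoImplicit false

namespace Pool.Agent.SR

open Finset Pool.Agent.FP Pool.Agent.RT

private theorem base_false (r m n : ℕ) (hr : 1 ≤ r) (hm : (2 : ℝ) ^ (256 * Real.sqrt r) ≤ m)
    (hn : m ≤ n) (E : Finset (EdgeVar n)) (hE : m ≤ E.card) :
    Base false E r ((m / (2 : ℝ) ^ (256 * Real.sqrt r)) ^ (1 : ℝ)) := by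
  obtain ⟨N, Q, hN, hQ, h1⟩ := LS.mainTS r m n hr hm hn E hE
  rw [Real.rpow_one]
  refine ⟨N, Q, hN, fun i => by simpa using hQ i, fun s D hD hs hcnt => ?_⟩
  refine h1 s D (fun x hx => ?_) hs hcnt
  by_contra hc
  exact absurd ((hD x hc).1 hx) (by simp)

private theorem base_true (r m n : ℕ) (hr : 1 ≤ r) (hm : (2 : ℝ) ^ (256 * Real.sqrt r) ≤ m)
    (hn : m ≤ n) (E : Finset (EdgeVar n)) (hE : m ≤ E.card) :
    Base true E r ((m / (2 : ℝ) ^ (256 * Real.sqrt r)) ^ (1 / 2 : ℝ)) := by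
  obtain ⟨N, Q, hN, hQ, h1⟩ := LS.mainTT r m n hr hm hn E hE true
  rw [← Real.sqrt_eq_rpow]
  exact ⟨N, Q, hN, hQ, h1⟩

private theorem base (b : Bool) (a : ℝ) (ha : a = if b = true then 1 / 2 else 1) (r m n : ℕ)
    (hr : 1 ≤ r) (hm : (2 : ℝ) ^ (256 * Real.sqrt r) ≤ m)
    (hn : m ≤ n) (E : Finset (EdgeVar n)) (hE : m ≤ E.card) :
    Base b E r ((m / (2 : ℝ) ^ (256 * Real.sqrt r)) ^ a) := by
  cases b with
  | false =>
    have ha' : a = 1 := by simpa using ha
    subst ha'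
    exact base_false r m n hr hm hn E hE
  | true =>
    have ha' : a = 1 / 2 := by simpa using ha
    subst ha'
    exact base_true r m n hr hm hn E hE

/-- **Circuits with a sparse oracle and random bits which read many variables few times.** -/
theorem bound (b : Bool) (a : ℝ) (ha : a = if b = true then 1 / 2 else 1) (r m n : ℕ)
    (hr : 1 ≤ r) (hm : (2 : ℝ) ^ (264 * Real.sqrt r) ≤ m) (hn : m ≤ n) (E : Finset (EdgeVar n))
    (hE : m ≤ E.card) : Orac b E r ((m / (2 : ℝ) ^ (264 * Real.sqrt r)) ^ a) := by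
  obtain ⟨q, hq⟩ : ∃ q, q = Real.sqrt r := ⟨_, rfl⟩
  have hq1 : 1 ≤ q := by
    rw [hq, Real.one_le_sqrt]
    exact_mod_cast hr
  have ha1 : 1 / 2 ≤ a := by
    rw [ha]
    split_ifs <;> norm_num
  have hb := base b a ha r
  rw [← hq] at hm hb ⊢
  obtain ⟨u, hu⟩ : ∃ u, u = (2 : ℝ) ^ (256 * q) := ⟨_, rfl⟩
  obtain ⟨U, hU⟩ : ∃ U, U = (2 : ℝ) ^ (264 * q) := ⟨_, rfl⟩
  have hu1 : 1 ≤ u := by
    rw [hu]
    exact Real.one_le_rpow (by norm_num) (by linarith)
  have hUu : 256 * u ≤ U := by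
    rw [hu, hU]
    calc 256 * (2 : ℝ) ^ (256 * q) = (2 : ℝ) ^ (8 + 256 * q) := by
          rw [Real.rpow_add (by norm_num)]
          norm_num
      _ ≤ (2 : ℝ) ^ (264 * q) := by
          refine Real.rpow_le_rpow_of_exponent_le (by norm_num) ?_
          linarith
  rw [← hu] at hb
  rw [← hU] at hm ⊢
  have hm1 : (256 : ℝ) ≤ m := by linarith
  have hmN : 256 ≤ m := by exact_mod_cast hm1
  obtain ⟨k, rfl⟩ : ∃ k, m = k + 1 := ⟨m - 1, by omega⟩
  have hcast : ((k + 1 : ℕ) : ℝ) = k + 1 := by push_cast; ring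
  rw [hcast] at hm hm1 ⊢
  obtain ⟨v₀, hv₀⟩ : E.Nonempty := by
    rw [← card_pos]
    omega
  have hE' : k ≤ (E.erase v₀).card := by
    rw [card_erase_of_mem hv₀]
    omega
  have hU0 : 0 < U := by linarith
  refine transfer ?_ ?_ (hb k n hr (by linarith) (by omega) _ hE')
  · exact Real.one_le_rpow ((one_le_div hU0).2 hm) (by linarith)
  · have h1 : (128 : ℝ) * ((k + 1) / U) ≤ k / u := by
      have hu0 : 0 < u := by linarith
      have hk0 : (0 : ℝ) ≤ k := Nat.cast_nonneg k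
      rw [← mul_div_assoc, div_le_div_iff₀ hU0 hu0]
      calc (128 : ℝ) * (k + 1) * u ≤ (k * 256) * u :=
            mul_le_mul_of_nonneg_right (by linarith) hu0.le
        _ = k * (256 * u) := by ring
        _ ≤ k * U := mul_le_mul_of_nonneg_left hUu hk0
    calc 10 * (((k : ℝ) + 1) / U) ^ a ≤ (128 : ℝ) ^ a * (((k : ℝ) + 1) / U) ^ a := by
          refine mul_le_mul_of_nonneg_right ?_ (by positivity)
          calc (10 : ℝ) ≤ (128 : ℝ) ^ (1 / 2 : ℝ) := by
                rw [← Real.sqrt_eq_rpow]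
                exact Real.le_sqrt_of_sq_le (by norm_num)
            _ ≤ (128 : ℝ) ^ a := Real.rpow_le_rpow_of_exponent_le (by norm_num) ha1
      _ = (128 * (((k : ℝ) + 1) / U)) ^ a := by
          rw [Real.mul_rpow (by norm_num) (by positivity)]
      _ ≤ (k / u) ^ a := Real.rpow_le_rpow (by positivity) h1 (by linarith)

end Pool.Agent.SR
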