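import Mathlib
import Pool.Agent.Lib.MP_69a69c_lc_SR.Count
import Pool.Agent.Lib.MP_69a69c_lc_SR.DefsH

/-!
# Circuits with oracle gates: renaming the variables
-/

set_option autoImplicit false

namespace Pool.Agent.SR

open Finset

variable {V V' : Type} {s : ℕ}

private def ren (φ : V → V') : OGate V s → OGate V' s
  | .var v => .var (φ v)
  | .not i => .not i
  | .and i j => .and i j
  | .or i j => .or i j
  | .ask m w => .ask m w

private theorem ren_var {φ : V → V'} {o : OGate V s} {v : V'} (h : ren φ o = .var v) :
    ∃ u, o = .var u ∧ v = φ u := by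
  cases o with
  | var u => exact ⟨u, rfl, (OGate.var.inj h).symm⟩
  | not i => exact absurd h (by simp [ren])
  | and i j => exact absurd h (by simp [ren])
  | or i j => exact absurd h (by simp [ren])
  | ask m w => exact absurd h (by simp [ren])

private theorem ren_not {φ : V → V'} {o : OGate V s} {i : Fin s} (h : ren φ o = .not i) :
    o = .not i := by
  cases o with
  | var u => exact absurd h (by simp [ren])
  | not i => rw [OGate.not.inj h]
  | and i j => exact absurd h (by simp [ren])
  | or i j => exact absurd h (by simp [ren])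
  | ask m w => exact absurd h (by simp [ren])

private theorem ren_and {φ : V → V'} {o : OGate V s} {i j : Fin s} (h : ren φ o = .and i j) :
    o = .and i j := by
  cases o with
  | var u => exact absurd h (by simp [ren])
  | not i => exact absurd h (by simp [ren])
  | and i j =>
    obtain ⟨rfl, rfl⟩ := OGate.and.inj h
    rfl
  | or i j => exact absurd h (by simp [ren])
  | ask m w => exact absurd h (by simp [ren])

private theorem ren_or {φ : V → V'} {o : OGate V s} {i j : Fin s} (h : ren φ o = .or i j) :
    o = .or i j := by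
  cases o with
  | var u => exact absurd h (by simp [ren])
  | not i => exact absurd h (by simp [ren])
  | and i j => exact absurd h (by simp [ren])
  | or i j =>
    obtain ⟨rfl, rfl⟩ := OGate.or.inj h
    rfl
  | ask m w => exact absurd h (by simp [ren])

private theorem ren_ask {φ : V → V'} {o : OGate V s} {m : ℕ} {w : Fin m → Fin s}
    (h : ren φ o = .ask m w) : o = .ask m w := by
  cases o with
  | var u => exact absurd h (by simp [ren])
  | not i => exact absurd h (by simp [ren])
  | and i j => exact absurd h (by simp [ren])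
  | or i j => exact absurd h (by simp [ren])
  | ask m' w' =>
    obtain ⟨rfl, h2⟩ := OGate.ask.inj h
    rw [eq_of_heq h2]

/-- the circuit with the variables renamed -/
def OCircuit.rename (φ : V → V') (D : OCircuit V s) : OCircuit V' s where
  gate g := ren φ (D.gate g)
  not_lt g i h := D.not_lt g i (ren_not h)
  and_lt g i j h := D.and_lt g i j (ren_and h)
  or_lt g i j h := D.or_lt g i j (ren_or h)
  ask_lt g m w h := D.ask_lt g m w (ren_ask h)
  out := D.out

theorem rename_ask (φ : V → V') (D : OCircuit V s) {g : Fin s} {m : ℕ} {w : Fin m → Fin s}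
    (h : (D.rename φ).gate g = .ask m w) : D.gate g = .ask m w := ren_ask h

theorem rename_size (φ : V → V') (D : OCircuit V s) : (D.rename φ).size = D.size := by
  refine sum_congr rfl fun g _ => ?_
  show 1 + (ren φ (D.gate g)).fanIn = _
  cases D.gate g <;> rfl

theorem rename_accepts (φ : V → V') (D : OCircuit V s) (A : Set (List Bool)) (x : V' → Bool) :
    (D.rename φ).Accepts A x ↔ D.Accepts A fun v => x (φ v) := by
  refine exists_congr fun val => and_congr (forall_congr' fun g => ?_) Iff.rfl
  show (val g = true ↔ match ren φ (D.gate g) with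
    | .var v => x v = true
    | .not i => val i = false
    | .and i j => val i = true ∧ val j = true
    | .or i j => val i = true ∨ val j = true
    | .ask _ w => List.ofFn (fun j => val (w j)) ∈ A) ↔ _
  cases D.gate g <;> rfl

theorem rename_cert (φ : V → V') (D : OCircuit V s) {g : Fin s} {b : Bool} {L : List V'}
    (h : (D.rename φ).Cert g b L) : ∃ M, D.Cert g b M ∧ L = M.map φ := by
  induction h with
  | var g v b hg =>
    obtain ⟨u, h1, rfl⟩ := ren_var hg
    exact ⟨[u], .var g u b h1, rfl⟩
  | not g i b L hg _ ih =>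
    obtain ⟨M, h1, h2⟩ := ih
    exact ⟨M, .not g i b M (ren_not hg) h1, h2⟩
  | andLeft g i j L hg _ ih =>
    obtain ⟨M, h1, h2⟩ := ih
    exact ⟨M, .andLeft g i j M (ren_and hg) h1, h2⟩
  | andRight g i j L hg _ ih =>
    obtain ⟨M, h1, h2⟩ := ih
    exact ⟨M, .andRight g i j M (ren_and hg) h1, h2⟩
  | andBoth g i j L L' hg _ _ ih ih' =>
    obtain ⟨M, h1, rfl⟩ := ih
    obtain ⟨M', h2, rfl⟩ := ih'
    exact ⟨M ++ M', .andBoth g i j M M' (ren_and hg) h1 h2, (List.map_append).symm⟩
  | orLeft g i j L hg _ ih =>
    obtain ⟨M, h1, h2⟩ := ih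
    exact ⟨M, .orLeft g i j M (ren_or hg) h1, h2⟩
  | orRight g i j L hg _ ih =>
    obtain ⟨M, h1, h2⟩ := ih
    exact ⟨M, .orRight g i j M (ren_or hg) h1, h2⟩
  | orBoth g i j L L' hg _ _ ih ih' =>
    obtain ⟨M, h1, rfl⟩ := ih
    obtain ⟨M', h2, rfl⟩ := ih'
    exact ⟨M ++ M', .orBoth g i j M M' (ren_or hg) h1 h2, (List.map_append).symm⟩
  | ask g m w b c L hg _ ih =>
    choose M h1 h2 using ih
    refine ⟨(List.ofFn M).flatten, .ask g m w b c M (ren_ask hg) h1, ?_⟩
    rw [List.map_flatten, List.map_ofFn]
    congr 1
    congr 1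
    funext j
    exact h2 j

end Pool.Agent.SR
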