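import Mathlib
import Pool.Agent.Lib.MP_69a69c_lc_SR.Count
import Pool.Agent.Lib.MP_69a69c_lc_SR.DefsH
import Pool.Agent.Lib.MP_69a69c_lc_SR.Rank

/-!
# Circuits with a sparse oracle as small circuits without oracle which do not read more

An oracle gate with `m` wires and an oracle with `K` words of length `m` becomes a chain of tests of
its wires, one after the other; the state of the chain is a word of the oracle with the values of
the wires which were tested so far (or there is none).
-/

set_option autoImplicit false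

namespace Pool.Agent.SR

open Finset Pool.Agent.FP Pool.Agent.RT

/-! ## The chain of an oracle gate -/

/-- the words of the oracle of length `m` -/
private abbrev St (A : Set (List Bool)) (m : ℕ) : Type := {u : Fin m → Bool // List.ofFn u ∈ A}

open Classical in
/-- the next state -/
private noncomputable def nx {A : Set (List Bool)} {m : ℕ} (j : Fin m) (c : Bool) :
    Option (St A m) → Option (St A m)
  | none => none
  | some u => if h : ∃ u' : St A m, (∀ i, i < j → u'.1 i = u.1 i) ∧ u'.1 j = c then
      some h.choose else none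

/-- there is a word of the oracle with the values of the state before `j` and with the values of the
wires from `j` on -/
private def Ps {A : Set (List Bool)} {m : ℕ} (y : Fin m → Bool) (j : ℕ) :
    Option (St A m) → Prop
  | none => False
  | some u => ∃ u' : St A m, (∀ i : Fin m, (i : ℕ) < j → u'.1 i = u.1 i) ∧
      ∀ i : Fin m, j ≤ (i : ℕ) → u'.1 i = y i

private theorem ps_step {A : Set (List Bool)} {m : ℕ} (y : Fin m → Bool) (j : Fin m)
    (σ : Option (St A m)) : Ps y j σ ↔ Ps y (j + 1) (nx j (y j) σ) := by
  cases σ with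
  | none => exact Iff.rfl
  | some u =>
    unfold nx
    dsimp only
    split_ifs with h
    · have h1 := h.choose_spec
      constructor
      · rintro ⟨u', h2, h3⟩
        refine ⟨u', fun i hi => ?_, fun i hi => h3 i (by omega)⟩
        rcases Nat.lt_succ_iff_lt_or_eq.1 hi with h4 | h4
        · rw [h2 i h4, h1.1 i h4]
        · have h5 : i = j := Fin.ext h4
          rw [h5, h1.2, h3 j le_rfl]
      · rintro ⟨u', h2, h3⟩
        refine ⟨u', fun i hi => ?_, fun i hi => ?_⟩
        · rw [h2 i (by omega), h1.1 i hi]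
        · rcases Nat.lt_or_eq_of_le hi with h4 | h4
          · exact h3 i h4
          · have h5 : i = j := Fin.ext h4.symm
            rw [h5, h2 j (by omega), h1.2]
    · constructor
      · rintro ⟨u', h2, h3⟩
        exact h ⟨u', fun i hi => h2 i hi, h3 j le_rfl⟩
      · intro h1
        exact h1.elim

private theorem ps_last {A : Set (List Bool)} {m : ℕ} (y : Fin m → Bool)
    (σ : Option (St A m)) : Ps y m σ ↔ σ.isSome = true := by
  cases σ with
  | none => simp [Ps]
  | some u =>
    simp only [Option.isSome_some, iff_true]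
    exact ⟨u, fun i _ => rfl, fun i hi => absurd i.2 (by omega)⟩

open Classical in
/-- the first state -/
private noncomputable def rt (A : Set (List Bool)) (m : ℕ) : Option (St A m) :=
  if h : Nonempty (St A m) then some h.some else none

private theorem ps_rt {A : Set (List Bool)} {m : ℕ} (y : Fin m → Bool) :
    Ps y 0 (rt A m) ↔ List.ofFn y ∈ A := by
  unfold rt
  split_ifs with h
  · constructor
    · rintro ⟨u', -, h2⟩
      have h3 : u'.1 = y := funext fun i => h2 i (Nat.zero_le _)
      rw [← h3]
      exact u'.2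
    · intro h1
      exact ⟨⟨y, h1⟩, fun i hi => absurd hi (Nat.not_lt_zero _), fun i _ => rfl⟩
  · constructor
    · intro h1
      exact h1.elim
    · intro h1
      exact h ⟨⟨y, h1⟩⟩

/-! ## The gates -/

variable {V : Type} {s : ℕ}

/-- the number of wires of an oracle gate -/
private def fi : OGate V s → ℕ
  | .ask m _ => m
  | _ => 0

private def wi : (o : OGate V s) → Fin (fi o) → Fin s
  | .ask _ w => w
  | .var _ => fun j => Fin.elim0 j
  | .not _ => fun j => Fin.elim0 j
  | .and _ _ => fun j => Fin.elim0 j
  | .or _ _ => fun j => Fin.elim0 j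

private theorem wi_lt (D : OCircuit V s) (g : Fin s) (j : Fin (fi (D.gate g))) :
    wi (D.gate g) j < g := by
  have key : ∀ (o : OGate V s) (j : Fin (fi o)), D.gate g = o → wi o j < g := by
    intro o j h
    cases o with
    | var v => exact Fin.elim0 j
    | not i => exact Fin.elim0 j
    | and i k => exact Fin.elim0 j
    | or i k => exact Fin.elim0 j
    | ask m w => exact D.ask_lt g m w h j
  exact key _ j rfl

/-- the gates of the new circuit -/
private abbrev Gt (D : OCircuit V s) (A : Set (List Bool)) : Type :=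
  (Fin s × Bool) ⊕ (((g : Fin s) × (Bool × Fin (fi (D.gate g) + 1) ×
    Option (St A (fi (D.gate g))) × Fin 3)) ⊕ Fin 4)

/-- the start of the chain -/
private noncomputable def sn (D : OCircuit V s) (A : Set (List Bool)) (g : Fin s) (b : Bool) :
    Gt D A :=
  .inr (.inl ⟨g, b, 0, rt A _, 0⟩)

private noncomputable def tg (D : OCircuit V s) (A : Set (List Bool)) (v₀ : V) :
    Gt D A → (V × Bool) ⊕ (Bool × Gt D A × Gt D A)
  | .inl (g, b) => match D.gate g with
    | .var v => .inl (v, b)
    | .not i => .inr (true, .inl (i, !b), .inl (i, !b))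
    | .and i j => .inr (b, .inl (i, b), .inl (j, b))
    | .or i j => .inr (!b, .inl (i, b), .inl (j, b))
    | .ask _ _ => .inr (true, sn D A g b, sn D A g b)
  | .inr (.inl ⟨g, b, j, σ, k⟩) =>
    if h : (j : ℕ) < fi (D.gate g) then
      if k = 0 then .inr (true, .inr (.inl ⟨g, b, j, σ, 1⟩), .inr (.inl ⟨g, b, j, σ, 2⟩))
      else .inr (false, .inl (wi (D.gate g) ⟨j, h⟩, decide (k = 2)),
        .inr (.inl ⟨g, b, ⟨j + 1, by omega⟩, nx ⟨j, h⟩ (decide (k = 1)) σ, 0⟩))
    else .inr (true, .inr (.inr (if σ.isSome = b then 2 else 3)),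
      .inr (.inr (if σ.isSome = b then 2 else 3)))
  | .inr (.inr 0) => .inl (v₀, true)
  | .inr (.inr 1) => .inl (v₀, false)
  | .inr (.inr 2) => .inr (false, .inr (.inr 0), .inr (.inr 1))
  | .inr (.inr 3) => .inr (true, .inr (.inr 0), .inr (.inr 1))

/-- the sum of the numbers of wires of the oracle gates -/
private def fs (D : OCircuit V s) : ℕ := ∑ g, fi (D.gate g)

private theorem fi_le (D : OCircuit V s) (g : Fin s) : fi (D.gate g) ≤ fs D :=
  single_le_sum (f := fun g => fi (D.gate g)) (fun _ _ => Nat.zero_le _) (mem_univ g)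

private def tr (D : OCircuit V s) (A : Set (List Bool)) : Gt D A → ℕ
  | .inl (g, _) => (g + 1) * (2 * fs D + 5)
  | .inr (.inl ⟨g, _, j, _, k⟩) => g * (2 * fs D + 5) + 2 + 2 * (fi (D.gate g) - j) +
      if k = 0 then 1 else 0
  | .inr (.inr k) => if k = 0 ∨ k = 1 then 0 else 1

private theorem tr_lt (D : OCircuit V s) (A : Set (List Bool)) (v₀ : V) (a : Gt D A) (k : Bool)
    (i j : Gt D A) (h : tg D A v₀ a = .inr (k, i, j)) :
    tr D A i < tr D A a ∧ tr D A j < tr D A a := by
  have hmain : ∀ (g i : Fin s) (b c : Bool), i < g →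
      tr D A (.inl (i, b)) < tr D A (.inl (g, c)) := by
    intro g i b c hi
    have hi' : (i : ℕ) < g := hi
    show ((i : ℕ) + 1) * (2 * fs D + 5) < ((g : ℕ) + 1) * (2 * fs D + 5)
    exact Nat.mul_lt_mul_of_pos_right (by omega) (by omega)
  rcases a with ⟨g, b⟩ | ⟨g, b, l, σ, c⟩ | c
  · cases hg : D.gate g with
    | var v =>
      simp only [tg, hg] at h
      exact absurd h (by simp)
    | not i' =>
      simp only [tg, hg, Sum.inr.injEq, Prod.mk.injEq] at h
      obtain ⟨-, rfl, rfl⟩ := h
      exact ⟨hmain _ _ _ _ (D.not_lt g i' hg), hmain _ _ _ _ (D.not_lt g i' hg)⟩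
    | and i' j' =>
      simp only [tg, hg, Sum.inr.injEq, Prod.mk.injEq] at h
      obtain ⟨-, rfl, rfl⟩ := h
      exact ⟨hmain _ _ _ _ (D.and_lt g i' j' hg).1, hmain _ _ _ _ (D.and_lt g i' j' hg).2⟩
    | or i' j' =>
      simp only [tg, hg, Sum.inr.injEq, Prod.mk.injEq] at h
      obtain ⟨-, rfl, rfl⟩ := h
      exact ⟨hmain _ _ _ _ (D.or_lt g i' j' hg).1, hmain _ _ _ _ (D.or_lt g i' j' hg).2⟩
    | ask m w =>
      simp only [tg, hg, Sum.inr.injEq, Prod.mk.injEq] at h
      obtain ⟨-, rfl, rfl⟩ := h
      have h2 := fi_le D g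
      have h3 : tr D A (sn D A g b) < tr D A (.inl (g, b)) := by
        show (g : ℕ) * (2 * fs D + 5) + 2 + 2 * (fi (D.gate g) - 0) + 1 <
          ((g : ℕ) + 1) * (2 * fs D + 5)
        rw [add_mul, one_mul]
        omega
      exact ⟨h3, h3⟩
  · have hl : (l : ℕ) ≤ fi (D.gate g) := Nat.lt_succ_iff.1 l.2
    by_cases hj : (l : ℕ) < fi (D.gate g)
    · by_cases hc : c = 0
      · have h1 : tg D A v₀ (.inr (.inl ⟨g, b, l, σ, c⟩)) =
            .inr (true, .inr (.inl ⟨g, b, l, σ, 1⟩), .inr (.inl ⟨g, b, l, σ, 2⟩)) := by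
          simp only [tg]
          rw [dif_pos hj, if_pos hc]
        rw [h1] at h
        simp only [Sum.inr.injEq, Prod.mk.injEq] at h
        obtain ⟨-, rfl, rfl⟩ := h
        subst hc
        constructor
        · show (g : ℕ) * (2 * fs D + 5) + 2 + 2 * (fi (D.gate g) - l) + 0 <
            (g : ℕ) * (2 * fs D + 5) + 2 + 2 * (fi (D.gate g) - l) + 1
          omega
        · show (g : ℕ) * (2 * fs D + 5) + 2 + 2 * (fi (D.gate g) - l) + 0 <
            (g : ℕ) * (2 * fs D + 5) + 2 + 2 * (fi (D.gate g) - l) + 1
          omega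
      · have h1 : tg D A v₀ (.inr (.inl ⟨g, b, l, σ, c⟩)) =
            .inr (false, .inl (wi (D.gate g) ⟨l, hj⟩, decide (c = 2)),
              .inr (.inl ⟨g, b, ⟨l + 1, by omega⟩, nx ⟨l, hj⟩ (decide (c = 1)) σ, 0⟩)) := by
          simp only [tg]
          rw [dif_pos hj, if_neg hc]
        rw [h1] at h
        simp only [Sum.inr.injEq, Prod.mk.injEq] at h
        obtain ⟨-, rfl, rfl⟩ := h
        have h2 : tr D A (.inr (.inl ⟨g, b, l, σ, c⟩)) =
            (g : ℕ) * (2 * fs D + 5) + 2 + 2 * (fi (D.gate g) - l) := by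
          simp only [tr]
          rw [if_neg hc, add_zero]
        rw [h2]
        constructor
        · have h3 : (wi (D.gate g) ⟨l, hj⟩ : ℕ) < g := wi_lt D g ⟨l, hj⟩
          have h4 : ((wi (D.gate g) ⟨l, hj⟩ : ℕ) + 1) * (2 * fs D + 5) ≤
            (g : ℕ) * (2 * fs D + 5) := Nat.mul_le_mul_right _ h3
          show ((wi (D.gate g) ⟨l, hj⟩ : ℕ) + 1) * (2 * fs D + 5) < _
          omega
        · show (g : ℕ) * (2 * fs D + 5) + 2 + 2 * (fi (D.gate g) - (l + 1)) + 1 < _
          omega
    · have h1 : tg D A v₀ (.inr (.inl ⟨g, b, l, σ, c⟩)) =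
          .inr (true, .inr (.inr (if σ.isSome = b then 2 else 3)),
            .inr (.inr (if σ.isSome = b then 2 else 3))) := by
        simp only [tg]
        rw [dif_neg hj]
      rw [h1] at h
      simp only [Sum.inr.injEq, Prod.mk.injEq] at h
      obtain ⟨-, rfl, rfl⟩ := h
      have h2 : tr D A (.inr (.inr (if σ.isSome = b then 2 else 3))) <
          tr D A (.inr (.inl ⟨g, b, l, σ, c⟩)) := by
        have h3 : tr D A (.inr (.inr (if σ.isSome = b then 2 else 3))) ≤ 1 := by
          simp only [tr]
          split_ifs <;> omega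
        have h4 : 2 ≤ tr D A (.inr (.inl ⟨g, b, l, σ, c⟩)) := by
          simp only [tr]
          omega
        omega
      exact ⟨h2, h2⟩
  · fin_cases c
    · exact absurd h (by simp [tg])
    · exact absurd h (by simp [tg])
    · obtain ⟨-, rfl, rfl⟩ : (false = k) ∧ (.inr (.inr 0) : Gt D A) = i ∧
          (.inr (.inr 1) : Gt D A) = j := by
        simpa [tg] using h
      simp [tr]
    · obtain ⟨-, rfl, rfl⟩ : (true = k) ∧ (.inr (.inr 0) : Gt D A) = i ∧
          (.inr (.inr 1) : Gt D A) = j := by
        simpa [tg] using h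
      simp [tr]

/-! ## The values -/

open Classical in
private noncomputable def tv (D : OCircuit V s) (A : Set (List Bool)) (v₀ : V) (x : V → Bool)
    (val : Fin s → Bool) : Gt D A → Bool
  | .inl (g, b) => val g == b
  | .inr (.inl ⟨g, b, j, σ, k⟩) =>
    if h : (j : ℕ) < fi (D.gate g) then
      if k = 0 then decide (Ps (fun i => val (wi (D.gate g) i)) j σ) == b
      else (val (wi (D.gate g) ⟨j, h⟩) == decide (k = 2)) ||
        (decide (Ps (fun i => val (wi (D.gate g) i)) (j + 1)
          (nx ⟨j, h⟩ (decide (k = 1)) σ)) == b)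
    else σ.isSome == b
  | .inr (.inr 0) => x v₀
  | .inr (.inr 1) => !(x v₀)
  | .inr (.inr 2) => true
  | .inr (.inr 3) => false

open Classical in
/-- the value of the first gate of a test -/
private theorem tv_zero (D : OCircuit V s) (A : Set (List Bool)) (v₀ : V) (x : V → Bool)
    (val : Fin s → Bool) (g : Fin s) (b : Bool) (j : Fin (fi (D.gate g) + 1))
    (σ : Option (St A (fi (D.gate g)))) :
    tv D A v₀ x val (.inr (.inl ⟨g, b, j, σ, 0⟩)) =
      (decide (Ps (fun i => val (wi (D.gate g) i)) j σ) == b) := by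
  by_cases h : (j : ℕ) < fi (D.gate g)
  · simp only [tv]
    rw [dif_pos h, if_pos trivial]
  · simp only [tv]
    rw [dif_neg h]
    have h1 : (j : ℕ) = fi (D.gate g) := le_antisymm (Nat.lt_succ_iff.1 j.2) (not_lt.1 h)
    rw [h1]
    congr 1
    rw [Bool.eq_iff_iff, decide_eq_true_iff]
    exact (ps_last _ _).symm

private theorem wi_ask {A : Set (List Bool)} (val : Fin s → Bool) (o : OGate V s) {m : ℕ}
    {w : Fin m → Fin s} (h : o = .ask m w) :
    List.ofFn (fun i => val (wi o i)) ∈ A ↔ List.ofFn (fun i => val (w i)) ∈ A := by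
  subst h
  exact Iff.rfl

private theorem tv_ok (D : OCircuit V s) {A : Set (List Bool)} (v₀ : V) {x : V → Bool}
    {val : Fin s → Bool} (hval : D.IsEval A x val) (a : Gt D A) :
    tv D A v₀ x val a = match tg D A v₀ a with
      | .inl l => x l.1 == l.2
      | .inr q => if q.1 then tv D A v₀ x val q.2.1 && tv D A v₀ x val q.2.2 else
          tv D A v₀ x val q.2.1 || tv D A v₀ x val q.2.2 := by
  classical
  rcases a with ⟨g, b⟩ | ⟨g, b, l, σ, c⟩ | c
  · have hv := hval g
    cases hg : D.gate g with
    | var v =>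
      simp only [tg, hg]
      rw [hg] at hv
      show (val g == b) = (x v == b)
      rw [show val g = x v from Bool.eq_iff_iff.2 hv]
    | not i' =>
      simp only [tg, hg]
      rw [hg] at hv
      show (val g == b) = ((val i' == !b) && (val i' == !b))
      dsimp only at hv
      cases h1 : val g <;> cases h2 : val i' <;> simp_all
    | and i' j' =>
      simp only [tg, hg]
      rw [hg] at hv
      show (val g == b) = if b = true then (val i' == b) && (val j' == b) else
        (val i' == b) || (val j' == b)
      dsimp only at hv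
      cases h1 : val g <;> cases h2 : val i' <;> cases h3 : val j' <;> cases b <;> simp_all
    | or i' j' =>
      simp only [tg, hg]
      rw [hg] at hv
      show (val g == b) = if (!b) = true then (val i' == b) && (val j' == b) else
        (val i' == b) || (val j' == b)
      dsimp only at hv
      cases h1 : val g <;> cases h2 : val i' <;> cases h3 : val j' <;> cases b <;> simp_all
    | ask m w =>
      simp only [tg, hg]
      rw [hg] at hv
      dsimp only at hv
      show (val g == b) = (tv D A v₀ x val (sn D A g b) && tv D A v₀ x val (sn D A g b))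
      rw [Bool.and_self]
      show _ = tv D A v₀ x val (.inr (.inl ⟨g, b, 0, rt A _, 0⟩))
      rw [tv_zero]
      congr 1
      rw [Bool.eq_iff_iff, decide_eq_true_iff, hv]
      refine Iff.trans ?_ (ps_rt _).symm
      exact (wi_ask val _ hg).symm
  · by_cases hj : (l : ℕ) < fi (D.gate g)
    · by_cases hc : c = 0
      · subst hc
        have h1 : tg D A v₀ (.inr (.inl ⟨g, b, l, σ, 0⟩)) =
            .inr (true, .inr (.inl ⟨g, b, l, σ, 1⟩), .inr (.inl ⟨g, b, l, σ, 2⟩)) := by
          simp only [tg]
          rw [dif_pos hj, if_pos trivial]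
        rw [h1, tv_zero]
        dsimp only
        rw [if_pos rfl]
        have h2 : tv D A v₀ x val (.inr (.inl ⟨g, b, l, σ, 1⟩)) =
            ((val (wi (D.gate g) ⟨l, hj⟩) == false) ||
              (decide (Ps (fun i => val (wi (D.gate g) i)) (l + 1) (nx ⟨l, hj⟩ true σ)) == b)) := by
          simp only [tv]
          rw [dif_pos hj]
          rfl
        have h3 : tv D A v₀ x val (.inr (.inl ⟨g, b, l, σ, 2⟩)) =
            ((val (wi (D.gate g) ⟨l, hj⟩) == true) ||
              (decide (Ps (fun i => val (wi (D.gate g) i)) (l + 1)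
                (nx ⟨l, hj⟩ false σ)) == b)) := by
          simp only [tv]
          rw [dif_pos hj]
          rfl
        rw [h2, h3]
        have h4 := ps_step (fun i => val (wi (D.gate g) i)) ⟨l, hj⟩ σ
        dsimp only at h4
        have h5 : decide (Ps (fun i => val (wi (D.gate g) i)) l σ) =
            decide (Ps (fun i => val (wi (D.gate g) i)) (l + 1)
              (nx ⟨l, hj⟩ (val (wi (D.gate g) ⟨l, hj⟩)) σ)) := by
          rw [Bool.eq_iff_iff, decide_eq_true_iff, decide_eq_true_iff]
          exact h4
        rw [h5]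
        cases val (wi (D.gate g) ⟨l, hj⟩) <;> simp
      · have h1 : tg D A v₀ (.inr (.inl ⟨g, b, l, σ, c⟩)) =
            .inr (false, .inl (wi (D.gate g) ⟨l, hj⟩, decide (c = 2)),
              .inr (.inl ⟨g, b, ⟨l + 1, by omega⟩, nx ⟨l, hj⟩ (decide (c = 1)) σ, 0⟩)) := by
          simp only [tg]
          rw [dif_pos hj, if_neg hc]
        rw [h1]
        dsimp only
        rw [if_neg (by simp), tv_zero]
        simp only [tv]
        rw [dif_pos hj, if_neg hc]
    · have h1 : tg D A v₀ (.inr (.inl ⟨g, b, l, σ, c⟩)) =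
          .inr (true, .inr (.inr (if σ.isSome = b then 2 else 3)),
            .inr (.inr (if σ.isSome = b then 2 else 3))) := by
        simp only [tg]
        rw [dif_neg hj]
      rw [h1]
      dsimp only
      rw [if_pos rfl, Bool.and_self]
      have h2 : tv D A v₀ x val (.inr (.inl ⟨g, b, l, σ, c⟩)) = (σ.isSome == b) := by
        simp only [tv]
        rw [dif_neg hj]
      rw [h2]
      by_cases h3 : σ.isSome = b
      · rw [if_pos h3, h3]
        simp [tv]
      · rw [if_neg h3]
        simp [tv, h3]
  · fin_cases c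
    · simp [tv, tg]
    · simp [tv, tg]
    · simp [tv, tg]
    · simp [tv, tg]

/-! ## The number of readings -/

/-- the bound for the number of readings -/
private def tb (D : OCircuit V s) (A : Set (List Bool)) (mx : Fin s → Bool → ℕ) : Gt D A → ℕ
  | .inl (g, b) => mx g (!b)
  | .inr (.inl ⟨g, _, j, _, _⟩) => ∑ i : Fin (fi (D.gate g)), if (j : ℕ) ≤ i then
      max (mx (wi (D.gate g) i) true) (mx (wi (D.gate g) i) false) else 0
  | .inr (.inr _) => 0

private theorem wi_sum (mx : Fin s → Bool → ℕ) (o : OGate V s) {m : ℕ}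
    {w : Fin m → Fin s} (h : o = .ask m w) :
    ∑ i, max (mx (wi o i) true) (mx (wi o i) false) =
      ∑ i, max (mx (w i) true) (mx (w i) false) := by
  subst h
  rfl

private theorem tb_ok [DecidableEq V] (D : OCircuit V s) (A : Set (List Bool)) (v₀ v : V)
    (hv : v ≠ v₀) (mx : Fin s → Bool → ℕ)
    (hmx : ∀ g, match D.gate g with
      | .var w => ∀ b, mx g b = if w = v then 1 else 0
      | .not i => ∀ b, mx g b = mx i (!b)
      | .and i j => mx g true = mx i true + mx j true ∧ mx g false = max (mx i false) (mx j false)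
      | .or i j => mx g false = mx i false + mx j false ∧ mx g true = max (mx i true) (mx j true)
      | .ask _ w => ∀ b, mx g b = ∑ i, max (mx (w i) true) (mx (w i) false)) (a : Gt D A) :
    match tg D A v₀ a with
      | .inl l => (if l.1 = v then 1 else 0) ≤ tb D A mx a
      | .inr q => if q.1 then tb D A mx q.2.1 ≤ tb D A mx a ∧ tb D A mx q.2.2 ≤ tb D A mx a else
          tb D A mx q.2.1 + tb D A mx q.2.2 ≤ tb D A mx a := by
  rcases a with ⟨g, b⟩ | ⟨g, b, l, σ, c⟩ | c
  · have hm := hmx g
    cases hg : D.gate g with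
    | var w =>
      simp only [tg, hg]
      rw [hg] at hm
      exact (hm (!b)).ge
    | not i' =>
      simp only [tg, hg]
      rw [hg] at hm
      rw [if_pos trivial]
      exact ⟨(hm (!b)).ge, (hm (!b)).ge⟩
    | and i' j' =>
      simp only [tg, hg]
      rw [hg] at hm
      show if b = true then mx i' (!b) ≤ mx g (!b) ∧ mx j' (!b) ≤ mx g (!b) else
        mx i' (!b) + mx j' (!b) ≤ mx g (!b)
      cases b
      · simp only [Bool.false_eq_true, if_false, Bool.not_false]
        exact hm.1.ge
      · simp only [if_true, Bool.not_true]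
        rw [hm.2]
        exact ⟨le_max_left _ _, le_max_right _ _⟩
    | or i' j' =>
      simp only [tg, hg]
      rw [hg] at hm
      show if (!b) = true then mx i' (!b) ≤ mx g (!b) ∧ mx j' (!b) ≤ mx g (!b) else
        mx i' (!b) + mx j' (!b) ≤ mx g (!b)
      cases b
      · simp only [Bool.not_false, if_true]
        rw [hm.2]
        exact ⟨le_max_left _ _, le_max_right _ _⟩
      · simp only [Bool.not_true, Bool.false_eq_true, if_false]
        exact hm.1.ge
    | ask m w =>
      simp only [tg, hg]
      rw [hg] at hm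
      dsimp only at hm
      have h1 : tb D A mx (sn D A g b) ≤ tb D A mx (.inl (g, b)) := by
        show (∑ i : Fin (fi (D.gate g)), if 0 ≤ (i : ℕ) then
          max (mx (wi (D.gate g) i) true) (mx (wi (D.gate g) i) false) else 0) ≤ mx g (!b)
        rw [hm (!b), ← wi_sum mx _ hg]
        refine sum_le_sum fun i _ => ?_
        rw [if_pos (Nat.zero_le _)]
      rw [if_pos trivial]
      exact ⟨h1, h1⟩
  · by_cases hj : (l : ℕ) < fi (D.gate g)
    · by_cases hc : c = 0
      · subst hc
        have h1 : tg D A v₀ (.inr (.inl ⟨g, b, l, σ, 0⟩)) =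
            .inr (true, .inr (.inl ⟨g, b, l, σ, 1⟩), .inr (.inl ⟨g, b, l, σ, 2⟩)) := by
          simp only [tg]
          rw [dif_pos hj, if_pos trivial]
        rw [h1]
        dsimp only
        rw [if_pos rfl]
        exact ⟨le_rfl, le_rfl⟩
      · have h1 : tg D A v₀ (.inr (.inl ⟨g, b, l, σ, c⟩)) =
            .inr (false, .inl (wi (D.gate g) ⟨l, hj⟩, decide (c = 2)),
              .inr (.inl ⟨g, b, ⟨l + 1, by omega⟩, nx ⟨l, hj⟩ (decide (c = 1)) σ, 0⟩)) := by
          simp only [tg]
          rw [dif_pos hj, if_neg hc]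
        rw [h1]
        dsimp only
        rw [if_neg (by simp)]
        show mx (wi (D.gate g) ⟨l, hj⟩) (!decide (c = 2)) +
          (∑ i : Fin (fi (D.gate g)), if (l : ℕ) + 1 ≤ i then
            max (mx (wi (D.gate g) i) true) (mx (wi (D.gate g) i) false) else 0) ≤
          ∑ i : Fin (fi (D.gate g)), if (l : ℕ) ≤ i then
            max (mx (wi (D.gate g) i) true) (mx (wi (D.gate g) i) false) else 0
        have h2 : ∀ i : Fin (fi (D.gate g)), (if (l : ℕ) ≤ i then
            max (mx (wi (D.gate g) i) true) (mx (wi (D.gate g) i) false) else 0) =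
            (if i = ⟨l, hj⟩ then
              max (mx (wi (D.gate g) i) true) (mx (wi (D.gate g) i) false) else 0) +
            if (l : ℕ) + 1 ≤ i then
              max (mx (wi (D.gate g) i) true) (mx (wi (D.gate g) i) false) else 0 := by
          intro i
          by_cases h3 : i = ⟨l, hj⟩
          · rw [if_pos h3, if_pos (by rw [h3]), if_neg (by rw [h3]; simp), add_zero]
          · have h4 : (i : ℕ) ≠ l := fun h4 => h3 (Fin.ext h4)
            rw [if_neg h3, zero_add]
            by_cases h5 : (l : ℕ) ≤ i
            · rw [if_pos h5, if_pos (by omega)]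
            · rw [if_neg h5, if_neg (by omega)]
        rw [sum_congr rfl fun i _ => h2 i, sum_add_distrib, sum_ite_eq' univ, if_pos (mem_univ _)]
        refine Nat.add_le_add_right ?_ _
        cases decide (c = 2)
        · exact le_max_left _ _
        · exact le_max_right _ _
    · have h1 : tg D A v₀ (.inr (.inl ⟨g, b, l, σ, c⟩)) =
          .inr (true, .inr (.inr (if σ.isSome = b then 2 else 3)),
            .inr (.inr (if σ.isSome = b then 2 else 3))) := by
        simp only [tg]
        rw [dif_neg hj]
      rw [h1]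
      dsimp only
      rw [if_pos rfl]
      exact ⟨Nat.zero_le _, Nat.zero_le _⟩
  · fin_cases c
    · simp [tg, tb, hv.symm]
    · simp [tg, tb, hv.symm]
    · simp [tg, tb]
    · simp [tg, tb]

/-! ## The number of gates -/

private theorem card_St {A : Set (List Bool)} {m K : ℕ} [Fintype (St A m)]
    (h : ({u : List Bool | u ∈ A ∧ u.length = m}).ncard ≤ K) : Fintype.card (St A m) ≤ K := by
  refine le_trans ?_ h
  have hfin : ({u : List Bool | u ∈ A ∧ u.length = m}).Finite :=
    (List.finite_length_eq Bool m).subset fun u hu => hu.2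
  rw [← Nat.card_eq_fintype_card]
  refine le_of_eq ?_
  rw [← Nat.card_coe_set_eq]
  refine Nat.card_congr ⟨fun u => ⟨List.ofFn u.1, u.2, List.length_ofFn⟩,
    fun u => ⟨fun i => u.1.get (Fin.cast u.2.2.symm i), ?_⟩, ?_, ?_⟩
  · have h1 : List.ofFn (fun i => u.1.get (Fin.cast u.2.2.symm i)) = u.1 := by
      obtain ⟨u, h1, h2⟩ := u
      subst h2
      exact List.ofFn_get u
    rw [h1]
    exact u.2.1
  · intro u
    apply Subtype.ext
    funext i
    simp
  · rintro ⟨u, h1, h2⟩
    subst h2
    apply Subtype.ext
    exact List.ofFn_get u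

private theorem fi_fanIn (o : OGate V s) : fi o ≤ o.fanIn := by
  cases o <;> simp [fi, OGate.fanIn]

open Classical in
private theorem card_Gt (D : OCircuit V s) {A : Set (List Bool)} {K : ℕ} (hK : 1 ≤ K)
    (hA : ∀ g m w, D.gate g = .ask m w → ({u : List Bool | u ∈ A ∧ u.length = m}).ncard ≤ K) :
    Fintype.card (Gt D A) ≤ 18 * (K * D.size) := by
  have h1 : ∀ g, Fintype.card (St A (fi (D.gate g))) ≤ K := by
    intro g
    have key : ∀ o : OGate V s, D.gate g = o →
        ({u : List Bool | u ∈ A ∧ u.length = fi o}).ncard ≤ K := by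
      intro o h
      have h0 : ({u : List Bool | u ∈ A ∧ u.length = 0}).ncard ≤ K := by
        refine le_trans ?_ hK
        refine le_trans (Set.ncard_le_ncard (t := {[]}) ?_ (Set.finite_singleton _))
          (Set.ncard_singleton _).le
        rintro u ⟨-, hu⟩
        exact List.length_eq_zero_iff.1 hu
      cases o with
      | var v => exact h0
      | not i => exact h0
      | and i j => exact h0
      | or i j => exact h0
      | ask m w => exact hA g m w h
    exact card_St (key _ rfl)
  have h2 : ∀ g, 2 * ((fi (D.gate g) + 1) * ((Fintype.card (St A (fi (D.gate g))) + 1) * 3)) ≤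
      12 * K * (1 + (D.gate g).fanIn) := by
    intro g
    calc 2 * ((fi (D.gate g) + 1) * ((Fintype.card (St A (fi (D.gate g))) + 1) * 3))
        ≤ 2 * ((1 + (D.gate g).fanIn) * ((K + K) * 3)) := by
          refine Nat.mul_le_mul_left _ (Nat.mul_le_mul ?_ (Nat.mul_le_mul_right _ ?_))
          · have := fi_fanIn (D.gate g)
            omega
          · have := h1 g
            omega
      _ = 12 * K * (1 + (D.gate g).fanIn) := by ring
  have h3 : s ≤ D.size := by
    calc s = ∑ _g : Fin s, 1 := by simp
      _ ≤ D.size := sum_le_sum fun g _ => Nat.le_add_right _ _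
  have h4 : 1 ≤ D.size := le_trans (by have := D.out.2; omega) h3
  have h5 : D.size ≤ K * D.size := Nat.le_mul_of_pos_left _ hK
  have h6 : Fintype.card (Gt D A) = 2 * s + (∑ g : Fin s,
      2 * ((fi (D.gate g) + 1) * ((Fintype.card (St A (fi (D.gate g))) + 1) * 3)) + 4) := by
    simp only [Fintype.card_sum, Fintype.card_prod, Fintype.card_bool, Fintype.card_fin,
      Fintype.card_sigma, Fintype.card_option]
    ring
  have h7 : ∑ g : Fin s, 12 * K * (1 + (D.gate g).fanIn) = 12 * (K * D.size) := by
    rw [← mul_sum]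
    unfold OCircuit.size
    ring
  rw [h6]
  have h8 := sum_le_sum fun (g : Fin s) (_ : g ∈ univ) => h2 g
  rw [h7] at h8
  omega

/-- **Circuits with a sparse oracle as small circuits without oracle which do not read more.** -/
theorem convT [DecidableEq V] (D : OCircuit V s) {A : Set (List Bool)} {K : ℕ} (hK : 1 ≤ K)
    (hA : ∀ g m w, D.gate g = .ask m w →
      ({u : List Bool | u ∈ A ∧ u.length = m}).ncard ≤ K) (v₀ : V) (b : Bool) :
    ∃ (t : ℕ) (D' : Circuit V t), t ≤ 18 * (K * D.size) ∧
      (∀ x, D'.Accepts x ↔ (D.Accepts A x ↔ b = true)) ∧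
      ∀ v ≠ v₀, ∀ k : ℕ, (∀ L, D.Cert D.out (!b) L → L.count v ≤ k) →
        ∀ L, Tree D' D'.out L → L.count v ≤ k := by
  classical
  obtain ⟨D', h1, h2⟩ := rank_circuit (tg D A v₀) (tr D A) (tr_lt D A v₀) (.inl (D.out, b))
  refine ⟨Fintype.card (Gt D A), D', card_Gt D hK hA, fun x => ?_, fun v hv k hr L hL => ?_⟩
  · have key : ∀ val, D.IsEval A x val → (D'.Accepts x ↔ val D.out = b) := by
      intro val hval
      rw [h1 x (tv D A v₀ x val) fun a => by
        have h := tv_ok D v₀ hval a
        cases hg : tg D A v₀ a with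
        | inl l => rw [hg] at h; exact h
        | inr q => rw [hg] at h; exact h]
      show (val D.out == b) = true ↔ _
      simp
    obtain ⟨val₀, hval₀⟩ := D.exists_eval A x
    cases b with
    | true =>
      constructor
      · intro h
        exact ⟨fun _ => rfl, fun _ => ⟨val₀, hval₀, (key val₀ hval₀).1 h⟩⟩
      · intro h
        obtain ⟨val, hval, h'⟩ := h.2 rfl
        exact (key val hval).2 h'
    | false =>
      constructor
      · intro h
        refine ⟨?_, fun h' => absurd h' (by simp)⟩
        rintro ⟨val, hval, h'⟩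
        rw [(key val hval).1 h] at h'
        exact h'
      · intro h
        refine (key val₀ hval₀).2 ?_
        by_contra hc
        exact absurd (h.1 ⟨val₀, hval₀, by simpa using hc⟩) (by simp)
  · obtain ⟨mx, hm1, hm2⟩ := exists_mx D v
    refine (h2 v (tb D A mx) (fun a => ?_) L hL).trans ?_
    · have h := tb_ok D A v₀ v hv mx hm2 a
      cases hg : tg D A v₀ a with
      | inl l => rw [hg] at h; exact h
      | inr q => rw [hg] at h; exact h
    · show mx D.out (!b) ≤ k
      obtain ⟨L', h3, h4⟩ := hm1 D.out (!b)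
      rw [← h4]
      exact hr L' h3

end Pool.Agent.SR
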