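import Mathlib
import Pool.Agent.Lib.MP_69a69c_lc_SR.Rename
import Pool.Agent.Lib.MP_69a69c_lc_SR.Trie

/-!
# Circuits with a sparse oracle which read given variables few times
-/

set_option autoImplicit false

namespace Pool.Agent.SR

open Finset Pool.Agent.FP Pool.Agent.RT

private theorem lawfulSum (α β : Type) [BEq α] [LawfulBEq α] [BEq β] [LawfulBEq β] :
    LawfulBEq (α ⊕ β) where
  eq_of_beq := by
    rintro (a | b) (a' | b') h
    · exact congrArg Sum.inl (eq_of_beq h)
    · exact absurd h Bool.false_ne_true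
    · exact absurd h Bool.false_ne_true
    · exact congrArg Sum.inr (eq_of_beq h)
  rfl := by
    rintro (a | b)
    · exact (beq_self_eq_true a : (a == a) = true)
    · exact (beq_self_eq_true b : (b == b) = true)

open Classical in
/-- Circuits without oracle and with free functions of the variables outside `E` which are right
when they reject, i.e. when they say `b`, and which read each variable in `E` at most `r` times:
with `s` gates they reject at most a fraction `φ s`. -/
def Base (b : Bool) {n : ℕ} (E : Finset (EdgeVar n)) (r : ℕ) (φ : ℕ → ℝ) : Prop :=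
  ∃ (N : ℕ) (Q : Fin N → EdgeVar n → Bool), 0 < N ∧ (∀ i, Clq (Q i) ↔ b = true) ∧
    ∀ (t : ℕ) (g : Fin t → (EdgeVar n → Bool) → Bool),
      (∀ w x y, (∀ f, f ∉ E → x f = y f) → g w x = g w y) →
    ∀ (s : ℕ) (D : Circuit (EdgeVar n ⊕ Fin t) s),
      (∀ x, ¬ D.Accepts (Sum.elim x fun w => g w x) → (Clq x ↔ b = true)) →
      (∀ e ∈ E, ∀ L, Tree D D.out L → L.count (Sum.inl e) ≤ r) →
      ((univ.filter fun i => ¬ D.Accepts (Sum.elim (Q i) fun w => g w (Q i))).card : ℝ) ≤ N * φ s

/-- the new names of the inputs -/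
private def nm {n t : ℕ} : EdgeVar n ⊕ Fin t → EdgeVar n ⊕ Fin (t + 1)
  | .inl e => .inl e
  | .inr j => .inr j.castSucc

private theorem nm_inj {n t : ℕ} : Function.Injective (nm : EdgeVar n ⊕ Fin t → _) := by
  rintro (e | j) (e' | j') h
  · exact congrArg Sum.inl (Sum.inl.inj h)
  · exact absurd h (by simp [nm])
  · exact absurd h (by simp [nm])
  · exact congrArg Sum.inr (Fin.castSucc_injective _ (Sum.inr.inj h))

/-- one circuit, without random choices -/
private theorem one {b : Bool} {n : ℕ} {E : Finset (EdgeVar n)} {r : ℕ} {φ : ℕ → ℝ} {c : ℝ}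
    {N : ℕ} {Q : Fin N → EdgeVar n → Bool}
    (hmain : ∀ (t : ℕ) (g : Fin t → (EdgeVar n → Bool) → Bool),
      (∀ w x y, (∀ f, f ∉ E → x f = y f) → g w x = g w y) →
      ∀ (s : ℕ) (D : Circuit (EdgeVar n ⊕ Fin t) s),
        (∀ x, ¬ D.Accepts (Sum.elim x fun w => g w x) → (Clq x ↔ b = true)) →
        (∀ e ∈ E, ∀ L, Tree D D.out L → L.count (Sum.inl e) ≤ r) →
        (Nat.card {i // ¬ D.Accepts (Sum.elim (Q i) fun w => g w (Q i))} : ℝ) ≤ N * φ s)
    (A : Set (List Bool)) (K : ℝ) (t s : ℕ) (g : Fin t → (EdgeVar n → Bool) → Bool)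
    (D : OCircuit (EdgeVar n ⊕ Fin t) s)
    (hg : ∀ j x y, (∀ f, f ∉ E → x f = y f) → g j x = g j y)
    (hK : 1 ≤ K) (hA : D.AsksFew A K)
    (hD : ∀ x : EdgeVar n → Bool,
      D.HasValue A (Sum.elim x fun j => g j x) b → (Clq x ↔ b = true))
    (hcnt : ∀ e ∈ E, ∀ L, D.Cert D.out b L → L.count (Sum.inl e) ≤ r)
    (hφ : ∀ s' : ℕ, (s' : ℝ) ≤ 18 * (K * D.size) → φ s' ≤ c) :
    (Nat.card {i // D.HasValue A (Sum.elim (Q i) fun j => g j (Q i)) b} : ℝ) ≤ N * c := by
  have hiff : ∀ z, D.HasValue A z b ↔ ¬ (D.Accepts A z ↔ (!b) = true) := by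
    intro z
    cases b with
    | false => rw [hasValue_false]; simp
    | true => rw [hasValue_true]; simp
  obtain ⟨g', hg'⟩ : ∃ g' : Fin (t + 1) → (EdgeVar n → Bool) → Bool,
      g' = Fin.snoc (α := fun _ => (EdgeVar n → Bool) → Bool) g fun _ => false := ⟨_, rfl⟩
  have hg1 : ∀ j, g' (Fin.castSucc j) = g j := by
    intro j
    rw [hg', Fin.snoc_castSucc]
  have hg2 : ∀ j x y, (∀ f, f ∉ E → x f = y f) → g' j x = g' j y := by
    intro j x y hxy
    refine Fin.lastCases ?_ (fun j => ?_) j
    · rw [hg', Fin.snoc_last]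
    · rw [hg1]
      exact hg j x y hxy
  obtain ⟨t', D', ht, hacc, hread⟩ := convT (D.rename nm) (A := A) (K := ⌊K⌋₊)
    ((Nat.one_le_floor_iff K).2 hK) (fun a k w ha => Nat.le_floor (hA a k w (rename_ask nm D ha)))
    (Sum.inr (Fin.last t) : EdgeVar n ⊕ Fin (t + 1)) (!b)
  have hsize : (t' : ℝ) ≤ 18 * (K * D.size) := by
    have h1 : (t' : ℝ) ≤ ((18 * (⌊K⌋₊ * (D.rename nm).size) : ℕ) : ℝ) := by exact_mod_cast ht
    rw [rename_size] at h1
    push_cast at h1
    refine h1.trans (mul_le_mul_of_nonneg_left ?_ (by norm_num))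
    exact mul_le_mul_of_nonneg_right (Nat.floor_le (by linarith)) (Nat.cast_nonneg _)
  have hacc2 : ∀ x : EdgeVar n → Bool, D'.Accepts (Sum.elim x fun w => g' w x) ↔
      (D.Accepts A (Sum.elim x fun j => g j x) ↔ (!b) = true) := by
    intro x
    rw [hacc, rename_accepts]
    have h1 : (fun v => Sum.elim x (fun w => g' w x) (nm v) : EdgeVar n ⊕ Fin t → Bool) =
        Sum.elim x fun j => g j x := by
      funext v
      rcases v with e | j
      · rfl
      · show g' (Fin.castSucc j) x = g j x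
        rw [hg1]
    rw [h1]
  have h5 := hmain (t + 1) g' hg2 _ D'
    (fun x hx => hD x ((hiff _).2 fun h => hx ((hacc2 x).2 h))) (by
      intro e he L hL
      have := lawfulSum (EdgeVar n) (Fin (t + 1))
      have := lawfulSum (EdgeVar n) (Fin t)
      have h6 := hread (Sum.inl e) (by simp) r (fun L' hL' => by
        rw [Bool.not_not] at hL'
        obtain ⟨M, hM, rfl⟩ := rename_cert nm D hL'
        have h7 : (Sum.inl e : EdgeVar n ⊕ Fin (t + 1)) =
          nm (Sum.inl e : EdgeVar n ⊕ Fin t) := rfl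
        have h8 : @List.count _ instBEqOfDecidableEq (nm (Sum.inl e)) (M.map nm) =
            @List.count _ instBEqOfDecidableEq (Sum.inl e) M :=
          @List.count_map_of_injective _ _ instBEqOfDecidableEq _ instBEqOfDecidableEq _ M nm
            nm_inj (Sum.inl e)
        rw [h7, h8, lawful_beq_subsingleton (instBEqOfDecidableEq : BEq (EdgeVar n ⊕ Fin t))
          Sum.instBEq]
        exact hcnt e he M hM) L hL
      refine (le_of_eq ?_).trans h6
      congr 1
      exact lawful_beq_subsingleton _ _)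
  have h7 : {i // D.HasValue A (Sum.elim (Q i) fun j => g j (Q i)) b} =
      {i // ¬ D'.Accepts (Sum.elim (Q i) fun w => g' w (Q i))} := by
    congr 1
    funext i
    rw [hiff, hacc2]
  rw [h7]
  exact h5.trans (mul_le_mul_of_nonneg_left (hφ _ hsize) (Nat.cast_nonneg _))

open Classical in
private theorem sum_om {Ω : Type} [Fintype Ω] {N : ℕ} (P : Fin N → Ω → Prop) (c : ℝ)
    (h : ∀ ω, (Nat.card {i // P i ω} : ℝ) ≤ N * c) :
    ((univ.filter fun p : Fin N × Ω => P p.1 p.2).card : ℝ) ≤ N * Fintype.card Ω * c := by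
  have h1 : (univ.filter fun p : Fin N × Ω => P p.1 p.2).card =
      ∑ ω : Ω, (univ.filter fun i => P i ω).card := by
    rw [card_filter, ← univ_product_univ, sum_product_right]
    refine sum_congr rfl fun ω _ => ?_
    rw [card_filter]
  rw [h1, Nat.cast_sum]
  calc ∑ ω : Ω, ((univ.filter fun i => P i ω).card : ℝ) ≤ ∑ _ω : Ω, N * c :=
        sum_le_sum fun ω _ => by
          have h2 := h ω
          rw [Nat.card_eq_fintype_card, Fintype.card_subtype] at h2
          exact h2
    _ = N * Fintype.card Ω * c := by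
        rw [sum_const, card_univ, nsmul_eq_mul]
        ring

/-- the size is at least `1` -/
private theorem one_le_size {V : Type} {s : ℕ} (D : OCircuit V s) : 1 ≤ D.size := by
  have h1 : s ≤ D.size := by
    calc s = ∑ _g : Fin s, 1 := by simp
      _ ≤ D.size := sum_le_sum fun g _ => Nat.le_add_right _ _
  exact le_trans (by have := D.out.2; omega) h1

/-- from circuits without oracle to circuits with a sparse oracle -/
theorem transfer {b : Bool} {n : ℕ} {E : Finset (EdgeVar n)} {r : ℕ} {φ : ℕ → ℝ} {S : ℝ}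
    (hφ : ∀ (s' : ℕ) (c : ℝ), 1 ≤ c → (s' : ℝ) ≤ 18 * c → φ s' ≤ c / S)
    (hbase : Base b E r φ) : Hard b r E S := by
  classical
  obtain ⟨N, Q, hN, hQ, hmain⟩ := hbase
  refine ⟨N, Q, hN, hQ, fun A K Ω _ t s g D hg hK hA hD hcnt => ?_⟩
  have h1 := sum_om (fun i ω => D.HasValue A (Sum.elim (Q i) fun j => g j (Q i) ω) b)
    (K * D.size / S) fun ω => one (fun t g hg s D hD hcnt => by
      rw [Nat.card_eq_fintype_card, Fintype.card_subtype]
      exact hmain t g hg s D hD hcnt) A K t s (fun j x => g j x ω) D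
      (fun j x y hxy => hg j x y ω hxy) hK hA (fun x hx => hD x ω hx) hcnt fun s' hs' =>
        hφ s' _ (by
          have h2 : (1 : ℝ) ≤ D.size := by exact_mod_cast one_le_size D
          nlinarith) hs'
  exact h1

end Pool.Agent.SR
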