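import Mathlib
import Pool.Agent.Lib.MP_0a1b52_lc_EX.Exact
import Pool.Agent.Lib.MP_0a1b52_lc_LS.MainU
import Pool.Agent.Lib.MP_69a69c_lc_SR.MainF

/-!
# Circuits with a sparse oracle: the lower bounds
-/

set_option autoImplicit false

namespace Pool.Agent.SR

open Finset Pool.Agent.FP Pool.Agent.RT

open Classical in
/-- the profile of the first bound -/
private noncomputable def pf (z : ℝ) (s : ℕ) : ℝ :=
  if (s : ℝ) ≤ (2 : ℝ) ^ z then (2 : ℝ) ^ (-z) else 1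

private theorem base_false (r m n : ℕ) (hr : 1 ≤ r) (hm : (2 : ℝ) ^ (256 * Real.sqrt r) ≤ m)
    (hn : m ≤ n) (E : Finset (EdgeVar n)) (hE : m ≤ E.card) :
    Base false E r (pf ((m / (2 : ℝ) ^ (256 * Real.sqrt r)) ^ (1 : ℝ))) := by
  obtain ⟨N, Q, hN, hQ, h1⟩ := LS.mainUS r m n hr hm hn E hE
  rw [Real.rpow_one]
  refine ⟨N, Q, hN, fun i => by simpa using hQ i, fun t g hg s D hD hcnt => ?_⟩
  unfold pf
  split_ifs with hs
  · refine h1 t g hg s D (fun x hx => ?_) hs hcnt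
    by_contra hc
    exact absurd ((hD x hc).1 hx) (by simp)
  · rw [mul_one, Nat.cast_le]
    refine (card_le_univ _).trans (le_of_eq ?_)
    rw [Fintype.card_fin]

private theorem base_true (r m n : ℕ) (hr : 1 ≤ r) (hm : (2 : ℝ) ^ (256 * Real.sqrt r) ≤ m)
    (hn : m ≤ n) (E : Finset (EdgeVar n)) (hE : m ≤ E.card) :
    Base true E r (pf ((m / (2 : ℝ) ^ (256 * Real.sqrt r)) ^ (1 / 2 : ℝ))) := by
  obtain ⟨N, Q, hN, hQ, h1⟩ := LS.mainUT r m n hr hm hn E hE true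
  rw [← Real.sqrt_eq_rpow]
  refine ⟨N, Q, hN, hQ, fun t g hg s D hD hcnt => ?_⟩
  unfold pf
  split_ifs with hs
  · exact h1 t g hg s D hD hs hcnt
  · rw [mul_one, Nat.cast_le]
    refine (card_le_univ _).trans (le_of_eq ?_)
    rw [Fintype.card_fin]

private theorem base (b : Bool) (a : ℝ) (ha : a = if b = true then 1 / 2 else 1) (r m n : ℕ)
    (hr : 1 ≤ r) (hm : (2 : ℝ) ^ (256 * Real.sqrt r) ≤ m)
    (hn : m ≤ n) (E : Finset (EdgeVar n)) (hE : m ≤ E.card) :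
    Base b E r (pf ((m / (2 : ℝ) ^ (256 * Real.sqrt r)) ^ a)) := by
  cases b with
  | false =>
    have ha' : a = 1 := by simpa using ha
    subst ha'
    exact base_false r m n hr hm hn E hE
  | true =>
    have ha' : a = 1 / 2 := by simpa using ha
    subst ha'
    exact base_true r m n hr hm hn E hE

private theorem pf_le {y z : ℝ} (hyz : y + 5 ≤ z) (s : ℕ) (c : ℝ) (hc : 1 ≤ c)
    (hs : (s : ℝ) ≤ 18 * c) : pf z s ≤ c / (2 : ℝ) ^ y := by
  have hy0 : (0 : ℝ) < (2 : ℝ) ^ y := by positivity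
  rw [le_div_iff₀ hy0]
  unfold pf
  split_ifs with h
  · calc (2 : ℝ) ^ (-z) * (2 : ℝ) ^ y = (2 : ℝ) ^ (-z + y) :=
          (Real.rpow_add (by norm_num) _ _).symm
      _ ≤ (2 : ℝ) ^ (0 : ℝ) := Real.rpow_le_rpow_of_exponent_le (by norm_num) (by linarith)
      _ = 1 := Real.rpow_zero _
      _ ≤ c := hc
  · have h1 : (2 : ℝ) ^ y * 32 ≤ (2 : ℝ) ^ z := by
      calc (2 : ℝ) ^ y * 32 = (2 : ℝ) ^ y * (2 : ℝ) ^ (5 : ℝ) := by norm_num
        _ = (2 : ℝ) ^ (y + 5) := (Real.rpow_add (by norm_num) _ _).symm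
        _ ≤ (2 : ℝ) ^ z := Real.rpow_le_rpow_of_exponent_le (by norm_num) hyz
    have h2 := not_le.1 h
    nlinarith

/-- **Circuits with a sparse oracle which read many variables few times.** -/
theorem bound (b : Bool) (a : ℝ) (ha : a = if b = true then 1 / 2 else 1) (r m n : ℕ)
    (hr : 1 ≤ r) (hm : (2 : ℝ) ^ (264 * Real.sqrt r) ≤ m) (hn : m ≤ n) (E : Finset (EdgeVar n))
    (hE : m ≤ E.card) :
    Hard b r E ((2 : ℝ) ^ ((m / (2 : ℝ) ^ (264 * Real.sqrt r)) ^ a)) := by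
  obtain ⟨q, hq⟩ : ∃ q, q = Real.sqrt r := ⟨_, rfl⟩
  have hq1 : 1 ≤ q := by
    rw [hq, Real.one_le_sqrt]
    exact_mod_cast hr
  have ha1 : 1 / 2 ≤ a := by
    rw [ha]
    split_ifs <;> norm_num
  have hb := base b a ha r
  rw [← hq] at hm hb ⊢
  obtain ⟨u, hu⟩ : ∃ u, u = (2 : ℝ) ^ (256 * q) := ⟨_, rfl⟩
  obtain ⟨U, hU⟩ : ∃ U, U = (2 : ℝ) ^ (264 * q) := ⟨_, rfl⟩
  have hu1 : 1 ≤ u := by
    rw [hu]
    exact Real.one_le_rpow (by norm_num) (by linarith)
  have hUu : 256 * u ≤ U := by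
    rw [hu, hU]
    calc 256 * (2 : ℝ) ^ (256 * q) = (2 : ℝ) ^ (8 + 256 * q) := by
          rw [Real.rpow_add (by norm_num)]
          norm_num
      _ ≤ (2 : ℝ) ^ (264 * q) := by
          refine Real.rpow_le_rpow_of_exponent_le (by norm_num) ?_
          linarith
  rw [← hu] at hb
  rw [← hU] at hm ⊢
  have hU0 : 0 < U := by linarith
  have hu0 : 0 < u := by linarith
  have hy1 : 1 ≤ ((m : ℝ) / U) ^ a := Real.one_le_rpow ((one_le_div hU0).2 hm) (by linarith)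
  have hyz : 12 * ((m : ℝ) / U) ^ a ≤ (m / u) ^ a := by
    have h1 : (144 : ℝ) * (m / U) ≤ m / u := by
      have hm0 : (0 : ℝ) ≤ m := Nat.cast_nonneg m
      rw [← mul_div_assoc, div_le_div_iff₀ hU0 hu0]
      calc (144 : ℝ) * m * u ≤ m * (256 * u) := by nlinarith
        _ ≤ m * U := mul_le_mul_of_nonneg_left hUu hm0
    calc 12 * ((m : ℝ) / U) ^ a ≤ (144 : ℝ) ^ a * ((m : ℝ) / U) ^ a := by
          refine mul_le_mul_of_nonneg_right ?_ (by positivity)
          calc (12 : ℝ) ≤ (144 : ℝ) ^ (1 / 2 : ℝ) := by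
                rw [← Real.sqrt_eq_rpow]
                exact Real.le_sqrt_of_sq_le (by norm_num)
            _ ≤ (144 : ℝ) ^ a := Real.rpow_le_rpow_of_exponent_le (by norm_num) ha1
      _ = (144 * ((m : ℝ) / U)) ^ a := by
          rw [Real.mul_rpow (by norm_num) (by positivity)]
      _ ≤ (m / u) ^ a := Real.rpow_le_rpow (by positivity) h1 (by linarith)
  exact transfer (pf_le (by linarith)) (hb m n hr (by linarith) hn E hE)

/-- **Circuits with a sparse oracle which read the edges of a star forest once.** -/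
theorem boundX : ∃ m₀ : ℕ, ∀ (b : Bool) (m n : ℕ), m₀ ≤ m → m ^ 7 ≤ n →
    ∀ z u : Fin m → Fin n, Function.Injective u → (∀ i j, z i ≠ u j) →
    ∀ e : Fin m → EdgeVar n, (∀ i, (e i).1 = (z i, u i) ∨ (e i).1 = (u i, z i)) →
      Hard b 1 (univ.image e) (2 ^ m / m ^ 13) := by
  obtain ⟨m₀, h⟩ := EX.exactU
  refine ⟨max m₀ 18, fun b m n hm hn z u hu hz e he => ?_⟩
  obtain ⟨N, Q, hN, hQ, h1⟩ := h m ((le_max_left _ _).trans hm) n hn u z hu hz e he b
  have hm1 : 18 ≤ m := (le_max_right _ _).trans hm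
  have hm2 : (18 : ℝ) ≤ m := by exact_mod_cast hm1
  refine transfer (φ := fun s => (s : ℝ) * m ^ 12 / 2 ^ m) (fun s' c hc hs => ?_)
    ⟨N, Q, hN, hQ, fun t g hg s D hD hcnt => ?_⟩
  · rw [div_div_eq_mul_div]
    refine div_le_div_of_nonneg_right ?_ (by positivity)
    calc (s' : ℝ) * m ^ 12 ≤ (18 * c) * m ^ 12 := mul_le_mul_of_nonneg_right hs (by positivity)
      _ ≤ (m * c) * m ^ 12 :=
        mul_le_mul_of_nonneg_right (mul_le_mul_of_nonneg_right hm2 (by linarith)) (by positivity)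
      _ = c * m ^ 13 := by ring
  · exact h1 t g (fun w x y hxy => hg w x y fun f hf => hxy f fun i hi =>
      hf (mem_image.2 ⟨i, mem_univ _, hi.symm⟩)) s D hD
      fun i L hL => hcnt (e i) (mem_image.2 ⟨i, mem_univ _, rfl⟩) L hL

end Pool.Agent.SR
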