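import Mathlib
import Pool.Agent.Lib.MP_0a1b52_lc_EX.RandV
import Pool.Agent.Lib.MP_69a69c_lc_SR.MainF

/-!
# Circuits with a sparse oracle: both answers, by squares and by the vertices touched
-/

set_option autoImplicit false

namespace Pool.Agent.SR

open Finset Pool.Agent.FP Pool.Agent.RT

open Classical in
/-- the profile of the bound -/
private noncomputable def pf (z : ℝ) (s : ℕ) : ℝ :=
  if (s : ℝ) ≤ (2 : ℝ) ^ z then (2 : ℝ) ^ (-z) else 1

private theorem baseV (b : Bool) (r m n : ℕ) (hr : 1 ≤ r) (hm : (2 : ℝ) ^ (128 * Real.sqrt r) ≤ m)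
    (E : Finset (EdgeVar n)) (hE : EX.Big m E) :
    Base b E r (pf (m / (2 : ℝ) ^ (128 * Real.sqrt r))) := by
  obtain ⟨N, Q, hN, hQ, h1⟩ := EX.bigT r m n hr hm E hE b
  refine ⟨N, Q, hN, hQ, fun t g hg s D hD hcnt => ?_⟩
  unfold pf
  split_ifs with hs
  · exact h1 t g hg s D hD hs hcnt
  · rw [mul_one, Nat.cast_le]
    refine (card_le_univ _).trans (le_of_eq ?_)
    rw [Fintype.card_fin]

private theorem pf_le {y z : ℝ} (hyz : y + 5 ≤ z) (s : ℕ) (c : ℝ) (hc : 1 ≤ c)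
    (hs : (s : ℝ) ≤ 18 * c) : pf z s ≤ c / (2 : ℝ) ^ y := by
  have hy0 : (0 : ℝ) < (2 : ℝ) ^ y := by positivity
  rw [le_div_iff₀ hy0]
  unfold pf
  split_ifs with h
  · calc (2 : ℝ) ^ (-z) * (2 : ℝ) ^ y = (2 : ℝ) ^ (-z + y) :=
          (Real.rpow_add (by norm_num) _ _).symm
      _ ≤ (2 : ℝ) ^ (0 : ℝ) := Real.rpow_le_rpow_of_exponent_le (by norm_num) (by linarith)
      _ = 1 := Real.rpow_zero _
      _ ≤ c := hc
  · have h1 : (2 : ℝ) ^ y * 32 ≤ (2 : ℝ) ^ z := by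
      calc (2 : ℝ) ^ y * 32 = (2 : ℝ) ^ y * (2 : ℝ) ^ (5 : ℝ) := by norm_num
        _ = (2 : ℝ) ^ (y + 5) := (Real.rpow_add (by norm_num) _ _).symm
        _ ≤ (2 : ℝ) ^ z := Real.rpow_le_rpow_of_exponent_le (by norm_num) hyz
    have h2 := not_le.1 h
    nlinarith

/-- **Circuits with a sparse oracle which read the variables of a set touching many vertices few
times**: both answers. -/
theorem boundV (b : Bool) (r m n : ℕ) (hr : 1 ≤ r) (hm : (2 : ℝ) ^ (132 * Real.sqrt r) ≤ m)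
    (E : Finset (EdgeVar n)) (hE : EX.Big m E) :
    Hard b r E ((2 : ℝ) ^ (m / (2 : ℝ) ^ (132 * Real.sqrt r))) := by
  have hb := baseV b r m n hr
  obtain ⟨q, hq⟩ : ∃ q, q = Real.sqrt r := ⟨_, rfl⟩
  have hq1 : 1 ≤ q := by
    rw [hq, Real.one_le_sqrt]
    exact_mod_cast hr
  rw [← hq] at hm hb ⊢
  obtain ⟨u, hu⟩ : ∃ u, u = (2 : ℝ) ^ (128 * q) := ⟨_, rfl⟩
  obtain ⟨U, hU⟩ : ∃ U, U = (2 : ℝ) ^ (132 * q) := ⟨_, rfl⟩
  have hu1 : 1 ≤ u := by
    rw [hu]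
    exact Real.one_le_rpow (by norm_num) (by linarith)
  have hUu : 16 * u ≤ U := by
    rw [hu, hU]
    calc 16 * (2 : ℝ) ^ (128 * q) = (2 : ℝ) ^ (4 + 128 * q) := by
          rw [Real.rpow_add (by norm_num)]
          norm_num
      _ ≤ (2 : ℝ) ^ (132 * q) := by
          refine Real.rpow_le_rpow_of_exponent_le (by norm_num) ?_
          linarith
  rw [← hu] at hb
  rw [← hU] at hm ⊢
  have hU0 : 0 < U := by linarith
  have hu0 : 0 < u := by linarith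
  have hy1 : 1 ≤ (m : ℝ) / U := (one_le_div hU0).2 hm
  have hyz : 16 * ((m : ℝ) / U) ≤ m / u := by
    have hm0 : (0 : ℝ) ≤ m := Nat.cast_nonneg m
    rw [← mul_div_assoc, div_le_div_iff₀ hU0 hu0]
    calc (16 : ℝ) * m * u = m * (16 * u) := by ring
      _ ≤ m * U := mul_le_mul_of_nonneg_left hUu hm0
  exact transfer (pf_le (by linarith)) (hb (by linarith) E hE)

end Pool.Agent.SR
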