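import Mathlib
import Pool.Agent.Lib.MP_69a69c_lc_SR.Count
import Pool.Agent.Lib.MP_69a69c_lc_SR.DefsH
import Pool.Agent.Lib.MP_69a69c_lc_SR.Rank

/-!
# A circuit can read a few variables once
-/

set_option autoImplicit false

namespace Pool.Agent.SR

open Finset

/-- gates whose wires are indexed by a type -/
private inductive PG (V Γ : Type)
  | var (v : V)
  | not (i : Γ)
  | and (i j : Γ)
  | or (i j : Γ)
  | ask (m : ℕ) (w : Fin m → Γ)

private def PG.Wire {V Γ : Type} (i : Γ) : PG V Γ → Prop
  | .var _ => False
  | .not j => i = j
  | .and j k => i = j ∨ i = k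
  | .or j k => i = j ∨ i = k
  | .ask _ w => ∃ j, i = w j

private def PG.Ev {V Γ : Type} (A : Set (List Bool)) (x : V → Bool) (val : Γ → Bool) :
    PG V Γ → Prop
  | .var v => x v = true
  | .not i => val i = false
  | .and i j => val i = true ∧ val j = true
  | .or i j => val i = true ∨ val j = true
  | .ask _ w => List.ofFn (fun j => val (w j)) ∈ A

private def PG.toO {V Γ : Type} {t : ℕ} (e : Γ ≃ Fin t) : PG V Γ → OGate V t
  | .var v => .var v
  | .not i => .not (e i)
  | .and i j => .and (e i) (e j)
  | .or i j => .or (e i) (e j)
  | .ask m w => .ask m fun j => e (w j)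

/-- the number of a gate and its wires; a variable counts three times -/
private def PG.wt {V Γ : Type} : PG V Γ → ℕ
  | .var _ => 3
  | .not _ => 2
  | .and _ _ => 3
  | .or _ _ => 3
  | .ask m _ => 1 + m

/-- the same for circuits -/
private def gw {V : Type} {s : ℕ} : OGate V s → ℕ
  | .var _ => 3
  | .not _ => 2
  | .and _ _ => 3
  | .or _ _ => 3
  | .ask m _ => 1 + m

/-- the properties of certificate trees which are proved by induction -/
private structure Closed {V Γ : Type} (gt : Γ → PG V Γ) (P : Γ → Bool → List V → Prop) :
    Prop where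
  var : ∀ g v b, gt g = .var v → P g b [v]
  not : ∀ g i b L, gt g = .not i → P i (!b) L → P g b L
  and0 : ∀ g i j L, gt g = .and i j → (P i false L ∨ P j false L) → P g false L
  and1 : ∀ g i j L L', gt g = .and i j → P i true L → P j true L' → P g true (L ++ L')
  or1 : ∀ g i j L, gt g = .or i j → (P i true L ∨ P j true L) → P g true L
  or0 : ∀ g i j L L', gt g = .or i j → P i false L → P j false L' → P g false (L ++ L')
  ask : ∀ g m w b (c : Fin m → Bool) (L : Fin m → List V), gt g = .ask m w →
    (∀ j, P (w j) (c j) (L j)) → P g b (List.ofFn L).flatten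

/-- circuits whose gates are indexed by a finite type with a rank -/
private theorem rank_o {V Γ : Type} [Fintype Γ] (gt : Γ → PG V Γ) (ρ : Γ → ℕ)
    (hρ : ∀ a i, (gt a).Wire i → ρ i < ρ a) (o : Γ) :
    ∃ D : OCircuit V (Fintype.card Γ),
      (∀ (A : Set (List Bool)) (x : V → Bool) (val : Γ → Bool),
        (∀ a, val a = true ↔ (gt a).Ev A x val) → (D.Accepts A x ↔ val o = true)) ∧
      (∀ (A : Set (List Bool)) (K : ℝ), (∀ a m w, gt a = .ask m w →
        (({u : List Bool | u ∈ A ∧ u.length = m}).ncard : ℝ) ≤ K) → D.AsksFew A K) ∧
      (∑ g, gw (D.gate g) = ∑ a, (gt a).wt) ∧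
      ∀ P : Γ → Bool → List V → Prop, Closed gt P → ∀ b L, D.Cert D.out b L → P o b L := by
  obtain ⟨e, he⟩ := rank_equiv ρ
  have hlt : ∀ g i, (gt (e.symm g)).Wire (e.symm i) → i < g := by
    intro g i h
    have h3 := he _ _ (hρ _ _ h)
    simpa using h3
  let gate : Fin (Fintype.card Γ) → OGate V (Fintype.card Γ) := fun k => (gt (e.symm k)).toO e
  have hvar : ∀ g v, gate g = .var v → gt (e.symm g) = .var v := by
    intro g v h
    have h' : (gt (e.symm g)).toO e = .var v := h
    cases hg : gt (e.symm g) <;> rw [hg] at h' <;> simp [PG.toO] at h' ⊢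
    exact h'
  have hnot : ∀ g i, gate g = .not i → gt (e.symm g) = .not (e.symm i) := by
    intro g i h
    have h' : (gt (e.symm g)).toO e = .not i := h
    cases hg : gt (e.symm g) <;> rw [hg] at h' <;> simp [PG.toO] at h' ⊢
    rw [← h']
    simp
  have hand : ∀ g i j, gate g = .and i j → gt (e.symm g) = .and (e.symm i) (e.symm j) := by
    intro g i j h
    have h' : (gt (e.symm g)).toO e = .and i j := h
    cases hg : gt (e.symm g) <;> rw [hg] at h' <;> simp [PG.toO] at h' ⊢
    rw [← h'.1, ← h'.2]
    simp
  have hor : ∀ g i j, gate g = .or i j → gt (e.symm g) = .or (e.symm i) (e.symm j) := by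
    intro g i j h
    have h' : (gt (e.symm g)).toO e = .or i j := h
    cases hg : gt (e.symm g) <;> rw [hg] at h' <;> simp [PG.toO] at h' ⊢
    rw [← h'.1, ← h'.2]
    simp
  have hask : ∀ g m w, gate g = .ask m w → gt (e.symm g) = .ask m fun j => e.symm (w j) := by
    intro g m w h
    have h' : (gt (e.symm g)).toO e = .ask m w := h
    cases hg : gt (e.symm g) with
    | var v => rw [hg] at h'; exact absurd h' (by simp [PG.toO])
    | not i => rw [hg] at h'; exact absurd h' (by simp [PG.toO])
    | and i j => rw [hg] at h'; exact absurd h' (by simp [PG.toO])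
    | or i j => rw [hg] at h'; exact absurd h' (by simp [PG.toO])
    | ask m' w' =>
      rw [hg] at h'
      obtain ⟨rfl, h2⟩ := OGate.ask.inj h'
      have h3 := eq_of_heq h2
      rw [← h3]
      simp
  refine ⟨⟨gate, fun g i h => hlt g i (by rw [hnot g i h]; rfl),
    fun g i j h => ⟨hlt g i (by rw [hand g i j h]; exact Or.inl rfl),
      hlt g j (by rw [hand g i j h]; exact Or.inr rfl)⟩,
    fun g i j h => ⟨hlt g i (by rw [hor g i j h]; exact Or.inl rfl),
      hlt g j (by rw [hor g i j h]; exact Or.inr rfl)⟩,
    fun g m w h j => hlt g (w j) (by rw [hask g m w h]; exact ⟨j, rfl⟩), e o⟩,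
    fun A x val hval => ?_, fun A K hK g m w hg => hK _ _ _ (hask g m w hg), ?_,
    fun P hP b L hL => ?_⟩
  · have hEv : OCircuit.IsEval ⟨gate, fun g i h => hlt g i (by rw [hnot g i h]; rfl),
      fun g i j h => ⟨hlt g i (by rw [hand g i j h]; exact Or.inl rfl),
        hlt g j (by rw [hand g i j h]; exact Or.inr rfl)⟩,
      fun g i j h => ⟨hlt g i (by rw [hor g i j h]; exact Or.inl rfl),
        hlt g j (by rw [hor g i j h]; exact Or.inr rfl)⟩,
      fun g m w h j => hlt g (w j) (by rw [hask g m w h]; exact ⟨j, rfl⟩), e o⟩ A x
        fun g => val (e.symm g) := by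
      intro g
      dsimp only
      rw [hval (e.symm g)]
      have h1 : gate g = (gt (e.symm g)).toO e := rfl
      rw [h1]
      cases gt (e.symm g) <;> simp [PG.toO, PG.Ev]
    rw [accepts_iff hEv]
    dsimp only
    rw [e.symm_apply_apply]
  · refine (Equiv.sum_comp e.symm fun a => (gt a).wt).symm.trans
      (sum_congr rfl fun g _ => ?_) |>.symm
    show (gt (e.symm g)).wt = gw ((gt (e.symm g)).toO e)
    cases gt (e.symm g) <;> rfl
  · have key : ∀ (D : OCircuit V (Fintype.card Γ)), D.gate = gate → ∀ g b L, D.Cert g b L →
        P (e.symm g) b L := by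
      intro D hD g b L h
      induction h with
      | var g v b hg =>
        rw [hD] at hg
        exact hP.var _ v b (hvar g v hg)
      | not g i b L hg _ ih =>
        rw [hD] at hg
        exact hP.not _ _ b L (hnot g i hg) ih
      | andLeft g i j L hg _ ih =>
        rw [hD] at hg
        exact hP.and0 _ _ _ L (hand g i j hg) (Or.inl ih)
      | andRight g i j L hg _ ih =>
        rw [hD] at hg
        exact hP.and0 _ _ _ L (hand g i j hg) (Or.inr ih)
      | andBoth g i j L L' hg _ _ ih ih' =>
        rw [hD] at hg
        exact hP.and1 _ _ _ L L' (hand g i j hg) ih ih'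
      | orLeft g i j L hg _ ih =>
        rw [hD] at hg
        exact hP.or1 _ _ _ L (hor g i j hg) (Or.inl ih)
      | orRight g i j L hg _ ih =>
        rw [hD] at hg
        exact hP.or1 _ _ _ L (hor g i j hg) (Or.inr ih)
      | orBoth g i j L L' hg _ _ ih ih' =>
        rw [hD] at hg
        exact hP.or0 _ _ _ L L' (hor g i j hg) ih ih'
      | ask g m w b c L hg _ ih =>
        rw [hD] at hg
        exact hP.ask _ m _ b c L (hask g m w hg) ih
    have h1 := key _ rfl _ b L hL
    simpa using h1

/-! ## One variable -/

variable {V : Type} [DecidableEq V] {s : ℕ}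

/-- a gate of the circuit in which `e` has the value `a` -/
private def cpG (D : OCircuit V s) (e : V) (a : Bool) (g : Fin s) :
    PG V ((Bool × Fin s) ⊕ Fin 7) :=
  match D.gate g with
  | .var v =>
    if v = e then (if a then .or (.inr 0) (.inr 1) else .and (.inr 0) (.inr 1)) else .var v
  | .not i => .not (.inl (a, i))
  | .and i j => .and (.inl (a, i)) (.inl (a, j))
  | .or i j => .or (.inl (a, i)) (.inl (a, j))
  | .ask m w => .ask m fun j => .inl (a, w j)

private def sg (D : OCircuit V s) (e v₀ : V) (b : Bool) :
    (Bool × Fin s) ⊕ Fin 7 → PG V ((Bool × Fin s) ⊕ Fin 7)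
  | .inl (a, g) => cpG D e a g
  | .inr 0 => .var v₀
  | .inr 1 => .not (.inr 0)
  | .inr 2 => .var e
  | .inr 3 => .not (.inr 2)
  | .inr 4 => if b then .and (.inr 3) (.inl (false, D.out)) else .or (.inr 2) (.inl (false, D.out))
  | .inr 5 => if b then .and (.inr 2) (.inl (true, D.out)) else .or (.inr 3) (.inl (true, D.out))
  | .inr 6 => if b then .or (.inr 4) (.inr 5) else .and (.inr 4) (.inr 5)

private def sr (s : ℕ) : (Bool × Fin s) ⊕ Fin 7 → ℕ
  | .inl (_, g) => 2 + g
  | .inr 0 => 0
  | .inr 1 => 1
  | .inr 2 => 0
  | .inr 3 => 1
  | .inr 4 => 2 + s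
  | .inr 5 => 2 + s
  | .inr 6 => 3 + s

private theorem sr_lt (D : OCircuit V s) (e v₀ : V) (b : Bool)
    (a i : (Bool × Fin s) ⊕ Fin 7) (h : (sg D e v₀ b a).Wire i) : sr s i < sr s a := by
  rcases a with ⟨a, g⟩ | k
  · change (cpG D e a g).Wire i at h
    unfold cpG at h
    cases hg : D.gate g with
    | var v =>
      rw [hg] at h
      dsimp only at h
      split_ifs at h
      · rcases h with rfl | rfl <;> simp [sr] <;> omega
      · rcases h with rfl | rfl <;> simp [sr] <;> omega
      · exact h.elim
    | not j =>
      rw [hg] at h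
      have h1 : (j : ℕ) < g := D.not_lt g j hg
      have h2 : i = .inl (a, j) := h
      rw [h2]
      simp only [sr]
      omega
    | and j k =>
      rw [hg] at h
      obtain ⟨h1, h2⟩ := D.and_lt g j k hg
      have h1 : (j : ℕ) < g := h1
      have h2 : (k : ℕ) < g := h2
      rcases h with rfl | rfl <;> simp only [sr] <;> omega
    | or j k =>
      rw [hg] at h
      obtain ⟨h1, h2⟩ := D.or_lt g j k hg
      have h1 : (j : ℕ) < g := h1
      have h2 : (k : ℕ) < g := h2
      rcases h with rfl | rfl <;> simp only [sr] <;> omega
    | ask m w =>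
      rw [hg] at h
      obtain ⟨j, rfl⟩ := h
      have h1 : (w j : ℕ) < g := D.ask_lt g m w hg j
      simp only [sr]
      omega
  · have ho : (D.out : ℕ) < s := D.out.2
    fin_cases k
    · exact h.elim
    · have h2 : i = .inr 0 := h
      rw [h2]
      simp [sr]
    · exact h.elim
    · have h2 : i = .inr 2 := h
      rw [h2]
      simp [sr]
    · cases b <;> rcases h with rfl | rfl <;> simp only [sr] <;> omega
    · cases b <;> rcases h with rfl | rfl <;> simp only [sr] <;> omega
    · cases b <;> rcases h with rfl | rfl <;> simp only [sr] <;> omega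

/-- the values of the gates -/
private def sv (D : OCircuit V s) (b : Bool) (y z : Bool) (va : Bool → Fin s → Bool) :
    (Bool × Fin s) ⊕ Fin 7 → Bool
  | .inl (a, g) => va a g
  | .inr 0 => z
  | .inr 1 => !z
  | .inr 2 => y
  | .inr 3 => !y
  | .inr 4 => if b then !y && va false D.out else y || va false D.out
  | .inr 5 => if b then y && va true D.out else !y || va true D.out
  | .inr 6 => if b then (!y && va false D.out) || (y && va true D.out) else
      (y || va false D.out) && (!y || va true D.out)

private theorem sv_ev (D : OCircuit V s) (e v₀ : V) (b : Bool) (A : Set (List Bool))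
    (x : V → Bool) (va : Bool → Fin s → Bool)
    (hva : ∀ a, D.IsEval A (Function.update x e a) (va a)) (p : (Bool × Fin s) ⊕ Fin 7) :
    sv D b (x e) (x v₀) va p = true ↔ (sg D e v₀ b p).Ev A x (sv D b (x e) (x v₀) va) := by
  rcases p with ⟨a, g⟩ | k
  · change va a g = true ↔ (cpG D e a g).Ev A x (sv D b (x e) (x v₀) va)
    have h1 := hva a g
    unfold cpG
    cases hg : D.gate g with
    | var v =>
      rw [hg] at h1
      dsimp only at h1 ⊢
      rw [h1]
      by_cases hv : v = e
      · subst hv
        rw [if_pos rfl, Function.update_self]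
        cases a <;> simp [PG.Ev, sv]
      · rw [if_neg hv, Function.update_of_ne hv]
        rfl
    | not i => rw [hg] at h1; exact h1
    | and i j => rw [hg] at h1; exact h1
    | or i j => rw [hg] at h1; exact h1
    | ask m w => rw [hg] at h1; exact h1
  · fin_cases k
    · exact Iff.rfl
    · show (!(x v₀)) = true ↔ x v₀ = false
      simp
    · exact Iff.rfl
    · show (!(x e)) = true ↔ x e = false
      simp
    · cases b
      · show (x e || va false D.out) = true ↔ x e = true ∨ va false D.out = true
        simp
      · show ((!(x e)) && va false D.out) = true ↔ (!(x e)) = true ∧ va false D.out = true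
        simp
    · cases b
      · show ((!(x e)) || va true D.out) = true ↔ (!(x e)) = true ∨ va true D.out = true
        simp
      · show (x e && va true D.out) = true ↔ x e = true ∧ va true D.out = true
        simp
    · cases b
      · show ((x e || va false D.out) && ((!(x e)) || va true D.out)) = true ↔
          (x e || va false D.out) = true ∧ ((!(x e)) || va true D.out) = true
        exact Bool.and_eq_true_iff
      · show (((!(x e)) && va false D.out) || (x e && va true D.out)) = true ↔
          ((!(x e)) && va false D.out) = true ∨ (x e && va true D.out) = true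
        exact Bool.or_eq_true_iff

/-- what is proved of the certificate trees -/
private def SP (D : OCircuit V s) (e v₀ : V) (b : Bool) :
    (Bool × Fin s) ⊕ Fin 7 → Bool → List V → Prop
  | .inl (_, g), c, L => ∃ L', D.Cert g c L' ∧ L.count e = 0 ∧
      ∀ v, v ≠ e → v ≠ v₀ → L.count v = L'.count v
  | .inr 0, _, L => ∀ v, v ≠ v₀ → L.count v = 0
  | .inr 1, _, L => ∀ v, v ≠ v₀ → L.count v = 0
  | .inr 2, _, L => L.count e ≤ 1 ∧ ∀ v, v ≠ e → L.count v = 0
  | .inr 3, _, L => L.count e ≤ 1 ∧ ∀ v, v ≠ e → L.count v = 0
  | .inr _, c, L => c = b → ∃ L', D.Cert D.out b L' ∧ L.count e ≤ 1 ∧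
      ∀ v, v ≠ e → v ≠ v₀ → L.count v = L'.count v

private theorem sp_closed (D : OCircuit V s) (e v₀ : V) (he : v₀ ≠ e) (b : Bool) :
    Closed (sg D e v₀ b) (SP D e v₀ b) where
  var := by
    rintro (⟨a, g⟩ | k) v c h
    · change cpG D e a g = .var v at h
      unfold cpG at h
      cases hg : D.gate g with
      | var w =>
        rw [hg] at h
        dsimp only at h
        split_ifs at h with h1
        have h2 : w = v := by simpa using h
        subst h2
        refine ⟨[w], .var g w c hg, ?_, fun v _ _ => rfl⟩
        rw [List.count_singleton]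
        simp [h1]
      | not i => rw [hg] at h; exact absurd h (by simp)
      | and i j => rw [hg] at h; exact absurd h (by simp)
      | or i j => rw [hg] at h; exact absurd h (by simp)
      | ask m w => rw [hg] at h; exact absurd h (by simp)
    · fin_cases k
      · have h2 : v₀ = v := by simpa [sg] using h
        subst h2
        intro v hv
        rw [List.count_singleton]
        simp [hv.symm]
      · exact absurd h (by simp [sg])
      · have h2 : e = v := by simpa [sg] using h
        subst h2
        refine ⟨by simp, fun v hv => ?_⟩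
        rw [List.count_singleton]
        simp [hv.symm]
      · exact absurd h (by simp [sg])
      · exact absurd h (by cases b <;> simp [sg])
      · exact absurd h (by cases b <;> simp [sg])
      · exact absurd h (by cases b <;> simp [sg])
  not := by
    rintro (⟨a, g⟩ | k) i c L h hi
    · change cpG D e a g = .not i at h
      unfold cpG at h
      cases hg : D.gate g with
      | var w =>
        rw [hg] at h
        dsimp only at h
        split_ifs at h
      | not j =>
        rw [hg] at h
        have h2 : Sum.inl (a, j) = i := by simpa using h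
        subst h2
        obtain ⟨L', h3, h4, h5⟩ := hi
        exact ⟨L', .not g j c L' hg h3, h4, h5⟩
      | and i j => rw [hg] at h; exact absurd h (by simp)
      | or i j => rw [hg] at h; exact absurd h (by simp)
      | ask m w => rw [hg] at h; exact absurd h (by simp)
    · fin_cases k
      · exact absurd h (by simp [sg])
      · have h2 : (.inr 0 : (Bool × Fin s) ⊕ Fin 7) = i := by simpa [sg] using h
        subst h2
        exact hi
      · exact absurd h (by simp [sg])
      · have h2 : (.inr 2 : (Bool × Fin s) ⊕ Fin 7) = i := by simpa [sg] using h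
        subst h2
        exact hi
      · exact absurd h (by cases b <;> simp [sg])
      · exact absurd h (by cases b <;> simp [sg])
      · exact absurd h (by cases b <;> simp [sg])
  and0 := by
    rintro (⟨a, g⟩ | k) i j L h hij
    · change cpG D e a g = .and i j at h
      unfold cpG at h
      cases hg : D.gate g with
      | var w =>
        rw [hg] at h
        dsimp only at h
        split_ifs at h with h1
        obtain ⟨rfl, rfl⟩ : (.inr 0 : (Bool × Fin s) ⊕ Fin 7) = i ∧ .inr 1 = j := by
          simpa using h
        have h3 : ∀ v, v ≠ v₀ → L.count v = 0 := hij.elim id id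
        subst h1
        refine ⟨[w], .var g w false hg, h3 w he.symm, fun v hv hv' => ?_⟩
        rw [h3 v hv', List.count_singleton]
        simp [hv.symm]
      | not j => rw [hg] at h; exact absurd h (by simp)
      | and i' j' =>
        rw [hg] at h
        obtain ⟨rfl, rfl⟩ : (.inl (a, i') : (Bool × Fin s) ⊕ Fin 7) = i ∧ .inl (a, j') = j := by
          simpa using h
        rcases hij with ⟨L', h3, h4, h5⟩ | ⟨L', h3, h4, h5⟩
        · exact ⟨L', .andLeft g i' j' L' hg h3, h4, h5⟩
        · exact ⟨L', .andRight g i' j' L' hg h3, h4, h5⟩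
      | or i j => rw [hg] at h; exact absurd h (by simp)
      | ask m w => rw [hg] at h; exact absurd h (by simp)
    · fin_cases k
      · exact absurd h (by simp [sg])
      · exact absurd h (by simp [sg])
      · exact absurd h (by simp [sg])
      · exact absurd h (by simp [sg])
      · cases b
        · exact absurd h (by simp [sg])
        · intro hb
          exact absurd hb (by simp)
      · cases b
        · exact absurd h (by simp [sg])
        · intro hb
          exact absurd hb (by simp)
      · cases b
        · obtain ⟨rfl, rfl⟩ : (.inr 4 : (Bool × Fin s) ⊕ Fin 7) = i ∧ .inr 5 = j := by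
            simpa [sg] using h
          exact hij.elim id id
        · exact absurd h (by simp [sg])
  and1 := by
    rintro (⟨a, g⟩ | k) i j L₁ L₂ h hi hj
    · change cpG D e a g = .and i j at h
      unfold cpG at h
      cases hg : D.gate g with
      | var w =>
        rw [hg] at h
        dsimp only at h
        split_ifs at h with h1
        obtain ⟨rfl, rfl⟩ : (.inr 0 : (Bool × Fin s) ⊕ Fin 7) = i ∧ .inr 1 = j := by
          simpa using h
        have h3 : ∀ v, v ≠ v₀ → (L₁ ++ L₂).count v = 0 := by
          intro v hv
          rw [List.count_append, hi v hv, hj v hv]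
        subst h1
        refine ⟨[w], .var g w true hg, h3 w he.symm, fun v hv hv' => ?_⟩
        rw [h3 v hv', List.count_singleton]
        simp [hv.symm]
      | not j => rw [hg] at h; exact absurd h (by simp)
      | and i' j' =>
        rw [hg] at h
        obtain ⟨rfl, rfl⟩ : (.inl (a, i') : (Bool × Fin s) ⊕ Fin 7) = i ∧ .inl (a, j') = j := by
          simpa using h
        obtain ⟨L₁', h3, h4, h5⟩ := hi
        obtain ⟨L₂', h6, h7, h8⟩ := hj
        refine ⟨L₁' ++ L₂', .andBoth g i' j' L₁' L₂' hg h3 h6, ?_, fun v hv hv' => ?_⟩
        · rw [List.count_append, h4, h7]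
        · rw [List.count_append, List.count_append, h5 v hv hv', h8 v hv hv']
      | or i j => rw [hg] at h; exact absurd h (by simp)
      | ask m w => rw [hg] at h; exact absurd h (by simp)
    · fin_cases k
      · exact absurd h (by simp [sg])
      · exact absurd h (by simp [sg])
      · exact absurd h (by simp [sg])
      · exact absurd h (by simp [sg])
      · cases b
        · exact absurd h (by simp [sg])
        · obtain ⟨rfl, rfl⟩ : (.inr 3 : (Bool × Fin s) ⊕ Fin 7) = i ∧
              .inl (false, D.out) = j := by simpa [sg] using h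
          obtain ⟨L₂', h6, h7, h8⟩ := hj
          refine fun _ => ⟨L₂', h6, ?_, fun v hv hv' => ?_⟩
          · rw [List.count_append, h7]
            exact hi.1
          · rw [List.count_append, hi.2 v hv, zero_add, h8 v hv hv']
      · cases b
        · exact absurd h (by simp [sg])
        · obtain ⟨rfl, rfl⟩ : (.inr 2 : (Bool × Fin s) ⊕ Fin 7) = i ∧
              .inl (true, D.out) = j := by simpa [sg] using h
          obtain ⟨L₂', h6, h7, h8⟩ := hj
          refine fun _ => ⟨L₂', h6, ?_, fun v hv hv' => ?_⟩
          · rw [List.count_append, h7]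
            exact hi.1
          · rw [List.count_append, hi.2 v hv, zero_add, h8 v hv hv']
      · cases b
        · intro hb
          exact absurd hb (by simp)
        · exact absurd h (by simp [sg])
  or1 := by
    rintro (⟨a, g⟩ | k) i j L h hij
    · change cpG D e a g = .or i j at h
      unfold cpG at h
      cases hg : D.gate g with
      | var w =>
        rw [hg] at h
        dsimp only at h
        split_ifs at h with h1
        obtain ⟨rfl, rfl⟩ : (.inr 0 : (Bool × Fin s) ⊕ Fin 7) = i ∧ .inr 1 = j := by
          simpa using h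
        have h3 : ∀ v, v ≠ v₀ → L.count v = 0 := hij.elim id id
        subst h1
        refine ⟨[w], .var g w true hg, h3 w he.symm, fun v hv hv' => ?_⟩
        rw [h3 v hv', List.count_singleton]
        simp [hv.symm]
      | not j => rw [hg] at h; exact absurd h (by simp)
      | or i' j' =>
        rw [hg] at h
        obtain ⟨rfl, rfl⟩ : (.inl (a, i') : (Bool × Fin s) ⊕ Fin 7) = i ∧ .inl (a, j') = j := by
          simpa using h
        rcases hij with ⟨L', h3, h4, h5⟩ | ⟨L', h3, h4, h5⟩
        · exact ⟨L', .orLeft g i' j' L' hg h3, h4, h5⟩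
        · exact ⟨L', .orRight g i' j' L' hg h3, h4, h5⟩
      | and i j => rw [hg] at h; exact absurd h (by simp)
      | ask m w => rw [hg] at h; exact absurd h (by simp)
    · fin_cases k
      · exact absurd h (by simp [sg])
      · exact absurd h (by simp [sg])
      · exact absurd h (by simp [sg])
      · exact absurd h (by simp [sg])
      · cases b
        · intro hb
          exact absurd hb (by simp)
        · exact absurd h (by simp [sg])
      · cases b
        · intro hb
          exact absurd hb (by simp)
        · exact absurd h (by simp [sg])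
      · cases b
        · exact absurd h (by simp [sg])
        · obtain ⟨rfl, rfl⟩ : (.inr 4 : (Bool × Fin s) ⊕ Fin 7) = i ∧ .inr 5 = j := by
            simpa [sg] using h
          exact hij.elim id id
  or0 := by
    rintro (⟨a, g⟩ | k) i j L₁ L₂ h hi hj
    · change cpG D e a g = .or i j at h
      unfold cpG at h
      cases hg : D.gate g with
      | var w =>
        rw [hg] at h
        dsimp only at h
        split_ifs at h with h1
        obtain ⟨rfl, rfl⟩ : (.inr 0 : (Bool × Fin s) ⊕ Fin 7) = i ∧ .inr 1 = j := by
          simpa using h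
        have h3 : ∀ v, v ≠ v₀ → (L₁ ++ L₂).count v = 0 := by
          intro v hv
          rw [List.count_append, hi v hv, hj v hv]
        subst h1
        refine ⟨[w], .var g w false hg, h3 w he.symm, fun v hv hv' => ?_⟩
        rw [h3 v hv', List.count_singleton]
        simp [hv.symm]
      | not j => rw [hg] at h; exact absurd h (by simp)
      | or i' j' =>
        rw [hg] at h
        obtain ⟨rfl, rfl⟩ : (.inl (a, i') : (Bool × Fin s) ⊕ Fin 7) = i ∧ .inl (a, j') = j := by
          simpa using h
        obtain ⟨L₁', h3, h4, h5⟩ := hi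
        obtain ⟨L₂', h6, h7, h8⟩ := hj
        refine ⟨L₁' ++ L₂', .orBoth g i' j' L₁' L₂' hg h3 h6, ?_, fun v hv hv' => ?_⟩
        · rw [List.count_append, h4, h7]
        · rw [List.count_append, List.count_append, h5 v hv hv', h8 v hv hv']
      | and i j => rw [hg] at h; exact absurd h (by simp)
      | ask m w => rw [hg] at h; exact absurd h (by simp)
    · fin_cases k
      · exact absurd h (by simp [sg])
      · exact absurd h (by simp [sg])
      · exact absurd h (by simp [sg])
      · exact absurd h (by simp [sg])
      · cases b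
        · obtain ⟨rfl, rfl⟩ : (.inr 2 : (Bool × Fin s) ⊕ Fin 7) = i ∧
              .inl (false, D.out) = j := by simpa [sg] using h
          obtain ⟨L₂', h6, h7, h8⟩ := hj
          refine fun _ => ⟨L₂', h6, ?_, fun v hv hv' => ?_⟩
          · rw [List.count_append, h7]
            exact hi.1
          · rw [List.count_append, hi.2 v hv, zero_add, h8 v hv hv']
        · exact absurd h (by simp [sg])
      · cases b
        · obtain ⟨rfl, rfl⟩ : (.inr 3 : (Bool × Fin s) ⊕ Fin 7) = i ∧
              .inl (true, D.out) = j := by simpa [sg] using h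
          obtain ⟨L₂', h6, h7, h8⟩ := hj
          refine fun _ => ⟨L₂', h6, ?_, fun v hv hv' => ?_⟩
          · rw [List.count_append, h7]
            exact hi.1
          · rw [List.count_append, hi.2 v hv, zero_add, h8 v hv hv']
        · exact absurd h (by simp [sg])
      · cases b
        · exact absurd h (by simp [sg])
        · intro hb
          exact absurd hb (by simp)
  ask := by
    rintro (⟨a, g⟩ | k) m w c cs L h hw
    · change cpG D e a g = .ask m w at h
      unfold cpG at h
      cases hg : D.gate g with
      | var w =>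
        rw [hg] at h
        dsimp only at h
        split_ifs at h
      | not j => rw [hg] at h; exact absurd h (by simp)
      | or i' j' => rw [hg] at h; exact absurd h (by simp)
      | and i j => rw [hg] at h; exact absurd h (by simp)
      | ask m' w' =>
        rw [hg] at h
        obtain ⟨rfl, h2⟩ := PG.ask.inj h
        have h3 := eq_of_heq h2
        subst h3
        choose L' h4 h5 h6 using hw
        refine ⟨(List.ofFn L').flatten, .ask g m' w' c cs L' hg h4, ?_, fun v hv hv' => ?_⟩
        · rw [List.count_flatten, List.map_ofFn, List.sum_ofFn]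
          exact sum_eq_zero fun j _ => h5 j
        · rw [List.count_flatten, List.map_ofFn, List.sum_ofFn, List.count_flatten,
            List.map_ofFn, List.sum_ofFn]
          exact sum_congr rfl fun j _ => h6 j v hv hv'
    · fin_cases k
      · exact absurd h (by simp [sg])
      · exact absurd h (by simp [sg])
      · exact absurd h (by simp [sg])
      · exact absurd h (by simp [sg])
      · exact absurd h (by cases b <;> simp [sg])
      · exact absurd h (by cases b <;> simp [sg])
      · exact absurd h (by cases b <;> simp [sg])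

private theorem split (D : OCircuit V s) (e v₀ : V) (he : v₀ ≠ e) (b : Bool) :
    ∃ (t : ℕ) (D' : OCircuit V t), ∑ g, gw (D'.gate g) ≤ 2 * (∑ g, gw (D.gate g)) + 19 ∧
      (∀ (A : Set (List Bool)) (x : V → Bool), D'.Accepts A x ↔ D.Accepts A x) ∧
      (∀ (A : Set (List Bool)) (K : ℝ), D.AsksFew A K → D'.AsksFew A K) ∧
      ∀ L, D'.Cert D'.out b L → ∃ L', D.Cert D.out b L' ∧ L.count e ≤ 1 ∧
        ∀ v, v ≠ e → v ≠ v₀ → L.count v = L'.count v := by
  obtain ⟨D', h1, h2, hw, h3⟩ := rank_o (sg D e v₀ b) (sr s) (sr_lt D e v₀ b) (.inr 6)
  refine ⟨_, D', ?_, fun A x => ?_, fun A K hK => h2 A K ?_, fun L hL =>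
    h3 _ (sp_closed D e v₀ he b) b L hL rfl⟩
  · rw [hw, Fintype.sum_sum_type]
    refine add_le_add ?_ ?_
    · rw [Fintype.sum_prod_type, Fintype.sum_bool, two_mul]
      have h4 : ∀ (a : Bool) (g : Fin s), (sg D e v₀ b (.inl (a, g))).wt ≤ gw (D.gate g) := by
        intro a g
        change (cpG D e a g).wt ≤ _
        unfold cpG
        cases D.gate g with
        | var v =>
          dsimp only
          split_ifs <;> exact le_rfl
        | not i => exact le_rfl
        | and i j => exact le_rfl
        | or i j => exact le_rfl
        | ask m w => exact le_rfl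
      exact add_le_add (sum_le_sum fun g _ => h4 true g) (sum_le_sum fun g _ => h4 false g)
    · rw [Fin.sum_univ_seven]
      cases b <;> exact le_rfl
  · choose va hva using fun a => D.exists_eval A (Function.update x e a)
    rw [h1 A x _ (sv_ev D e v₀ b A x va hva)]
    have h4 : ∀ a, x e = a → (D.Accepts A x ↔ va a D.out = true) := by
      intro a ha
      have h5 := accepts_iff (hva a)
      rw [← ha, Function.update_eq_self] at h5
      rw [ha] at h5
      exact h5
    cases hx : x e with
    | false =>
      rw [h4 false hx]
      cases b <;> simp [sv]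
    | true =>
      rw [h4 true hx]
      cases b <;> simp [sv]
  · rintro (⟨a, g⟩ | k) m w h
    · change cpG D e a g = .ask m w at h
      unfold cpG at h
      cases hg : D.gate g with
      | var w =>
        rw [hg] at h
        dsimp only at h
        split_ifs at h
      | not j => rw [hg] at h; exact absurd h (by simp)
      | or i' j' => rw [hg] at h; exact absurd h (by simp)
      | and i j => rw [hg] at h; exact absurd h (by simp)
      | ask m' w' =>
        rw [hg] at h
        obtain ⟨rfl, -⟩ := PG.ask.inj h
        exact hK g m' w' hg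
    · fin_cases k
      · exact absurd h (by simp [sg])
      · exact absurd h (by simp [sg])
      · exact absurd h (by simp [sg])
      · exact absurd h (by simp [sg])
      · exact absurd h (by cases b <;> simp [sg])
      · exact absurd h (by cases b <;> simp [sg])
      · exact absurd h (by cases b <;> simp [sg])

/-- **Each circuit is equivalent to one which reads a few given variables once.** -/
theorem free (D : OCircuit V s) (b : Bool) (v₀ : V) (E : Finset V) (hv₀ : v₀ ∉ E) :
    ∃ (t : ℕ) (D' : OCircuit V t),
      ∑ g, gw (D'.gate g) + 19 ≤ 2 ^ E.card * (∑ g, gw (D.gate g) + 19) ∧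
      (∀ (A : Set (List Bool)) (x : V → Bool), D'.Accepts A x ↔ D.Accepts A x) ∧
      (∀ (A : Set (List Bool)) (K : ℝ), D.AsksFew A K → D'.AsksFew A K) ∧
      ∀ e ∈ E, ∀ L, D'.Cert D'.out b L → L.count e ≤ 1 := by
  induction E using Finset.induction_on with
  | empty =>
    exact ⟨s, D, by simp, fun A x => Iff.rfl, fun A K h => h,
      fun e he => absurd he (notMem_empty e)⟩
  | insert e E he ih =>
    obtain ⟨t, D', h1, h2, h3, h4⟩ := ih fun h => hv₀ (mem_insert_of_mem h)
    have hne : v₀ ≠ e := fun h => hv₀ (h ▸ mem_insert_self e E)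
    obtain ⟨t', D'', h5, h6, h7, h8⟩ := split D' e v₀ hne b
    refine ⟨t', D'', ?_, fun A x => (h6 A x).trans (h2 A x), fun A K h => h7 A K (h3 A K h),
      fun e' he' L hL => ?_⟩
    · rw [card_insert_of_notMem he, pow_succ]
      calc ∑ g, gw (D''.gate g) + 19 ≤ 2 * (∑ g, gw (D'.gate g)) + 19 + 19 :=
            Nat.add_le_add_right h5 _
        _ = 2 * (∑ g, gw (D'.gate g) + 19) := by ring
        _ ≤ 2 * (2 ^ E.card * (∑ g, gw (D.gate g) + 19)) := Nat.mul_le_mul_left _ h1
        _ = 2 ^ E.card * 2 * (∑ g, gw (D.gate g) + 19) := by ring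
    · obtain ⟨L', h9, h10, h11⟩ := h8 L hL
      rcases mem_insert.1 he' with rfl | he'
      · exact h10
      · rw [h11 e' (fun h => he (h ▸ he')) fun h => hv₀ (h ▸ mem_insert_of_mem he')]
        exact h4 e' he' L' h9

/-- the same with both values of the circuit and the size -/
theorem few (D : OCircuit V s) (b : Bool) (E : Finset V) (hE : ∃ v, v ∉ E) :
    ∃ (t : ℕ) (D' : OCircuit V t), D'.size ≤ 2 ^ E.card * (3 * D.size + 19) ∧
      (∀ (A : Set (List Bool)) (x : V → Bool) (c : Bool),
        D'.HasValue A x c ↔ D.HasValue A x c) ∧
      (∀ (A : Set (List Bool)) (K : ℝ), D.AsksFew A K → D'.AsksFew A K) ∧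
      ∀ e ∈ E, ∀ L, D'.Cert D'.out b L → L.count e ≤ 1 := by
  obtain ⟨v₀, hv₀⟩ := hE
  obtain ⟨t, D', h1, h2, h3, h4⟩ := free D b v₀ E hv₀
  refine ⟨t, D', ?_, fun A x c => ?_, h3, h4⟩
  · have h5 : D'.size ≤ ∑ g, gw (D'.gate g) := by
      refine sum_le_sum fun g _ => ?_
      cases D'.gate g <;> simp [gw, OGate.fanIn]
    have h6 : ∑ g, gw (D.gate g) ≤ 3 * D.size := by
      unfold OCircuit.size
      rw [mul_sum]
      refine sum_le_sum fun g _ => ?_
      cases D.gate g <;> simp only [gw, OGate.fanIn] <;> omega
    calc D'.size ≤ ∑ g, gw (D'.gate g) + 19 := h5.trans (Nat.le_add_right _ _)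
      _ ≤ 2 ^ E.card * (∑ g, gw (D.gate g) + 19) := h1
      _ ≤ 2 ^ E.card * (3 * D.size + 19) := Nat.mul_le_mul_left _ (by omega)
  · cases c with
    | false => rw [hasValue_false, hasValue_false, h2]
    | true => rw [hasValue_true, hasValue_true, h2]

end Pool.Agent.SR
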