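import Mathlib
import Pool.Agent.Lib.MP_69a69c_lc_SR.Count
import Pool.Agent.Lib.MP_b573ec_lc_RA.Cnf

/-!
# Nondeterministic circuits for the clique function which read each variable once
-/

set_option autoImplicit false

namespace Pool.Agent.SR

open Finset Pool.Agent.FP Pool.Agent.RT

variable {V : Type} {s : ℕ}

/-- the two copies of a gate -/
private def pos (g : Fin s) (k : Fin 2) : Fin (s * 2) := finProdFinEquiv (g, k)

private theorem pos_lt {i g : Fin s} (h : i < g) (k l : Fin 2) : pos i k < pos g l := by
  rw [Fin.lt_def]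
  simp only [pos, finProdFinEquiv_apply_val]
  have h1 : (i : ℕ) < g := h
  have h2 := k.isLt
  omega

private theorem pos_lt' (g : Fin s) : pos g 0 < pos g 1 := by
  rw [Fin.lt_def]
  simp [pos, finProdFinEquiv_apply_val]

private def ndGate (D : Circuit V s) (g : Fin s) (k : Fin 2) : OGate V (s * 2) :=
  match D.gate g with
  | .lit v b => if b = true ∨ k = 0 then .var v else .not (pos g 0)
  | .and i j => .and (pos i 1) (pos j 1)
  | .or i j => .or (pos i 1) (pos j 1)

private theorem ndGate_not {D : Circuit V s} {g : Fin s} {k : Fin 2} {i : Fin (s * 2)}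
    (h : ndGate D g k = .not i) : k = 1 ∧ i = pos g 0 ∧ ∃ v, D.gate g = .lit v false := by
  unfold ndGate at h
  split at h
  · rename_i v b hg
    split_ifs at h with hb
    · push Not at hb
      refine ⟨by omega, (OGate.not.inj h).symm, v, ?_⟩
      rw [hg]
      congr 1
      simpa using hb.1
  · exact absurd h (by simp)
  · exact absurd h (by simp)

private theorem ndGate_and {D : Circuit V s} {g : Fin s} {k : Fin 2} {i j : Fin (s * 2)}
    (h : ndGate D g k = .and i j) :
    ∃ i' j', D.gate g = .and i' j' ∧ i = pos i' 1 ∧ j = pos j' 1 := by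
  unfold ndGate at h
  split at h
  · split_ifs at h
  · rename_i i' j' hg
    obtain ⟨h1, h2⟩ := OGate.and.inj h
    exact ⟨i', j', hg, h1.symm, h2.symm⟩
  · exact absurd h (by simp)

private theorem ndGate_or {D : Circuit V s} {g : Fin s} {k : Fin 2} {i j : Fin (s * 2)}
    (h : ndGate D g k = .or i j) :
    ∃ i' j', D.gate g = .or i' j' ∧ i = pos i' 1 ∧ j = pos j' 1 := by
  unfold ndGate at h
  split at h
  · split_ifs at h
  · exact absurd h (by simp)
  · rename_i i' j' hg
    obtain ⟨h1, h2⟩ := OGate.or.inj h
    exact ⟨i', j', hg, h1.symm, h2.symm⟩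

private theorem ndGate_ask {D : Circuit V s} {g : Fin s} {k : Fin 2} {m : ℕ}
    {w : Fin m → Fin (s * 2)} (h : ndGate D g k = .ask m w) : False := by
  unfold ndGate at h
  split at h
  · split_ifs at h
  · exact absurd h (by simp)
  · exact absurd h (by simp)

private theorem ndGate_var {D : Circuit V s} {g : Fin s} {k : Fin 2} {v : V}
    (h : ndGate D g k = .var v) : ∃ b, D.gate g = .lit v b := by
  unfold ndGate at h
  split at h
  · rename_i v' b hg
    split_ifs at h
    rw [← OGate.var.inj h]
    exact ⟨b, hg⟩
  · exact absurd h (by simp)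
  · exact absurd h (by simp)

/-- the circuit with NOT gates -/
private def nd (D : Circuit V s) : OCircuit V (s * 2) where
  gate p := ndGate D (finProdFinEquiv.symm p).1 (finProdFinEquiv.symm p).2
  not_lt := by
    intro p i h
    obtain ⟨⟨g, k⟩, rfl⟩ := finProdFinEquiv.surjective p
    rw [Equiv.symm_apply_apply] at h
    obtain ⟨h1, h2, -⟩ := ndGate_not h
    dsimp only at h1 h2
    rw [h2, h1]
    exact pos_lt' g
  and_lt := by
    intro p i j h
    obtain ⟨⟨g, k⟩, rfl⟩ := finProdFinEquiv.surjective p
    rw [Equiv.symm_apply_apply] at h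
    obtain ⟨i', j', h1, rfl, rfl⟩ := ndGate_and h
    exact ⟨pos_lt (D.and_lt _ _ _ h1).1 _ _, pos_lt (D.and_lt _ _ _ h1).2 _ _⟩
  or_lt := by
    intro p i j h
    obtain ⟨⟨g, k⟩, rfl⟩ := finProdFinEquiv.surjective p
    rw [Equiv.symm_apply_apply] at h
    obtain ⟨i', j', h1, rfl, rfl⟩ := ndGate_or h
    exact ⟨pos_lt (D.or_lt _ _ _ h1).1 _ _, pos_lt (D.or_lt _ _ _ h1).2 _ _⟩
  ask_lt := by
    intro p m w h
    exact absurd (ndGate_ask h) not_false
  out := pos D.out 1

private theorem nd_gate (D : Circuit V s) (g : Fin s) (k : Fin 2) :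
    (nd D).gate (pos g k) = ndGate D g k := by
  show ndGate D (finProdFinEquiv.symm (pos g k)).1 (finProdFinEquiv.symm (pos g k)).2 = _
  rw [pos, Equiv.symm_apply_apply]

private theorem ndGate_t {D : Circuit V s} {g : Fin s} {v : V} (h : D.gate g = .lit v true)
    (k : Fin 2) : ndGate D g k = .var v := by simp [ndGate, h]

private theorem ndGate_f {D : Circuit V s} {g : Fin s} {v : V} (h : D.gate g = .lit v false) :
    ndGate D g 1 = .not (pos g 0) := by simp [ndGate, h]

private theorem ndGate_z {D : Circuit V s} {g : Fin s} {v : V} {b : Bool}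
    (h : D.gate g = .lit v b) : ndGate D g 0 = .var v := by simp [ndGate, h]

private theorem ndGate_a {D : Circuit V s} {g i j : Fin s} (h : D.gate g = .and i j)
    (k : Fin 2) : ndGate D g k = .and (pos i 1) (pos j 1) := by simp [ndGate, h]

private theorem ndGate_o {D : Circuit V s} {g i j : Fin s} (h : D.gate g = .or i j)
    (k : Fin 2) : ndGate D g k = .or (pos i 1) (pos j 1) := by simp [ndGate, h]

private def ndVal (D : Circuit V s) (x : V → Bool) (val : Fin s → Bool) (g : Fin s) (k : Fin 2) :
    Bool :=
  if k = 1 then val g else match D.gate g with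
    | .lit v _ => x v
    | _ => val g

private theorem ndVal_one (D : Circuit V s) (x : V → Bool) (val : Fin s → Bool) (g : Fin s) :
    ndVal D x val g 1 = val g := by simp [ndVal]

private theorem nd_accepts (D : Circuit V s) (A : Set (List Bool)) (x : V → Bool) :
    (nd D).Accepts A x ↔ D.Accepts x := by
  constructor
  · rintro ⟨val, h, ho⟩
    refine ⟨fun g => val (pos g 1), fun g => ?_, ho⟩
    have h1 := h (pos g 1)
    rw [nd_gate] at h1
    rw [Bool.eq_iff_iff]
    dsimp only
    cases hg : D.gate g with
    | lit v b =>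
      cases b with
      | true =>
        rw [ndGate_t hg] at h1
        rw [h1]
        simp
      | false =>
        rw [ndGate_f hg] at h1
        have h2 := h (pos g 0)
        rw [nd_gate, ndGate_z hg] at h2
        dsimp only at h1 h2 ⊢
        rw [h1]
        have h3 : val (pos g 0) = x v := Bool.eq_iff_iff.2 h2
        rw [h3]
        simp
    | and i j =>
      rw [ndGate_a hg] at h1
      rw [h1, Bool.and_eq_true_iff]
    | or i j =>
      rw [ndGate_o hg] at h1
      rw [h1, Bool.or_eq_true_iff]
  · rintro ⟨val, h, ho⟩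
    have key : ∀ g k, ndVal D x val (finProdFinEquiv.symm (pos g k)).1
        (finProdFinEquiv.symm (pos g k)).2 = ndVal D x val g k := by
      intro g k
      rw [pos, Equiv.symm_apply_apply]
    refine ⟨fun p => ndVal D x val (finProdFinEquiv.symm p).1 (finProdFinEquiv.symm p).2, ?_, ?_⟩
    · intro p
      obtain ⟨⟨g, k⟩, rfl⟩ := finProdFinEquiv.surjective p
      have hp : finProdFinEquiv (g, k) = pos g k := rfl
      rw [hp, nd_gate]
      dsimp only
      rw [key]
      have h1 := h g
      cases hg : D.gate g with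
      | lit v b =>
        rw [hg] at h1
        have hk : k = 0 ∨ k = 1 := by omega
        rcases hk with rfl | rfl
        · rw [ndGate_z hg]
          simp [ndVal, hg]
        · cases b with
          | true =>
            rw [ndGate_t hg, ndVal_one, h1]
            simp
          | false =>
            rw [ndGate_f hg, ndVal_one, h1]
            dsimp only
            rw [key]
            simp [ndVal, hg]
      | and i j =>
        rw [hg] at h1
        have h2 : ndVal D x val g k = val g := by
          simp [ndVal, hg]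
        rw [ndGate_a hg, h2, h1]
        dsimp only
        rw [key, key, ndVal_one, ndVal_one, Bool.and_eq_true_iff]
      | or i j =>
        rw [hg] at h1
        have h2 : ndVal D x val g k = val g := by
          simp [ndVal, hg]
        rw [ndGate_o hg, h2, h1]
        dsimp only
        rw [key, key, ndVal_one, ndVal_one, Bool.or_eq_true_iff]
    · show ndVal D x val (finProdFinEquiv.symm (pos D.out 1)).1
        (finProdFinEquiv.symm (pos D.out 1)).2 = true
      rw [key, ndVal_one]
      exact ho

private theorem cert_var {t : ℕ} {D : OCircuit V t} {g : Fin t} {v : V} {b : Bool} {L : List V}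
    (hg : D.gate g = .var v) (h : D.Cert g b L) : L = [v] := by
  cases h with
  | var g v b h => rw [hg] at h; rw [OGate.var.inj h]
  | not g i b L h _ => rw [hg] at h; exact absurd h (by simp)
  | andLeft g i j L h _ => rw [hg] at h; exact absurd h (by simp)
  | andRight g i j L h _ => rw [hg] at h; exact absurd h (by simp)
  | andBoth g i j L L' h _ _ => rw [hg] at h; exact absurd h (by simp)
  | orLeft g i j L h _ => rw [hg] at h; exact absurd h (by simp)
  | orRight g i j L h _ => rw [hg] at h; exact absurd h (by simp)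
  | orBoth g i j L L' h _ _ => rw [hg] at h; exact absurd h (by simp)
  | ask g m w b c L h _ => rw [hg] at h; exact absurd h (by simp)

private theorem nd_cert (D : Circuit V s) {p : Fin (s * 2)} {b : Bool} {L : List V}
    (h : (nd D).Cert p b L) : ∀ g, p = pos g 1 → b = true → ATree D g L := by
  induction h with
  | var p v b h1 =>
    rintro g rfl -
    rw [nd_gate] at h1
    obtain ⟨b', h2⟩ := ndGate_var h1
    exact .lit g v b' h2
  | not p i b L h1 h2 ih =>
    rintro g rfl hb
    rw [nd_gate] at h1
    obtain ⟨-, rfl, v, h3⟩ := ndGate_not h1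
    have h4 : (nd D).gate (pos g 0) = .var v := by rw [nd_gate, ndGate_z h3]
    rw [cert_var h4 h2]
    exact .lit g v false h3
  | andLeft p i j L h1 h2 ih =>
    rintro g rfl hb
    exact absurd hb (by simp)
  | andRight p i j L h1 h2 ih =>
    rintro g rfl hb
    exact absurd hb (by simp)
  | andBoth p i j L L' h1 h2 h3 ih ih' =>
    rintro g rfl -
    rw [nd_gate] at h1
    obtain ⟨i', j', h4, rfl, rfl⟩ := ndGate_and h1
    exact .both g i' j' L L' h4 (ih i' rfl rfl) (ih' j' rfl rfl)
  | orLeft p i j L h1 h2 ih =>
    rintro g rfl -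
    rw [nd_gate] at h1
    obtain ⟨i', j', h4, rfl, rfl⟩ := ndGate_or h1
    exact .left g i' j' L h4 (ih i' rfl rfl)
  | orRight p i j L h1 h2 ih =>
    rintro g rfl -
    rw [nd_gate] at h1
    obtain ⟨i', j', h4, rfl, rfl⟩ := ndGate_or h1
    exact .right g i' j' L h4 (ih j' rfl rfl)
  | orBoth p i j L L' h1 h2 h3 ih ih' =>
    rintro g rfl hb
    exact absurd hb (by simp)
  | ask p m w b c L h1 h2 ih =>
    rintro g rfl -
    rw [nd_gate] at h1
    exact absurd (ndGate_ask h1) not_false

/-- **Small nondeterministic circuits for the clique function which read each variable at most once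
in each certificate tree for the value `1`.** -/
theorem nondet {n : ℕ} (hn : 25 ≤ n) : ∃ (r s : ℕ) (D : OCircuit (EdgeVar n ⊕ Fin r) s),
    s ≤ n ^ 4 ∧ (∀ g m w, D.gate g ≠ .ask m w) ∧
    (∀ (A : Set (List Bool)) (x : EdgeVar n → Bool),
      Clq x ↔ ∃ w : Fin r → Bool, D.HasValue A (Sum.elim x w) true) ∧
    ∀ L, D.Cert D.out true L → ∀ e : EdgeVar n, L.count (Sum.inl e) ≤ 1 := by
  obtain ⟨r, s, D, -, h1, h2, h3⟩ := RA.cnf_cliqueE hn
  refine ⟨r, s * 2, nd D, ?_, fun p m w hp => ?_, fun A x => ?_, fun L hL e => ?_⟩
  · calc s * 2 ≤ n ^ 3 * n := Nat.mul_le_mul h1 (by omega)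
      _ = n ^ 4 := by ring
  · exact ndGate_ask hp
  · rw [h2 x]
    exact exists_congr fun w => (nd_accepts D A _).symm
  · have h4 := nd_cert D hL D.out rfl rfl
    exact h3 L h4 e

end Pool.Agent.SR
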